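import Pool.Agent.Helper5.AP.DetP

/-!
# Comparison, decision trees
-/

namespace Pool.Agent.Helper5.AP

open Pool.Agent.Helper5.SX Function

variable {O : Set Str} {s : Store} {r u f : ℕ} {w v : Str}

private def eqf_w (a : Bool) (y : Str) (z : Bool) : Bool :=
  match y with
  | [] => false
  | b :: _ => z && (a == b)

private def eqf_z : Str → Str → Bool → Bool
  | [], _, z => z
  | a :: x, y, z => eqf_z x y.tail (eqf_w a y z)

private theorem eqf_z_false : ∀ x y : Str, eqf_z x y false = false
  | [], _ => rfl
  | a :: x, y => by
    simp only [eqf_z]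
    have h : eqf_w a y false = false := by cases y <;> simp [eqf_w]
    rw [h]
    exact eqf_z_false x _

private theorem eqf_z_spec : ∀ (x y : Str) (z : Bool),
    (eqf_z x y z && (y.drop x.length).isEmpty) = (z && decide (x = y))
  | [], y, z => by cases y <;> simp [eqf_z]
  | a :: x, [], z => by simp [eqf_z, eqf_w, eqf_z_false]
  | a :: x, b :: y, z => by
    simp only [eqf_z, List.length_cons, List.drop_succ_cons, List.tail_cons]
    rw [eqf_z_spec x y]
    cases a <;> cases b <;> cases z <;> simp [eqf_w]

private theorem eqf_clr {s : Store} {z : Bool} (h29 : s 29 = bif z then [true] else []) :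
    Does O (clr 29) s (update s 29 []) True 4 := by
  refine (clr_does (O := O) (s := s) 29).mono ?_
  rw [h29]
  cases z <;> simp

private theorem eqf_step {s : Store} {a : Bool} {x y : Str} {z : Bool} (h27 : s 27 = a :: x)
    (h28 : s 28 = y) (h29 : s 29 = bif z then [true] else []) :
    Does O (Cmd.pop 27 Cmd.skip
        (Cmd.pop 28 (clr 29) Cmd.skip (clr 29))
        (Cmd.pop 28 (clr 29) (clr 29) Cmd.skip)) s
      (update (update (update s 27 x) 28 y.tail) 29
        (bif eqf_w a y z then [true] else [])) True 6 := by
  have key : ∀ (s1 : Store), (∀ q, q ≠ 27 → q ≠ 28 → q ≠ 29 → s1 q = s q) → s1 27 = x →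
      s1 28 = y.tail → s1 29 = (bif eqf_w a y z then [true] else []) →
      s1 = (update (update (update s 27 x) 28 y.tail) 29
        (bif eqf_w a y z then [true] else [])) := by
    intro s1 h0 h1 h2 h3
    ext q : 1
    by_cases g1 : q = 29
    · subst g1
      simp [h3]
    · by_cases g2 : q = 28
      · subst g2
        simp [h2]
      · by_cases g3 : q = 27
        · subst g3
          simp [h1]
        · simp [g1, g2, g3, h0 q g3 g2 g1]
  cases y with
  | nil =>
    cases a
    · refine Spec.pop_false (T := 5) h27 (Spec.pop_nil (T := 4) (by simp [h28])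
        (Does.congr (eqf_clr (z := z) (by simp [h29])) (fun _ => key _ ?_ ?_ ?_ ?_) Iff.rfl))
      · intro q g1 g2 g3
        simp [g1, g3]
      · simp
      · simp [h28]
      · simp [eqf_w]
    · refine Spec.pop_true (T := 5) h27 (Spec.pop_nil (T := 4) (by simp [h28])
        (Does.congr (eqf_clr (z := z) (by simp [h29])) (fun _ => key _ ?_ ?_ ?_ ?_) Iff.rfl))
      · intro q g1 g2 g3
        simp [g1, g3]
      · simp
      · simp [h28]
      · simp [eqf_w]
  | cons b y =>
    cases a <;> cases b
    · refine Spec.pop_false (T := 5) h27 (Spec.pop_false (T := 4) (w := y) (by simp [h28])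
        ((Does.congr does_skip (fun _ => key _ ?_ ?_ ?_ ?_) Iff.rfl).mono (by norm_num)))
      · intro q g1 g2 g3
        simp [g1, g2]
      · simp
      · simp
      · simp [eqf_w, h29]
    · refine Spec.pop_false (T := 5) h27 (Spec.pop_true (T := 4) (w := y) (by simp [h28])
        (Does.congr (eqf_clr (z := z) (by simp [h29])) (fun _ => key _ ?_ ?_ ?_ ?_) Iff.rfl))
      · intro q g1 g2 g3
        simp [g1, g2, g3]
      · simp
      · simp
      · simp [eqf_w]
    · refine Spec.pop_true (T := 5) h27 (Spec.pop_false (T := 4) (w := y) (by simp [h28])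
        (Does.congr (eqf_clr (z := z) (by simp [h29])) (fun _ => key _ ?_ ?_ ?_ ?_) Iff.rfl))
      · intro q g1 g2 g3
        simp [g1, g2, g3]
      · simp
      · simp
      · simp [eqf_w]
    · refine Spec.pop_true (T := 5) h27 (Spec.pop_true (T := 4) (w := y) (by simp [h28])
        ((Does.congr does_skip (fun _ => key _ ?_ ?_ ?_ ?_) Iff.rfl).mono (by norm_num)))
      · intro q g1 g2 g3
        simp [g1, g2]
      · simp
      · simp
      · simp [eqf_w, h29]

private theorem eqf_loop : ∀ (x y : Str) (z : Bool) (s : Store),
    s 27 = x → s 28 = y → s 29 = (bif z then [true] else []) →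
    Does O (Cmd.loop 27 (Cmd.pop 27 Cmd.skip
        (Cmd.pop 28 (clr 29) Cmd.skip (clr 29))
        (Cmd.pop 28 (clr 29) (clr 29) Cmd.skip))) s
      (update (update (update s 27 []) 28 (y.drop x.length)) 29
        (bif eqf_z x y z then [true] else [])) True (7 * x.length + 1)
  | [], y, z, s, h27, h28, h29 => by
    refine (Does.congr (does_loop_nil h27) (fun _ => ?_) Iff.rfl).mono (by simp)
    ext q : 1
    by_cases h1 : q = 29
    · subst h1
      simp [eqf_z, h29]
    · by_cases h2 : q = 28
      · subst h2
        simp [h28]
      · by_cases h3 : q = 27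
        · subst h3
          simp [h27]
        · simp [h1, h2, h3]
  | a :: x, y, z, s, h27, h28, h29 => by
    have h2 := Does.loop_cons (by rw [h27]; simp) (eqf_step (O := O) h27 h28 h29) (fun _ =>
      eqf_loop x y.tail (eqf_w a y z) (update (update (update s 27 x) 28 y.tail) 29
        (bif eqf_w a y z then [true] else [])) (by simp) (by simp) (by simp))
    refine (Does.congr h2 (fun _ => ?_) (by simp)).mono ?_
    · ext q : 1
      by_cases g1 : q = 29
      · subst g1
        simp [eqf_z]
      · by_cases g2 : q = 28
        · subst g2
          cases y <;> simp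
        · by_cases g3 : q = 27
          · subst g3
            simp
          · simp [g1, g2, g3]
    · simp only [List.length_cons]
      omega

/-- After the two copies (`cpg_does`), induction on stack 27 (for all contents of stack 28, and
stack 29 being `[true]` or `[]`, meaning that the parts read so far are equal or not): see
`neqp_does` in SY/Neq.lean for the pattern. -/
theorem eqf_does (h27 : s 27 = []) (h28 : s 28 = []) (h29 : s 29 = []) (h31 : s 31 = [])
    (hr : r ≠ 27) (hr' : r ≠ 28) (hr'' : r ≠ 29) (hr3 : r ≠ 31) (hu : u ≠ 27) (hu' : u ≠ 28)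
    (hu'' : u ≠ 29) (hu3 : u ≠ 31) (hf : f ≠ 27) (hf' : f ≠ 28) (hf'' : f ≠ 29) (hf3 : f ≠ 31) :
    Does O (eqf r u f) s (update s f (decide (s r = s u) :: s f)) True
      (50 * ((s r).length + (s u).length + 1)) := by
  set s1 : Store := update s 27 (s r) with hs1
  set s2 : Store := update s1 28 (s u) with hs2
  set s3 : Store := update s2 29 [true] with hs3
  have h1 : Does O (cpg id r 27) s s1 True (8 * (s r).length + 2) := by
    refine Does.congr (cpg_does id h31 hr hr3 (by decide)) (fun _ => ?_) Iff.rfl
    rw [hs1, h27, List.map_id, List.append_nil]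
  have h2 : Does O (cpg id u 28) s1 s2 True (8 * (s u).length + 2) := by
    refine (Does.congr (cpg_does (s := s1) id (by simp [hs1, h31]) hu' hu3
      (by decide)) (fun _ => ?_) Iff.rfl).mono ?_
    · rw [hs2]
      congr 1
      simp [hs1, h28, hu]
    · simp [hs1, hu]
  have h3 : Does O (Cmd.push 29 true) s2 s3 True 1 := by
    refine Does.congr (does_push (O := O) (s := s2) 29 true) (fun _ => ?_) Iff.rfl
    rw [hs3]
    congr 1
    simp [hs2, hs1, h29]
  have h4 := eqf_loop (O := O) (s r) (s u) true s3 (by simp [hs3, hs2, hs1]) (by simp [hs3, hs2])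
    (by simp [hs3])
  set t : Str := (s u).drop (s r).length with ht
  set z : Bool := eqf_z (s r) (s u) true with hz
  set s4 : Store := update (update (update s3 27 []) 28 t) 29 (bif z then [true] else []) with hs4
  have hzt : (z && t.isEmpty) = decide (s r = s u) := by
    rw [hz, ht, eqf_z_spec]
    simp
  have htl : t.length ≤ (s u).length := by
    rw [ht, List.length_drop]
    omega
  -- the rest of stack 28
  have h5 : Does O (Cmd.seq (Cmd.pop 28 Cmd.skip (clr 29) (clr 29)) (clr 28)) s4
      (update (update s4 28 []) 29 (bif decide (s r = s u) then [true] else [])) True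
      (3 * (s u).length + 10) := by
    rcases ht' : t with _ | ⟨b, t'⟩
    · have h28' : s4 28 = [] := by simp [hs4, ht']
      refine (Does.congr (Does.seq (Spec.pop_nil (T := 1) h28' does_skip) (fun _ =>
        clr_does (O := O) (s := s4) 28)) (fun _ => ?_) (by simp)).mono ?_
      · rw [ht'] at hzt
        simp only [List.isEmpty_nil, Bool.and_true] at hzt
        rw [← hzt]
        ext q : 1
        by_cases g1 : q = 29
        · subst g1
          simp [hs4]
        · simp [g1]
      · rw [h28']
        simp
    · have h28' : s4 28 = b :: t' := by simp [hs4, ht']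
      have hq : decide (s r = s u) = false := by
        rw [← hzt, ht']
        simp
      have hc : Does O (Cmd.pop 28 Cmd.skip (clr 29) (clr 29)) s4
          (update (update s4 28 t') 29 []) True 5 := by
        cases b
        · exact Spec.pop_false (T := 4) h28' (eqf_clr (z := z) (by simp [hs4]))
        · exact Spec.pop_true (T := 4) h28' (eqf_clr (z := z) (by simp [hs4]))
      refine (Does.congr (Does.seq hc (fun _ => clr_does (O := O) 28)) (fun _ => ?_)
        (by simp)).mono ?_
      · rw [hq]
        ext q : 1
        by_cases g1 : q = 29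
        · subst g1
          simp
        · by_cases g2 : q = 28
          · subst g2
            simp
          · simp [g1, g2]
      · have : t'.length + 1 ≤ (s u).length := by
          rw [ht'] at htl
          simpa using htl
        simp
        omega
  set D : Bool := decide (s r = s u) with hD
  set s5 : Store := update (update s4 28 []) 29 (bif D then [true] else []) with hs5
  have hrest : ∀ q, q ≠ 27 → q ≠ 28 → q ≠ 29 → s5 q = s q := by
    intro q g1 g2 g3
    simp [hs5, hs4, hs3, hs2, hs1, g1, g2, g3]
  have h27' : s5 27 = [] := by simp [hs5, hs4]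
  have h28' : s5 28 = [] := by simp [hs5]
  have h29' : s5 29 = (bif D then [true] else []) := by simp [hs5]
  have h6 : Does O (Cmd.pop 29 (Cmd.push f false) Cmd.skip (Cmd.push f true)) s5
      (update s f (D :: s f)) True 2 := by
    cases hDD : D
    · rw [hDD] at h29'
      refine Spec.pop_nil (T := 1) (by simpa using h29') (Does.congr (does_push f false)
        (fun _ => ?_) Iff.rfl)
      ext q : 1
      by_cases g0 : q = f
      · subst g0
        simp [hrest q hf hf' hf'']
      · simp only [update_of_ne g0]
        by_cases g1 : q = 29
        · rw [g1, h29, h29']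
          rfl
        · by_cases g2 : q = 28
          · rw [g2, h28, h28']
          · by_cases g3 : q = 27
            · rw [g3, h27, h27']
            · exact hrest q g3 g2 g1
    · rw [hDD] at h29'
      refine Spec.pop_true (T := 1) (w := []) (by simpa using h29') (Does.congr (does_push f true)
        (fun _ => ?_) Iff.rfl)
      ext q : 1
      by_cases g0 : q = f
      · subst g0
        simp [hrest q hf hf' hf'', hf'']
      · simp only [update_of_ne g0]
        by_cases g1 : q = 29
        · rw [g1, h29]
          simp
        · rw [update_of_ne g1]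
          by_cases g2 : q = 28
          · rw [g2, h28, h28']
          · by_cases g3 : q = 27
            · rw [g3, h27, h27']
            · exact hrest q g3 g2 g1
  have h56 : Does O (Cmd.seq (Cmd.pop 28 Cmd.skip (clr 29) (clr 29)) (Cmd.seq (clr 28)
      (Cmd.pop 29 (Cmd.push f false) Cmd.skip (Cmd.push f true)))) s4
      (update s f (D :: s f)) True (3 * (s u).length + 12) := by
    obtain ⟨p1, p2⟩ := h5
    obtain ⟨q1, q2⟩ := h6
    constructor
    · intro n s' hr'
      cases hr' with
      | seq a1 a2 =>
        cases a2 with
        | seq a3 a4 =>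
          obtain ⟨e, -⟩ := p1 _ _ (Run.seq a1 a3)
          subst e
          exact q1 _ _ a4
    · intro s' hs'
      obtain ⟨m1, b1, b2⟩ := p2 s5 ⟨rfl, trivial⟩
      obtain ⟨m2, b3, b4⟩ := q2 s' hs'
      cases b2 with
      | seq a1 a2 => exact ⟨_, by omega, Run.seq a1 (Run.seq a2 b4)⟩
  have h7 := Does.seq h1 (fun _ => Does.seq h2 (fun _ => Does.seq h3 (fun _ =>
    Does.seq h4 (fun _ => h56))))
  refine (Does.congr h7 (fun _ => rfl) (by simp)).mono ?_
  omega

/-- Induction on `n`. -/
theorem dt_spec (n : ℕ) (F : Str → Cmd) (s : Store) {R : Store → Prop} {T : ℕ}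
    (h : Spec O (F (padw n (s r))) (update s r ((s r).drop n)) R T) :
    Spec O (dt r n F) s R (T + n) := by
  induction n generalizing F s with
  | zero =>
    have h1 : update s r ((s r).drop 0) = s := by
      rw [List.drop_zero]
      exact update_eq_self r s
    rw [h1] at h
    exact h
  | succ n ih =>
    have h0 : T + (n + 1) = T + n + 1 := by omega
    rw [h0]
    cases hs : s r with
    | nil =>
      refine Spec.pop_nil hs (ih (fun w => F (false :: w)) s ?_)
      rw [hs] at h ⊢
      simp only [padw, List.headD_nil, List.tail_nil, List.drop_nil] at h ⊢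
      exact h
    | cons b w =>
      rw [hs] at h
      simp only [padw, List.headD_cons, List.tail_cons, List.drop_succ_cons] at h
      cases b with
      | false =>
        refine Spec.pop_false hs (ih (fun w => F (false :: w)) (update s r w) ?_)
        simp only [update_self, update_idem]
        exact h
      | true =>
        refine Spec.pop_true hs (ih (fun w => F (true :: w)) (update s r w) ?_)
        simp only [update_self, update_idem]
        exact h

end Pool.Agent.Helper5.AP
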