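import Pool.Agent.Helper5.AP.Defs

/-!
# Truth tables
-/

namespace Pool.Agent.Helper5.AP

open Pool.Agent.Helper5.SX Function

theorem tab_congr {k : ℕ} {w : Str} {a a' : ℕ → Prop} (h : ∀ j < k, a j ↔ a' j) :
    tab k w a = tab k w a' := by
  classical
  unfold tab
  congr 1
  refine Finset.sum_congr rfl fun j hj => ?_
  have hj' := h j (Finset.mem_range.1 hj)
  by_cases ha : a j
  · rw [if_pos ha, if_pos (hj'.1 ha)]
  · rw [if_neg ha, if_neg (fun h2 => ha (hj'.2 h2))]

theorem sub_congr {k : ℕ} {w : Str} {J J' a a' : ℕ → Prop} {b : Prop} (hJ : ∀ j < k, J j ↔ J' j)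
    (h : ∀ j < k, ¬ J j → (a j ↔ a' j)) : tab k w (sub J b a) = tab k w (sub J' b a') := by
  refine tab_congr fun j hj => ?_
  have h1 := hJ j hj
  have h2 := h j hj
  unfold sub
  tauto

private theorem has_congr {k : ℕ} {w : Str} {J J' : ℕ → Prop} (hJ : ∀ j < k, J j ↔ J' j)
    (u v : Bool) : Has k w J u v ↔ Has k w J' u v := by
  unfold Has
  refine exists_congr fun a => ?_
  rw [sub_congr (b := False) (a := a) (a' := a) hJ (fun _ _ _ => Iff.rfl),
    sub_congr (b := True) (a := a) (a' := a) hJ (fun _ _ _ => Iff.rfl)]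

theorem gch_congr {k : ℕ} {w : Str} {J J' : ℕ → Prop} (hJ : ∀ j < k, J j ↔ J' j) :
    gch k w J = gch k w J' := by
  classical
  unfold gch
  simp only [has_congr hJ]

theorem gch_cases (k : ℕ) (w : Str) (J : ℕ → Prop) :
    gch k w J = (false, false) ∨ gch k w J = (false, true) ∨ gch k w J = (true, true) := by
  unfold gch
  split_ifs <;> simp

theorem gch_spec {k : ℕ} {w : Str} (hw : Good k w) (J a : ℕ → Prop) :
    ¬ (tab k w (sub J False a) = (gch k w J).1 ∧ tab k w (sub J True a) = (gch k w J).2) := by
  intro h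
  have hh : Has k w J (gch k w J).1 (gch k w J).2 := ⟨a, h⟩
  have h3 := hw J
  revert hh
  unfold gch
  split_ifs with h1 h2
  · exact fun hh => h3 ⟨h2, h1, hh⟩
  · exact fun hh => h2 hh
  · exact fun hh => h1 hh

open Classical in
private theorem dig (k : ℕ) (a : ℕ → Prop) :
    (∑ j ∈ Finset.range k, if a j then 2 ^ j else 0) < 2 ^ k ∧
      ∀ j < k, ((∑ j ∈ Finset.range k, if a j then 2 ^ j else 0).testBit j = true ↔ a j) := by
  induction k with
  | zero => exact ⟨by simp, fun j hj => absurd hj (Nat.not_lt_zero _)⟩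
  | succ k ih =>
    obtain ⟨h1, h2⟩ := ih
    rw [Finset.sum_range_succ]
    by_cases ha : a k
    · rw [if_pos ha]
      refine ⟨by rw [pow_succ]; omega, fun j hj => ?_⟩
      rw [add_comm]
      rcases Nat.lt_succ_iff_lt_or_eq.1 hj with hj | rfl
      · rw [Nat.testBit_two_pow_add_gt hj]
        exact h2 j hj
      · rw [Nat.testBit_two_pow_add_eq, Nat.testBit_lt_two_pow h1]
        simpa using ha
    · rw [if_neg ha, add_zero]
      refine ⟨h1.trans (Nat.pow_lt_pow_right (by norm_num) (Nat.lt_succ_self k)), fun j hj => ?_⟩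
      rcases Nat.lt_succ_iff_lt_or_eq.1 hj with hj | rfl
      · exact h2 j hj
      · rw [Nat.testBit_lt_two_pow h1]
        simpa using ha

/-- The number with the binary digits `a`. -/
theorem newtab_spec (k : ℕ) (w : Str) (J a : ℕ → Prop) :
    tab k (newtab k w J) a = (tab k w (sub J True a) == (gch k w J).2) := by
  classical
  obtain ⟨h1, h2⟩ := dig k a
  have h3 : tab k (newtab k w J) a =
      (tab k w (sub J True (fun j => (∑ j ∈ Finset.range k, if a j then 2 ^ j else 0).testBit j = true)) ==
        (gch k w J).2) := by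
    conv_lhs => unfold tab newtab
    rw [List.getD_eq_getElem?_getD, List.getElem?_map, List.getElem?_range h1]
    rfl
  rw [h3, sub_congr (b := True) (J := J) (J' := J) (fun _ _ => Iff.rfl) (fun j hj _ => h2 j hj)]

private theorem padw_getD (n : ℕ) (w : Str) (i : ℕ) (hi : i < n) :
    (padw n w).getD i false = w.getD i false := by
  induction n generalizing w i with
  | zero => exact absurd hi (Nat.not_lt_zero _)
  | succ n ih =>
    cases i with
    | zero => cases w <;> rfl
    | succ i =>
      have h1 := ih w.tail i (Nat.lt_of_succ_lt_succ hi)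
      cases w with
      | nil =>
        rw [List.tail_nil] at h1
        simpa [padw] using h1
      | cons b w =>
        simpa [padw] using h1

theorem tab_padw (k : ℕ) (w : Str) (a : ℕ → Prop) : tab k (padw (2 ^ k) w) a = tab k w a := by
  classical
  unfold tab
  exact padw_getD _ _ _ (dig k a).1

theorem gch_padw (k : ℕ) (w : Str) (J : ℕ → Prop) : gch k (padw (2 ^ k) w) J = gch k w J := by
  classical
  unfold gch Has
  simp only [tab_padw]

theorem newtab_padw (k : ℕ) (w : Str) (J J' : ℕ → Prop) (hJ : ∀ j < k, J j ↔ J' j) :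
    newtab k (padw (2 ^ k) w) J = newtab k w J' := by
  unfold newtab
  rw [gch_padw, gch_congr hJ]
  refine List.map_congr_left fun i _ => ?_
  rw [tab_padw, sub_congr (b := True) hJ (fun _ _ _ => Iff.rfl)]

/-- The last step. -/
theorem last_step {k : ℕ} {w : Str} (hw : Good k w) {φ : Prop} {J a a' : ℕ → Prop}
    (hJ : ∀ j < k, J j → (a j ↔ φ)) (ha : ∀ j < k, ¬ J j → (a j ↔ a' j))
    (h : Dc (gch k w J) φ ↔ tab k w a = true) :
    φ ↔ tab k (newtab k w J) a' = true := by
  have hs := gch_spec hw J a'
  rw [newtab_spec]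
  by_cases hφ : φ
  · have h1 : tab k w a = tab k w (sub J True a') := by
      refine tab_congr fun j hj => ?_
      have h2 := hJ j hj
      have h3 := ha j hj
      unfold sub
      tauto
    rw [h1] at h
    rcases gch_cases k w J with hg | hg | hg <;> rw [hg] at h ⊢ <;> simpa [Dc, hφ] using h
  · have h1 : tab k w a = tab k w (sub J False a') := by
      refine tab_congr fun j hj => ?_
      have h2 := hJ j hj
      have h3 := ha j hj
      unfold sub
      tauto
    rw [h1] at h
    rcases gch_cases k w J with hg | hg | hg <;> rw [hg] at h hs ⊢ <;> simp [Dc, hφ] at h hs ⊢ <;>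
      simp_all

theorem padw_length (n : ℕ) (w : Str) : (padw n w).length = n := by
  induction n generalizing w with
  | zero => rfl
  | succ n ih => simp [padw, ih]

/-- The places given by the results of the comparisons. -/
theorem plc_spec (f : ℕ → Bool) (k : ℕ) (j : ℕ) (hj : j < k) :
    plc ((List.range k).map f).reverse j ↔ f j = true := by
  unfold plc
  rw [List.reverse_reverse, List.getD_eq_getElem?_getD, List.getElem?_map,
    List.getElem?_range hj]
  rfl

theorem padw_self (w : Str) : padw w.length w = w := by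
  induction w with
  | nil => rfl
  | cons b w ih => simp [padw, ih]

end Pool.Agent.Helper5.AP
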