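import Pool.Agent.Helper5.AP.Mv
import Pool.Agent.Helper5.AP.Eqf
import Pool.Agent.Helper5.AP.Tab

/-!
# The program of the autoreduction
-/

namespace Pool.Agent.Helper5.AP

open Pool.Agent.Helper5.SX Function

variable {O : Set Str}

private theorem ar_det_cpg (g : Bool → Bool) (r u : ℕ) : (cpg g r u).Det :=
  ⟨⟨trivial, trivial, trivial⟩, trivial, ⟨trivial, trivial⟩, trivial, trivial⟩

private theorem ar_det_clr (r : ℕ) : (clr r).Det := ⟨trivial, trivial, trivial⟩

private theorem ar_det_mv (r u : ℕ) : (mv r u).Det := ⟨trivial, trivial, trivial⟩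

private theorem ar_det_pushs (w : Str) (u : ℕ) : (pushs w u).Det := by
  induction w with
  | nil => trivial
  | cons b w ih => exact ⟨ih, trivial⟩

private theorem ar_det_ren {c : Cmd} (hc : c.Det) : (ren c).Det := by
  induction c with
  | skip => trivial
  | push r b => trivial
  | seq c d ihc ihd => exact ⟨ihc hc.1, ihd hc.2⟩
  | pop r c₀ c₁ c₂ ih₀ ih₁ ih₂ => exact ⟨ih₀ hc.1, ih₁ hc.2.1, ih₂ hc.2.2⟩
  | loop r c ih => exact ih hc
  | query r c d ihc ihd => exact ⟨ihc hc.1, ihd hc.2⟩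
  | choose c d _ _ => exact hc.elim

private theorem ar_det_eqf (r u f : ℕ) : (eqf r u f).Det := by
  simp [eqf, Cmd.Det, ar_det_cpg, ar_det_clr]

private theorem ar_det_arqs (n : ℕ) : (arqs n).Det := by
  induction n with
  | zero => trivial
  | succ n ih =>
    exact ⟨ih, ar_det_eqf _ _ _, trivial, ⟨trivial, ar_det_mv _ _, ar_det_mv _ _⟩,
      trivial, ar_det_cpg _ _ _, trivial⟩

private theorem ar_det_dt (r n : ℕ) (F : Str → Cmd) (hF : ∀ w, (F w).Det) :
    (dt r n F).Det := by
  induction n generalizing F with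
  | zero => exact hF []
  | succ n ih => exact ⟨ih _ fun w => hF _, ih _ fun w => hF _, ih _ fun w => hF _⟩

private theorem ar_det_outp (X n : ℕ) : (outp X n).Det := by
  induction n with
  | zero => trivial
  | succ n ih => exact ⟨ih, ar_det_clr _, ar_det_mv _ _, ar_det_mv _ _⟩

theorem ar_det (k m : ℕ) {c : Cmd} (hc : c.Det) : (ar k m c).Det :=
  ⟨ar_det_cpg _ _ _, ar_det_pushs _ _, ar_det_ren hc, ar_det_arqs k,
    ar_det_dt _ _ _ fun _ => ar_det_dt _ _ _ fun _ => ar_det_pushs _ _, ar_det_outp _ _⟩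

/-- `eqf_does`, then the two cases. -/
theorem arq_does (j : ℕ) (s : Store) (h27 : s 27 = []) (h28 : s 28 = []) (h29 : s 29 = [])
    (h31 : s 31 = []) (ho : s (2 * j + 36) = []) : ∃ s₁ : Store,
    Does O (arq j) s s₁ True (200 * ((s (2 * j + 35)).length + (s 0).length + 1)) ∧
      s₁ 6 = decide (s (2 * j + 35) = s 0) :: s 6 ∧
      s₁ (2 * j + 36) = (if s (2 * j + 35) = s 0 then false :: s 0 else s (2 * j + 35)) ∧
      ∀ q, q ≠ 6 → q ≠ 2 * j + 35 → q ≠ 2 * j + 36 → s₁ q = s q := by
  obtain ⟨p, hp⟩ : ∃ p, p = 2 * j + 35 := ⟨_, rfl⟩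
  obtain ⟨u, hu⟩ : ∃ u, u = 2 * j + 36 := ⟨_, rfl⟩
  unfold arq
  rw [← hu] at ho
  rw [← hp, ← hu]
  have d0 := eqf_does (O := O) (s := s) (r := p) (u := 0) (f := 6) h27 h28 h29 h31 (by omega)
    (by omega) (by omega) (by omega) (by omega) (by omega) (by omega) (by omega) (by omega)
    (by omega) (by omega) (by omega)
  by_cases he : s p = s 0
  · rw [decide_eq_true he] at d0 ⊢
    rw [if_pos he]
    have d1 := does_push (O := O) (s := s) 6 true
    have d2 := cpg_does (O := O) (s := update s 6 (true :: s 6)) id (r := 0) (u := u)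
      (by rw [update_of_ne (by omega)]; exact h31) (by omega) (by omega) (by omega)
    rw [update_of_ne (show (0 : ℕ) ≠ 6 by omega), update_of_ne (show u ≠ 6 by omega), ho,
      List.map_id, List.append_nil] at d2
    have d3 := does_push (O := O) (s := update (update s 6 (true :: s 6)) u (s 0)) u false
    rw [update_self, update_idem] at d3
    have d4 := Does.seq d1 (fun _ => Does.seq d2 (fun _ => d3))
    have d5 : Does O (Cmd.pop 6 Cmd.skip
        (Cmd.seq (Cmd.push 6 false) (Cmd.seq (mv p 31) (mv 31 u)))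
        (Cmd.seq (Cmd.push 6 true) (Cmd.seq (cpg id 0 u) (Cmd.push u false))))
        (update s 6 (true :: s 6)) (update (update s 6 (true :: s 6)) u (false :: s 0)) True
        (1 + (8 * (s 0).length + 2 + 1) + 1) := by
      refine Spec.pop_true (w := s 6) (update_self ..) ?_
      rw [update_idem, update_eq_self]
      exact Does.congr d4 (fun _ => rfl) (by simp)
    refine ⟨_, (Does.congr (Does.seq d0 (fun _ => d5)) (fun _ => rfl) (by simp)).mono (by omega),
      ?_, update_self .., fun q h1 h2 h3 => ?_⟩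
    · rw [update_of_ne (by omega), update_self]
    · rw [update_of_ne h3, update_of_ne h1]
  · rw [decide_eq_false he] at d0 ⊢
    rw [if_neg he]
    have d1 := does_push (O := O) (s := s) 6 false
    have d2 := mv_does (O := O) (s := update s 6 (false :: s 6)) (r := p) (u := 31) (by omega)
    rw [update_of_ne (show p ≠ 6 by omega), update_of_ne (show (31 : ℕ) ≠ 6 by omega), h31,
      List.append_nil] at d2
    have d3 := mv_does (O := O) (s := update (update (update s 6 (false :: s 6)) p []) 31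
      (s p).reverse) (r := 31) (u := u) (by omega)
    rw [update_self, update_idem, List.reverse_reverse, update_of_ne (show u ≠ 31 by omega),
      update_of_ne (show u ≠ p by omega), update_of_ne (show u ≠ 6 by omega), ho,
      List.append_nil, List.length_reverse] at d3
    have d4 := Does.seq d1 (fun _ => Does.seq d2 (fun _ => d3))
    have d5 : Does O (Cmd.pop 6 Cmd.skip
        (Cmd.seq (Cmd.push 6 false) (Cmd.seq (mv p 31) (mv 31 u)))
        (Cmd.seq (Cmd.push 6 true) (Cmd.seq (cpg id 0 u) (Cmd.push u false))))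
        (update s 6 (false :: s 6))
        (update (update (update (update s 6 (false :: s 6)) p []) 31 []) u (s p)) True
        (1 + (3 * (s p).length + 1 + (3 * (s p).length + 1)) + 1) := by
      refine Spec.pop_false (w := s 6) (update_self ..) ?_
      rw [update_idem, update_eq_self]
      exact Does.congr d4 (fun _ => rfl) (by simp)
    refine ⟨_, (Does.congr (Does.seq d0 (fun _ => d5)) (fun _ => rfl) (by simp)).mono (by omega),
      ?_, update_self .., fun q h1 h2 h3 => ?_⟩
    · rw [update_of_ne (by omega), update_of_ne (by omega), update_of_ne (by omega), update_self]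
    · rw [update_of_ne h3]
      by_cases h4 : q = 31
      · rw [h4, update_self, h31]
      · rw [update_of_ne h4, update_of_ne h2, update_of_ne h1]

/-- Induction on `n`. -/
theorem arqs_does (n : ℕ) (s : Store) (L : ℕ) (hL : ∀ r, (s r).length ≤ L) (h6 : s 6 = [])
    (h27 : s 27 = []) (h28 : s 28 = []) (h29 : s 29 = [])
    (h31 : s 31 = []) (ho : ∀ j, s (2 * j + 36) = []) : ∃ s₁ : Store,
    Does O (arqs n) s s₁ True (n * (400 * (L + 1)) + 1) ∧
      s₁ 6 = ((List.range n).map (fun j => decide (s (2 * j + 35) = s 0))).reverse ∧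
      (∀ j < n, s₁ (2 * j + 36) =
        (if s (2 * j + 35) = s 0 then false :: s 0 else s (2 * j + 35))) ∧
      (∀ j, n ≤ j → s₁ (2 * j + 36) = []) ∧
      ∀ q, q ≠ 6 → (∀ j < n, q ≠ 2 * j + 35 ∧ q ≠ 2 * j + 36) → s₁ q = s q := by
  induction n with
  | zero =>
    exact ⟨s, does_skip.mono (by omega), by rw [h6]; rfl, fun j hj => absurd hj (Nat.not_lt_zero _),
      fun j _ => ho j, fun q _ _ => rfl⟩
  | succ n ih =>
    obtain ⟨s₁, d1, a6, ao, ae, aq⟩ := ih
    have b0 : s₁ 0 = s 0 := aq 0 (by omega) fun j _ => by omega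
    have b35 : s₁ (2 * n + 35) = s (2 * n + 35) := aq _ (by omega) fun j hj => by omega
    obtain ⟨s₂, d2, c6, co, cq⟩ := arq_does (O := O) n s₁
      (by rw [aq 27 (by omega) fun j _ => by omega, h27])
      (by rw [aq 28 (by omega) fun j _ => by omega, h28])
      (by rw [aq 29 (by omega) fun j _ => by omega, h29])
      (by rw [aq 31 (by omega) fun j _ => by omega, h31]) (ae n le_rfl)
    rw [b0, b35] at d2 c6 co
    refine ⟨s₂, (Does.congr (Does.seq d1 (fun _ => d2)) (fun _ => rfl) (by simp)).mono ?_,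
      ?_, ?_, ?_, ?_⟩
    · have e1 := hL (2 * n + 35)
      have e2 := hL 0
      have e3 : (n + 1) * (400 * (L + 1)) = n * (400 * (L + 1)) + 400 * (L + 1) := by ring
      rw [e3]
      omega
    · rw [c6, a6, List.range_succ, List.map_append, List.reverse_append]
      rfl
    · intro j hj
      rcases Nat.lt_succ_iff_lt_or_eq.1 hj with h | h
      · rw [cq _ (by omega) (by omega) (by omega)]
        exact ao j h
      · subst h
        exact co
    · intro j hj
      rw [cq _ (by omega) (by omega) (by omega)]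
      exact ae j (by omega)
    · intro q hq hq'
      have e1 := hq' n (by omega)
      rw [cq q hq e1.1 e1.2]
      exact aq q hq fun j hj => hq' j (by omega)

/-- Induction on `n`. -/
theorem outp_does (n X : ℕ) (s : Store) (L : ℕ) (hL : ∀ r, (s r).length ≤ L) (hX : 2 * n + 34 ≤ X)
    (hXs : s X = []) : ∃ s₁ : Store,
    Does O (outp X n) s s₁ True (n * (20 * (L + 1)) + 1) ∧
      (∀ j < n, s₁ j = s (2 * j + 34)) ∧
      (∀ j, n ≤ j → j < X → (∀ i < n, j ≠ 2 * i + 34) → s₁ j = s j) ∧ s₁ X = [] ∧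
      ∀ r, (s₁ r).length ≤ L := by
  induction n with
  | zero =>
    exact ⟨s, does_skip.mono (by omega), fun j hj => absurd hj (Nat.not_lt_zero _),
      fun j _ _ _ => rfl, hXs, hL⟩
  | succ n ih =>
    obtain ⟨s₁, d1, a1, a2, aX, aL⟩ := ih (by omega)
    obtain ⟨p, hp⟩ : ∃ p, p = 2 * n + 34 := ⟨_, rfl⟩
    have hpX : p ≠ X := by omega
    have hpn : p ≠ n := by omega
    have hnX : n ≠ X := by omega
    have hps : s₁ p = s p := a2 p (by omega) (by omega) fun i hi => by omega
    have d2 := clr_does (O := O) (s := s₁) n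
    have d3 := mv_does (O := O) (s := update s₁ n []) (r := p) (u := X) hpX
    rw [update_of_ne hpn, update_of_ne hnX.symm, aX, List.append_nil, hps] at d3
    have d4 := mv_does (O := O) (s := update (update (update s₁ n []) p []) X (s p).reverse)
      (r := X) (u := n) hnX.symm
    rw [update_self, List.reverse_reverse, List.length_reverse, update_of_ne hnX,
      update_of_ne hpn.symm, update_self, List.append_nil, update_idem] at d4
    unfold outp
    rw [← hp]
    have dd := Does.seq d1 (fun _ => Does.seq d2 (fun _ => Does.seq d3 (fun _ => d4)))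
    have g : ∀ q, q ≠ n → q ≠ X → q ≠ p →
        update (update (update (update s₁ n []) p []) X []) n (s p) q = s₁ q := by
      intro q h1 h2 h3
      rw [update_of_ne h1, update_of_ne h2, update_of_ne h3, update_of_ne h1]
    refine ⟨_, (Does.congr dd (fun _ => rfl) (by simp)).mono ?_, ?_, ?_, ?_, ?_⟩
    · have e1 := hL p
      have e2 := aL n
      have e3 : (n + 1) * (20 * (L + 1)) = n * (20 * (L + 1)) + 20 * (L + 1) := by ring
      rw [e3]
      omega
    · intro j hj
      rcases Nat.lt_succ_iff_lt_or_eq.1 hj with h | h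
      · rw [g j (by omega) (by omega) (by omega)]
        exact a1 j h
      · subst h
        rw [update_self, hp]
    · intro j h1 h2 h3
      rw [g j (by omega) (by omega) (by rw [hp]; exact h3 n (by omega))]
      exact a2 j (by omega) h2 fun i hi => h3 i (by omega)
    · rw [update_of_ne hnX.symm, update_self]
    · intro r
      by_cases h1 : r = n
      · rw [h1, update_self]
        exact hL p
      · by_cases h2 : r = X
        · rw [h2, update_of_ne hnX.symm, update_self]
          exact Nat.zero_le _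
        · by_cases h3 : r = p
          · rw [update_of_ne h1, update_of_ne h2, h3, update_self]
            exact Nat.zero_le _
          · rw [g r h1 h2 h3]
            exact aL r

theorem poly_num (C a b : ℕ) : ∃ K : ℕ, ∀ n : ℕ, C * (n + a) ^ b ≤ n ^ K + K := by
  refine ⟨(C + (a + 1) * b) + C * (a + 1) ^ b, fun n => ?_⟩
  rcases Nat.lt_or_ge n 2 with hn | hn
  · have h1 : C * (n + a) ^ b ≤ C * (a + 1) ^ b :=
      Nat.mul_le_mul_left _ (Nat.pow_le_pow_left (by omega) _)
    omega
  · have h0 : a + 1 ≤ 2 ^ a := Nat.lt_two_pow_self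
    have h1 : n + a ≤ n ^ (a + 1) := by
      have h2 : n * 2 ^ a ≤ n ^ (a + 1) := by
        rw [pow_succ, mul_comm]
        exact Nat.mul_le_mul_right _ (Nat.pow_le_pow_left hn _)
      have h3 : n * (a + 1) ≤ n * 2 ^ a := Nat.mul_le_mul_left _ h0
      have h4 : n + a ≤ n * (a + 1) := by nlinarith
      omega
    have h2 : (n + a) ^ b ≤ n ^ ((a + 1) * b) := by
      rw [pow_mul]
      exact Nat.pow_le_pow_left h1 _
    have h3 : C ≤ n ^ C :=
      (Nat.lt_two_pow_self).le.trans (Nat.pow_le_pow_left hn _)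
    have h4 : C * (n + a) ^ b ≤ n ^ (C + (a + 1) * b) := by
      rw [pow_add]
      exact Nat.mul_le_mul h3 h2
    have h5 : n ^ (C + (a + 1) * b) ≤ n ^ ((C + (a + 1) * b) + C * (a + 1) ^ b) :=
      Nat.pow_le_pow_right (by omega) (by omega)
    omega

theorem ar_time (k r C₀ : ℕ) : ∃ K : ℕ, ∀ n t : ℕ, t ≤ (n + C₀) ^ r + r →
    (8 * n + 2 + (C₀ + 1 + (t + (k * (400 * (n + C₀ + t + 1)) + 1 + (2 ^ k + 1 + k + 2 ^ k))))) +
      ((k + 1) * (20 * (n + (8 * n + 2 + (C₀ + 1 + (t + (k * (400 * (n + C₀ + t + 1)) + 1 +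
        (2 ^ k + 1 + k + 2 ^ k))))) + 1)) + 1) ≤ n ^ K + K := by
  obtain ⟨K, hK⟩ := poly_num ((12 + 1600 * k + 2 * 2 ^ k + k) +
    20 * (k + 1) * ((12 + 1600 * k + 2 * 2 ^ k + k) + 2) + 1) (C₀ + r + 2) (r + 1)
  refine ⟨K, fun n t ht => le_trans ?_ (hK n)⟩
  have hQ1 : n + C₀ + r + 2 ≤ (n + (C₀ + r + 2)) ^ (r + 1) := by
    have := Nat.le_self_pow (show r + 1 ≠ 0 by omega) (n + (C₀ + r + 2))
    omega
  have hQ2 : (n + C₀) ^ r ≤ (n + (C₀ + r + 2)) ^ (r + 1) :=
    (Nat.pow_le_pow_left (by omega) r).trans (Nat.pow_le_pow_right (by omega) (by omega))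
  generalize (n + (C₀ + r + 2)) ^ (r + 1) = Q at *
  have ht' : t ≤ 2 * Q := by omega
  generalize 2 ^ k = E at *
  have h1 : k * (400 * (n + C₀ + t + 1)) ≤ k * (400 * (4 * Q)) :=
    Nat.mul_le_mul_left _ (by omega)
  have h2 : 8 * n + 2 + (C₀ + 1 + (t + (k * (400 * (n + C₀ + t + 1)) + 1 + (E + 1 + k + E)))) ≤
      (12 + 1600 * k + 2 * E + k) * Q := by
    have e1 : k * (400 * (4 * Q)) = 1600 * k * Q := by ring
    have e2 : (12 + 1600 * k + 2 * E + k) * Q = 12 * Q + 1600 * k * Q + 2 * E * Q + k * Q := by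
      ring
    have e3 : 2 * E ≤ 2 * E * Q := Nat.le_mul_of_pos_right _ (by omega)
    have e4 : k ≤ k * Q := Nat.le_mul_of_pos_right _ (by omega)
    omega
  generalize 8 * n + 2 + (C₀ + 1 + (t + (k * (400 * (n + C₀ + t + 1)) + 1 + (E + 1 + k + E)))) =
    T at *
  generalize 12 + 1600 * k + 2 * E + k = A at *
  have h3 : (k + 1) * (20 * (n + T + 1)) ≤ (k + 1) * (20 * ((A + 2) * Q)) := by
    refine Nat.mul_le_mul_left _ (Nat.mul_le_mul_left _ ?_)
    have : (A + 2) * Q = A * Q + 2 * Q := by ring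
    omega
  have h4 : (A + 20 * (k + 1) * (A + 2) + 1) * Q =
      A * Q + (k + 1) * (20 * ((A + 2) * Q)) + Q := by ring
  rw [h4]
  omega

/-- The program of the autoreduction. -/
theorem ar_spec (k m : ℕ) (c : Cmd) (r : ℕ)
    (hc : ∀ x : Str, ∃ t ≤ x.length ^ r + r, ∃ s' : Store, Run O c (start x []) t s') :
    ∃ r' : ℕ, ∀ (x : Str), ∃ t ≤ x.length ^ r' + r', ∃ s'' : Store,
      Run O (ar k m c) (start x []) t s'' ∧
      ∀ t' s', Run O c (start (Y m c x) []) t' s' → c.Det →
        s'' 0 = newtab k (s' 0) (fun j => s' (j + 1) = x) ∧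
        ∀ j < k, s'' (j + 1) = if s' (j + 1) = x then false :: x else s' (j + 1) := by
  obtain ⟨pre, hpre⟩ : ∃ pre, pre = List.replicate m true ++ false :: item (enc c) := ⟨_, rfl⟩
  obtain ⟨K, hK⟩ := ar_time k r pre.length
  refine ⟨K, fun x => ?_⟩
  have hY : Y m c x = pre ++ x := by
    rw [hpre]
    unfold Y
    rw [List.append_assoc, List.cons_append]
  obtain ⟨t, ht, s', hr⟩ := hc (Y m c x)
  have hyl : (Y m c x).length = x.length + pre.length := by
    rw [hY, List.length_append, add_comm]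
  rw [hyl] at ht
  have h0 : ∀ q, q ≠ 0 → start x [] q = [] := by
    intro q hq
    unfold start
    rw [if_neg hq]
    split_ifs <;> rfl
  have h00 : start x [] 0 = x := rfl
  have e1 : ∀ w : Str, List.map (id : Bool → Bool) w = w := fun w => List.map_id w
  -- the input of the reduction
  have d1 := fwd_of_does (cpg_does (O := O) (s := start x []) id (h0 31 (by omega))
    (show 0 ≠ 33 by omega) (show 0 ≠ 31 by omega) (show 33 ≠ 31 by omega))
  rw [e1, h00, h0 33 (by omega), List.append_nil] at d1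
  have d2 := fwd_of_does (pushs_does (O := O) (s := update (start x []) 33 x) pre 33)
  rw [update_self, update_idem, ← hY] at d2
  -- the reduction
  obtain ⟨S₂, hS₂⟩ : ∃ S₂, S₂ = update (start x []) 33 (Y m c x) := ⟨_, rfl⟩
  rw [← hS₂] at d2
  obtain ⟨S₃, hS₃⟩ : ∃ S₃ : Store, S₃ = fun q => if 33 ≤ q ∧ q % 2 = 1 then s' ((q - 33) / 2)
    else S₂ q := ⟨_, rfl⟩
  have hfr : ∀ q, S₃ (fr q) = s' q := by
    intro q
    rw [hS₃]
    have a1 : 33 ≤ fr q ∧ fr q % 2 = 1 := by unfold fr; omega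
    have a2 : (fr q - 33) / 2 = q := by unfold fr; omega
    simp only [if_pos a1, a2]
  have hoff : ∀ q, (∀ r, q ≠ fr r) → S₃ q = S₂ q := by
    intro q hq
    rw [hS₃]
    simp only
    rw [if_neg]
    rintro ⟨a1, a2⟩
    exact hq ((q - 33) / 2) (by unfold fr; omega)
  have hst : (fun q => S₂ (fr q)) = start (Y m c x) [] := by
    funext q
    rw [hS₂]
    by_cases hq : q = 0
    · subst hq
      change update (start x []) 33 (Y m c x) 33 = Y m c x
      rw [update_self]
    · have a1 : fr q ≠ 33 := by unfold fr; omega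
      have a2 : fr q ≠ 0 := by unfold fr; omega
      rw [update_of_ne a1, h0 _ a2]
      unfold start
      rw [if_neg hq]
      split_ifs <;> rfl
  have d3 : Fwd O (ren c) S₂ S₃ t := by
    refine ⟨t, le_rfl, ren_run.2 ⟨?_, hoff⟩⟩
    rw [hst]
    have : (fun q => S₃ (fr q)) = s' := funext hfr
    rw [this]
    exact hr
  have hoff' : ∀ q, q ≠ 0 → (q < 33 ∨ q % 2 = 0) → S₃ q = [] := by
    intro q hq hq'
    rw [hoff q (fun r h => by unfold fr at h; omega), hS₂, update_of_ne (by omega), h0 q hq]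
  have h30 : S₃ 0 = x := by
    rw [hoff 0 (fun r h => by unfold fr at h; omega), hS₂, update_of_ne (by omega), h00]
  have hL₂ : ∀ q, (S₂ q).length ≤ x.length + pre.length := by
    intro q
    rw [hS₂]
    by_cases hq : q = 33
    · subst hq
      rw [update_self, hyl]
    · rw [update_of_ne hq]
      by_cases hq' : q = 0
      · subst hq'
        rw [h00]
        omega
      · rw [h0 q hq']
        simp
  obtain ⟨t3, ht3, hr3⟩ := d3
  have hL₃ : ∀ q, (S₃ q).length ≤ x.length + pre.length + t := by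
    intro q
    have := run_len hr3 hL₂ q
    omega
  -- the queries
  obtain ⟨S₄, d4, h46, h4o, h4e, h4⟩ := arqs_does (O := O) k S₃ _ hL₃ (hoff' 6 (by omega)
    (by omega)) (hoff' 27 (by omega) (by omega)) (hoff' 28 (by omega) (by omega))
    (hoff' 29 (by omega) (by omega)) (hoff' 31 (by omega) (by omega))
    (fun j => hoff' _ (by omega) (by omega))
  have h33 : S₄ 33 = s' 0 := by
    rw [h4 33 (by omega) (fun j _ => by omega)]
    exact hfr 0
  have h34 : S₄ 34 = [] := by
    rw [h4 34 (by omega) (fun j _ => by omega)]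
    exact hoff' 34 (by omega) (by omega)
  have hq : ∀ j, S₃ (2 * j + 35) = s' (j + 1) := by
    intro j
    have : 2 * j + 35 = fr (j + 1) := by unfold fr; ring
    rw [this, hfr]
  obtain ⟨Jr, hJr⟩ : ∃ Jr, Jr = ((List.range k).map
    (fun j => decide (s' (j + 1) = x))).reverse := ⟨_, rfl⟩
  have h46' : S₄ 6 = Jr := by
    rw [h46, hJr]
    simp only [hq, h30]
  have hJl : Jr.length = k := by rw [hJr]; simp
  -- the table
  obtain ⟨S₅, hS₅⟩ : ∃ S₅, S₅ = update S₄ 33 ((s' 0).drop (2 ^ k)) := ⟨_, rfl⟩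
  obtain ⟨S₆, hS₆⟩ : ∃ S₆, S₆ = update S₅ 6 (Jr.drop k) := ⟨_, rfl⟩
  obtain ⟨w, hw⟩ : ∃ w, w = padw (2 ^ k) (s' 0) := ⟨_, rfl⟩
  obtain ⟨nt, hnt⟩ : ∃ nt, nt = newtab k w (plc (padw k Jr)) := ⟨_, rfl⟩
  have d5 := pushs_does (O := O) (s := S₆) nt 34
  have hS634 : S₆ 34 = [] := by
    rw [hS₆, update_of_ne (by omega), hS₅, update_of_ne (by omega), h34]
  rw [hS634, List.append_nil] at d5
  have hntl : nt.length = 2 ^ k := by
    rw [hnt]
    simp [newtab]
  rw [hntl] at d5
  obtain ⟨S₇, hS₇⟩ : ∃ S₇, S₇ = update S₆ 34 nt := ⟨_, rfl⟩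
  rw [← hS₇] at d5
  have d6 : Does O (dt 6 k (fun Jr => pushs (newtab k w (plc Jr)) 34)) S₅ S₇ True
      (2 ^ k + 1 + k) := by
    refine dt_spec k (fun Jr => pushs (newtab k w (plc Jr)) 34) S₅ ?_
    have a1 : S₅ 6 = Jr := by rw [hS₅, update_of_ne (by omega), h46']
    rw [a1, ← hS₆, ← hnt]
    exact d5
  have d7 : Does O (dt 33 (2 ^ k) (fun w => dt 6 k (fun Jr => pushs (newtab k w (plc Jr)) 34)))
      S₄ S₇ True (2 ^ k + 1 + k + 2 ^ k) := by
    refine dt_spec (2 ^ k) (fun w => dt 6 k (fun Jr => pushs (newtab k w (plc Jr)) 34)) S₄ ?_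
    rw [h33, ← hS₅, ← hw]
    exact d6
  -- the times so far
  obtain ⟨T₁, hT₁, hr₁⟩ := d1
  obtain ⟨T₂, hT₂, hr₂⟩ := d2
  obtain ⟨T₄, hT₄, hr₄⟩ := fwd_of_does d4
  obtain ⟨T₇, hT₇, hr₇⟩ := fwd_of_does d7
  have hstart : ∀ q, (start x [] q).length ≤ x.length := by
    intro q
    by_cases hq' : q = 0
    · subst hq'
      rw [h00]
    · rw [h0 q hq']
      simp
  have hL₇ : ∀ q, (S₇ q).length ≤ x.length + (T₁ + (T₂ + (t3 + (T₄ + T₇)))) := by
    intro q
    have a1 := run_len (Run.seq hr₁ (Run.seq hr₂ (Run.seq hr3 (Run.seq hr₄ hr₇)))) hstart q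
    exact a1
  have h7e : ∀ q, q ≠ 34 → q ≠ 6 → q ≠ 33 → S₇ q = S₄ q := by
    intro q a1 a2 a3
    rw [hS₇, update_of_ne a1, hS₆, update_of_ne a2, hS₅, update_of_ne a3]
  obtain ⟨S₈, d8, h8, -, -, -⟩ := outp_does (O := O) (k + 1) (2 * k + 36) S₇ _ hL₇ (by omega)
    (by rw [h7e _ (by omega) (by omega) (by omega), show 2 * k + 36 = 2 * k + 36 from rfl]
        exact h4e k le_rfl)
  obtain ⟨T₈, hT₈, hr₈⟩ := fwd_of_does d8
  refine ⟨T₁ + (T₂ + (t3 + (T₄ + (T₇ + T₈)))), ?_, S₈,
    Run.seq hr₁ (by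
      rw [← hpre]
      exact Run.seq hr₂ (Run.seq hr3 (Run.seq hr₄ (Run.seq hr₇ hr₈)))), ?_⟩
  · refine le_trans ?_ (hK x.length t ht)
    have b1 : T₁ + (T₂ + (t3 + (T₄ + T₇))) ≤ 8 * x.length + 2 + (pre.length + 1 +
        (t + (k * (400 * (x.length + pre.length + t + 1)) + 1 + (2 ^ k + 1 + k + 2 ^ k)))) := by
      omega
    have b2 : (k + 1) * (20 * (x.length + (T₁ + (T₂ + (t3 + (T₄ + T₇)))) + 1)) ≤
        (k + 1) * (20 * (x.length + (8 * x.length + 2 + (pre.length + 1 +
        (t + (k * (400 * (x.length + pre.length + t + 1)) + 1 + (2 ^ k + 1 + k + 2 ^ k))))) +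
          1)) :=
      Nat.mul_le_mul_left _ (Nat.mul_le_mul_left _ (by omega))
    omega
  · intro t' s₀ hr' hdet
    obtain ⟨rfl, -⟩ := AN.run_det hdet hr hr'
    constructor
    · rw [h8 0 (by omega)]
      have a1 : S₇ (2 * 0 + 34) = nt := by
        rw [hS₇]
        exact update_self _ _ _
      rw [a1, hnt, hw]
      refine newtab_padw k _ _ _ fun j hj => ?_
      have a2 : padw k Jr = Jr := by
        conv_lhs => rw [← hJl]
        exact padw_self Jr
      rw [a2, hJr, plc_spec (fun j => decide (s' (j + 1) = x)) k j hj]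
      simp
    · intro j hj
      rw [h8 (j + 1) (by omega)]
      have a1 : S₇ (2 * (j + 1) + 34) = S₄ (2 * j + 36) :=
        h7e _ (by omega) (by omega) (by omega)
      rw [a1, h4o j hj, hq, h30]

end Pool.Agent.Helper5.AP
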