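import Pool.Agent.Helper5.AP.Seek

/-!
# One step of the interpreter
-/

namespace Pool.Agent.Helper5.AP

open Pool.Agent.Helper5.SX Function

variable {O : Set Str} {σ : Store} {K μ w : Str} {l₁ l₂ : List Str} {N : ℕ}

/-- The stores inside a step: `W` on stack 22, `C` on stack 26. -/
def Sx (σ : Store) (K μ W C : Str) : Store := update (update (St σ K μ) 22 W) 26 C

private theorem Body_upd22 (W W' C : Str) : update (Sx σ K μ W C) 22 W' = Sx σ K μ W' C := by
  unfold Sx
  rw [update_comm (by norm_num : (26 : ℕ) ≠ 22), update_idem]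

private theorem Body_at22 (W C : Str) : Sx σ K μ W C 22 = W := by
  simp [Sx]

private theorem Body_ext {s₁ s₂ : Store} (h20 : s₁ 20 = s₂ 20) (h21 : s₁ 21 = s₂ 21)
    (h22 : s₁ 22 = s₂ 22) (h23 : s₁ 23 = s₂ 23) (h24 : s₁ 24 = s₂ 24) (h26 : s₁ 26 = s₂ 26)
    (h : ∀ q, q ≠ 20 → q ≠ 21 → q ≠ 22 → q ≠ 23 → q ≠ 24 → q ≠ 26 → s₁ q = s₂ q) :
    s₁ = s₂ := by
  ext q : 1
  by_cases g20 : q = 20
  · rw [g20, h20]
  by_cases g21 : q = 21
  · rw [g21, h21]
  by_cases g22 : q = 22
  · rw [g22, h22]
  by_cases g23 : q = 23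
  · rw [g23, h23]
  by_cases g24 : q = 24
  · rw [g24, h24]
  by_cases g26 : q = 26
  · rw [g26, h26]
  exact h q g20 g21 g22 g23 g24 g26

/-- `rd_does` for stacks 20, 22, `cpg_does`, the hypothesis, `clr_does`. -/
theorem body_of_exec (hσ : Clean σ) {C K' μ' C' : Str} {T : ℕ}
    (h : Does O exec (Sx σ K μ C C) (Sx σ K' μ' [] C') True T) :
    Does O body (St σ (item C ++ K) μ) (St σ K' μ') True
      (T + 20 * (C.length + C'.length + 1)) := by
  have c22 := hσ 22 (by norm_num)
  have c26 := hσ 26 (by norm_num)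
  have c29 := hσ 29 (by norm_num)
  have c31 := hσ 31 (by norm_num)
  have h1 := rd_does (O := O) (s := St σ (item C ++ K) μ) (r := 20) (u := 22) (w := C) (v := K)
    (by simp [St, c29]) (by simp [St, c31]) (by norm_num) (by norm_num) (by norm_num)
    (by norm_num) (by norm_num) (by simp [St])
  set s1 : Store := update (update (St σ (item C ++ K) μ) 20 K) 22
    (C ++ St σ (item C ++ K) μ 22) with hs1
  have e22 : s1 22 = C := by simp [hs1, St, c22]
  have e26 : s1 26 = [] := by simp [hs1, St, c26]
  have e31 : s1 31 = [] := by simp [hs1, St, c31]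
  have h2 := cpg_does (O := O) (s := s1) id (r := 22) (u := 26) e31 (by norm_num) (by norm_num)
    (by norm_num)
  rw [e22, e26, List.map_id, List.append_nil] at h2
  have es : update s1 26 C = Sx σ K μ C C := by
    refine Body_ext ?_ ?_ ?_ ?_ ?_ ?_ ?_
    · simp [hs1, Sx, St]
    · simp [hs1, Sx, St]
    · simp [hs1, Sx, St, c22]
    · simp [hs1, Sx, St]
    · simp [hs1, Sx, St]
    · simp [hs1, Sx, St]
    · intro q g20 g21 g22 g23 g24 g26
      simp [hs1, Sx, St, g20, g21, g22, g26]
  rw [es] at h2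
  have h3 := clr_does (O := O) (s := Sx σ K' μ' [] C') 26
  have e4 : Sx σ K' μ' [] C' 26 = C' := by simp [Sx]
  rw [e4] at h3
  refine (Does.congr (Does.seq h1 fun _ => Does.seq h2 fun _ => Does.seq h fun _ => h3)
    (fun _ => ?_) (by simp)).mono (by omega)
  refine Body_ext ?_ ?_ ?_ ?_ ?_ ?_ ?_
  · simp [Sx, St]
  · simp [Sx, St]
  · simp [Sx, St, c22]
  · simp [Sx, St]
  · simp [Sx, St]
  · simp [Sx, St, c26]
  · intro q g20 g21 g22 g23 g24 g26
    simp [Sx, St, g20, g21, g22, g26]

theorem exec_skip (hσ : Clean σ) (C : Str) :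
    Does O exec (Sx σ K μ (enc Cmd.skip) C) (Sx σ K μ [] C) True 10 := by
  unfold exec
  refine Spec.mono (T := 4) ?_ (by norm_num)
  refine Spec.pop_false (w := [false, false]) (by rw [Body_at22]; rfl) ?_
  rw [Body_upd22]
  refine Spec.pop_false (w := [false]) (by rw [Body_at22]) ?_
  rw [Body_upd22]
  refine Spec.pop_false (w := []) (by rw [Body_at22]) ?_
  rw [Body_upd22]
  exact does_skip

private theorem Body_push_tail (hσ : Clean σ) (b : Bool) (C : Str) :
    Does O (Cmd.seq seek (Cmd.seq (Cmd.push 21 b) (Cmd.seq (Cmd.push 21 true) (mv 24 21))))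
      (Sx σ K (lenc (l₁ ++ w :: l₂)) (List.replicate l₁.length true ++ [false]) C)
      (Sx σ K (lenc (l₁ ++ (b :: w) :: l₂)) [] C) True
      (53 * ((lenc l₁).length + 1) + 3) := by
  have c22 := hσ 22 (by norm_num)
  have c24 := hσ 24 (by norm_num)
  have c28 := hσ 28 (by norm_num)
  have c29 := hσ 29 (by norm_num)
  have e21 : lenc (l₁ ++ w :: l₂) = lenc l₁ ++ (item w ++ lenc l₂) := by
    rw [lenc_append, lenc_cons]
  have h1 := seek_does (O := O)
    (s := Sx σ K (lenc (l₁ ++ w :: l₂)) (List.replicate l₁.length true ++ [false]) C) l₁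
    (v := []) (μ := item w ++ lenc l₂) (by simp [Sx, St, c28]) (by simp [Sx, St, c29])
    (by simp [Sx]) (by simp [Sx, St, e21])
  set s1 : Store := update (update (update (Sx σ K (lenc (l₁ ++ w :: l₂))
    (List.replicate l₁.length true ++ [false]) C) 22 []) 21 (item w ++ lenc l₂)) 24
    ((lenc l₁).reverse ++ Sx σ K (lenc (l₁ ++ w :: l₂))
      (List.replicate l₁.length true ++ [false]) C 24) with hs1
  have f21 : s1 21 = item w ++ lenc l₂ := by simp [hs1]
  have f24 : s1 24 = (lenc l₁).reverse := by simp [hs1, Sx, St, c24]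
  have h2 := does_push (O := O) (s := s1) 21 b
  rw [f21] at h2
  have h3 := does_push (O := O) (s := update s1 21 (b :: (item w ++ lenc l₂))) 21 true
  rw [update_self, update_idem] at h3
  have h4 := mv_does (O := O) (s := update s1 21 (true :: b :: (item w ++ lenc l₂)))
    (r := 24) (u := 21) (by norm_num)
  rw [update_of_ne (by norm_num : (24 : ℕ) ≠ 21), f24, List.reverse_reverse, update_self,
    List.length_reverse] at h4
  refine (Does.congr (Does.seq h1 fun _ => Does.seq h2 fun _ => Does.seq h3 fun _ => h4)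
    (fun _ => ?_) (by simp)).mono (by omega)
  refine Body_ext ?_ ?_ ?_ ?_ ?_ ?_ ?_
  · simp [hs1, Sx, St]
  · simp [Sx, St, lenc_append, lenc_cons, item_cons]
  · simp [hs1, Sx, St]
  · simp [hs1, Sx, St]
  · simp [hs1, Sx, St, c24]
  · simp [hs1, Sx, St]
  · intro q g20 g21 g22 g23 g24 g26
    simp [hs1, Sx, St, g20, g21, g22, g24, g26]

theorem exec_push (hσ : Clean σ) (b : Bool) (C : Str) :
    Does O exec (Sx σ K (lenc (l₁ ++ w :: l₂)) (enc (Cmd.push l₁.length b)) C)
      (Sx σ K (lenc (l₁ ++ (b :: w) :: l₂)) [] C) True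
      (100 * ((lenc (l₁ ++ w :: l₂)).length + 1)) := by
  have ht : 53 * ((lenc l₁).length + 1) + 3 + 4 ≤ 100 * ((lenc (l₁ ++ w :: l₂)).length + 1) := by
    rw [lenc_append, List.length_append]
    omega
  refine Spec.mono ?_ ht
  unfold exec exPush
  refine Spec.pop_false (w := false :: true :: b :: (List.replicate l₁.length true ++ [false]))
    (by rw [Body_at22]; rfl) ?_
  rw [Body_upd22]
  refine Spec.pop_false (w := true :: b :: (List.replicate l₁.length true ++ [false]))
    (by rw [Body_at22]) ?_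
  rw [Body_upd22]
  refine Spec.pop_true (w := b :: (List.replicate l₁.length true ++ [false]))
    (by rw [Body_at22]) ?_
  rw [Body_upd22]
  cases b with
  | false =>
    refine Spec.pop_false (w := List.replicate l₁.length true ++ [false])
      (by rw [Body_at22]) ?_
    rw [Body_upd22]
    exact Body_push_tail hσ false C
  | true =>
    refine Spec.pop_true (w := List.replicate l₁.length true ++ [false])
      (by rw [Body_at22]) ?_
    rw [Body_upd22]
    exact Body_push_tail hσ true C

theorem exec_seq (hσ : Clean σ) (c d : Cmd) (C : Str) :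
    Does O exec (Sx σ K μ (enc (Cmd.seq c d)) C) (Sx σ (item (enc c) ++ (item (enc d) ++ K)) μ [] C)
      True (100 * ((enc (Cmd.seq c d)).length + 1)) := by
  have c23 := hσ 23 (by norm_num)
  have el : (enc (Cmd.seq c d)).length = (lenc [enc c, enc d]).length + 3 := by
    have : enc (Cmd.seq c d) = false :: true :: false :: lenc [enc c, enc d] := rfl
    rw [this]
    simp only [List.length_cons]
  have ht : 6 * (lenc [enc c, enc d]).length + 2 + 3 ≤ 100 * ((enc (Cmd.seq c d)).length + 1) := by
    rw [el]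
    omega
  refine Spec.mono ?_ ht
  unfold exec exSeq
  refine Spec.pop_false (w := true :: false :: lenc [enc c, enc d])
    (by rw [Body_at22]; rfl) ?_
  rw [Body_upd22]
  refine Spec.pop_true (w := false :: lenc [enc c, enc d])
    (by rw [Body_at22]) ?_
  rw [Body_upd22]
  refine Spec.pop_false (w := lenc [enc c, enc d])
    (by rw [Body_at22]) ?_
  rw [Body_upd22]
  have h1 := mv_does (O := O) (s := Sx σ K μ (lenc [enc c, enc d]) C) (r := 22) (u := 23)
    (by norm_num)
  have e23 : Sx σ K μ (lenc [enc c, enc d]) C 23 = [] := by simp [Sx, St, c23]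
  rw [Body_at22, e23, List.append_nil] at h1
  have h2 := mv_does (O := O) (s := update (update (Sx σ K μ (lenc [enc c, enc d]) C) 22 []) 23
    (lenc [enc c, enc d]).reverse) (r := 23) (u := 20) (by norm_num)
  rw [update_self, List.reverse_reverse, List.length_reverse] at h2
  refine (Does.congr (Does.seq h1 fun _ => h2) (fun _ => ?_) (by simp)).mono (by omega)
  refine Body_ext ?_ ?_ ?_ ?_ ?_ ?_ ?_
  · simp [Sx, St, lenc]
  · simp [Sx, St]
  · simp [Sx, St]
  · simp [Sx, St, c23]
  · simp [Sx, St]
  · simp [Sx, St]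
  · intro q g20 g21 g22 g23 g24 g26
    simp [Sx, St, g20, g21, g22, g23, g26]

/-- The store inside `exPop` after the search. -/
private def Body_pop_st (σ : Store) (K ν L V C : Str) : Store :=
  update (Sx σ K ν V C) 24 L

private theorem Body_pop_head (hσ : Clean σ) (V C : Str) {ν : Str} {X : Cmd} {R : Store → Prop}
    {T : ℕ} (h : Spec O X (Body_pop_st σ K ν (lenc l₁).reverse V C) R T) :
    Spec O (Cmd.seq seek X)
      (Sx σ K (lenc l₁ ++ ν) (List.replicate l₁.length true ++ false :: V) C) R
      (50 * ((lenc l₁).length + 1) + T) := by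
  have c24 := hσ 24 (by norm_num)
  have c28 := hσ 28 (by norm_num)
  have c29 := hσ 29 (by norm_num)
  have h1 := seek_does (O := O)
    (s := Sx σ K (lenc l₁ ++ ν) (List.replicate l₁.length true ++ false :: V) C) l₁
    (v := V) (μ := ν) (by simp [Sx, St, c28]) (by simp [Sx, St, c29])
    (by simp [Sx]) (by simp [Sx, St])
  suffices h4 : Spec O X _ R T from
    Spec.congr (Does.seq_spec h1 (fun _ => h4)) (fun s2 => by simp)
  convert h using 1
  ext q : 1
  unfold Body_pop_st Sx St
  by_cases h20 : q = 20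
  · subst h20; simp
  by_cases h21 : q = 21
  · subst h21; simp
  by_cases h22 : q = 22
  · subst h22; simp
  by_cases h24 : q = 24
  · subst h24; simp [c24]
  by_cases h26 : q = 26
  · subst h26; simp
  simp [h20, h21, h22, h24, h26]

private theorem Body_pop_tail (hσ : Clean σ) (l : List Str) (w₀ v₀ C ν : Str) :
    Does O (Cmd.seq (mv 24 21) (takep l.length))
      (Body_pop_st σ K ν (lenc l₁).reverse (lenc l ++ (item w₀ ++ v₀)) C)
      (Sx σ (item w₀ ++ K) (lenc l₁ ++ ν) [] C) True
      (3 * (lenc l₁).length + 1 + 50 * ((lenc l ++ (item w₀ ++ v₀)).length + 1)) := by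
  have c23 := hσ 23 (by norm_num)
  have c24 := hσ 24 (by norm_num)
  have c29 := hσ 29 (by norm_num)
  set s0 : Store := Body_pop_st σ K ν (lenc l₁).reverse (lenc l ++ (item w₀ ++ v₀)) C
    with hs0
  have h2 := mv_does (O := O) (s := s0) (r := 24) (u := 21) (by norm_num)
  have e24 : s0 24 = (lenc l₁).reverse := by
    simp [hs0, Body_pop_st]
  rw [e24, List.reverse_reverse, List.length_reverse] at h2
  have h3 := takep_does (O := O) (s := update (update s0 24 []) 21 (lenc l₁ ++ s0 21)) l
    (w := w₀) (v := v₀) (by simp [hs0, Body_pop_st, Sx, St, c23])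
    (by simp [hs0, Body_pop_st, Sx, St, c29]) (by simp [hs0, Body_pop_st, Sx])
  have e22 : update (update s0 24 []) 21 (lenc l₁ ++ s0 21) 22 =
      lenc l ++ (item w₀ ++ v₀) := by
    simp [hs0, Body_pop_st, Sx]
  rw [e22] at h3
  refine Does.congr (Does.seq h2 fun _ => h3) (fun _ => ?_) (by simp)
  ext q : 1
  rw [hs0]
  unfold Body_pop_st Sx St
  by_cases h20 : q = 20
  · subst h20; simp
  by_cases h21 : q = 21
  · subst h21; simp
  by_cases h22 : q = 22
  · subst h22; simp
  by_cases h24 : q = 24
  · subst h24; simp [c24]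
  by_cases h26 : q = 26
  · subst h26; simp
  simp [h20, h21, h22, h24, h26]

private theorem Body_pop_exec (c₀ c₁ c₂ : Cmd) (C : Str) {R : Store → Prop} {T : ℕ}
    (h : Spec O exPop (Sx σ K μ (List.replicate N true ++
      false :: lenc [enc c₀, enc c₁, enc c₂]) C) R T) :
    Spec O exec (Sx σ K μ (enc (Cmd.pop N c₀ c₁ c₂)) C) R (T + 3) := by
  unfold exec
  have e1 : ∀ W W' : Str, update (Sx σ K μ W C) 22 W' = Sx σ K μ W' C := by
    intro W W'
    unfold Sx
    rw [update_comm (by norm_num : (26 : ℕ) ≠ 22), update_idem]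
  have e2 : ∀ W : Str, Sx σ K μ W C 22 = W := by
    intro W
    simp [Sx]
  refine Spec.pop_false (w := true :: true :: (List.replicate N true ++
    false :: lenc [enc c₀, enc c₁, enc c₂])) (by rw [e2]; rfl) ?_
  rw [e1]
  refine Spec.pop_true (w := true :: (List.replicate N true ++
    false :: lenc [enc c₀, enc c₁, enc c₂])) (by rw [e2]) ?_
  rw [e1]
  refine Spec.pop_true (w := List.replicate N true ++
    false :: lenc [enc c₀, enc c₁, enc c₂]) (by rw [e2]) ?_
  rw [e1]
  exact h

private theorem Body_pop_upd (ν ν' L V C : Str) :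
    update (Body_pop_st σ K ν L V C) 21 ν' = Body_pop_st σ K ν' L V C := by
  ext q : 1
  unfold Body_pop_st Sx St
  by_cases h21 : q = 21
  · subst h21; simp
  by_cases h22 : q = 22
  · subst h22; simp
  by_cases h24 : q = 24
  · subst h24; simp
  by_cases h26 : q = 26
  · subst h26; simp
  simp [h21, h22, h24, h26]

private theorem Body_pop_21 (ν L V C : Str) : Body_pop_st σ K ν L V C 21 = ν := by
  simp [Body_pop_st, Sx, St]

private theorem Body_pop_time (c₀ c₁ c₂ : Cmd) :
    50 * ((lenc l₁).length + 1) + (3 * (lenc l₁).length + 1 +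
      50 * ((lenc [enc c₀, enc c₁, enc c₂]).length + 1) + 1 + 1) + 3 ≤
    100 * ((lenc (l₁ ++ w :: l₂)).length + (enc (Cmd.pop l₁.length c₀ c₁ c₂)).length + 1) := by
  have h1 : (lenc (l₁ ++ w :: l₂)).length =
      (lenc l₁).length + ((2 * w.length + 1) + (lenc l₂).length) := by
    rw [lenc_append, lenc_cons, List.length_append, List.length_append, item_length]
  have h2 : (enc (Cmd.pop l₁.length c₀ c₁ c₂)).length =
      l₁.length + ((lenc [enc c₀, enc c₁, enc c₂]).length + 1) + 3 := by
    have h3 : enc (Cmd.pop l₁.length c₀ c₁ c₂) = false :: true :: true ::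
        (List.replicate l₁.length true ++ false :: lenc [enc c₀, enc c₁, enc c₂]) := rfl
    rw [h3]
    simp only [List.length_cons, List.length_append, List.length_replicate]
  rw [h1, h2]
  omega

theorem exec_pop_nil (hσ : Clean σ) (c₀ c₁ c₂ : Cmd) (C : Str) :
    Does O exec (Sx σ K (lenc (l₁ ++ [] :: l₂)) (enc (Cmd.pop l₁.length c₀ c₁ c₂)) C)
      (Sx σ (item (enc c₀) ++ K) (lenc (l₁ ++ [] :: l₂)) [] C) True
      (100 * ((lenc (l₁ ++ [] :: l₂)).length + (enc (Cmd.pop l₁.length c₀ c₁ c₂)).length + 1)) := by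
  have e : lenc [enc c₀, enc c₁, enc c₂] =
      lenc [] ++ (item (enc c₀) ++ lenc [enc c₁, enc c₂]) := by
    simp [lenc]
  have m : lenc (l₁ ++ [] :: l₂) = lenc l₁ ++ (false :: lenc l₂) := by
    rw [lenc_append, lenc_cons, item_nil]
    rfl
  have h1 := Body_pop_tail (O := O) (K := K) (l₁ := l₁) hσ [] (enc c₀)
    (lenc [enc c₁, enc c₂]) C (false :: lenc l₂)
  rw [← e] at h1
  have h2 : Does O (Cmd.push 21 false) (Body_pop_st σ K (lenc l₂) (lenc l₁).reverse
      (lenc [enc c₀, enc c₁, enc c₂]) C) (Body_pop_st σ K (false :: lenc l₂) (lenc l₁).reverse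
      (lenc [enc c₀, enc c₁, enc c₂]) C) True 1 := by
    have h := does_push (O := O) (s := Body_pop_st σ K (lenc l₂) (lenc l₁).reverse
      (lenc [enc c₀, enc c₁, enc c₂]) C) 21 false
    rwa [Body_pop_upd, Body_pop_21] at h
  have h3 := Does.congr (ψ := True) (Does.seq h2 (fun _ => h1)) (fun _ => rfl) (by simp)
  have h4 := Spec.pop_false (O := O) (c₀ := Cmd.skip)
    (c₂ := Cmd.pop 21 Cmd.skip (Cmd.seq (mv 24 21) (takep 1)) (Cmd.seq (mv 24 21) (takep 2)))
    (r := 21) (s := Body_pop_st σ K (false :: lenc l₂) (lenc l₁).reverse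
      (lenc [enc c₀, enc c₁, enc c₂]) C) (w := lenc l₂) (by rw [Body_pop_21])
    (by rw [Body_pop_upd]; exact h3)
  have h5 := Body_pop_exec c₀ c₁ c₂ C (Body_pop_head hσ _ C h4)
  rw [m]
  refine Spec.mono h5 ?_
  have := Body_pop_time (l₁ := l₁) (l₂ := l₂) (w := []) c₀ c₁ c₂
  rw [m] at this
  omega

theorem exec_pop_false (hσ : Clean σ) (c₀ c₁ c₂ : Cmd) (C : Str) :
    Does O exec (Sx σ K (lenc (l₁ ++ (false :: w) :: l₂)) (enc (Cmd.pop l₁.length c₀ c₁ c₂)) C)
      (Sx σ (item (enc c₁) ++ K) (lenc (l₁ ++ w :: l₂)) [] C) True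
      (100 * ((lenc (l₁ ++ (false :: w) :: l₂)).length +
        (enc (Cmd.pop l₁.length c₀ c₁ c₂)).length + 1)) := by
  have e : lenc [enc c₀, enc c₁, enc c₂] =
      lenc [enc c₀] ++ (item (enc c₁) ++ lenc [enc c₂]) := by
    simp [lenc]
  have m : lenc (l₁ ++ (false :: w) :: l₂) = lenc l₁ ++ (true :: false :: (item w ++ lenc l₂)) := by
    rw [lenc_append, lenc_cons, item_cons]
    rfl
  have m' : lenc (l₁ ++ w :: l₂) = lenc l₁ ++ (item w ++ lenc l₂) := by
    rw [lenc_append, lenc_cons]
  have h1 := Body_pop_tail (O := O) (K := K) (l₁ := l₁) hσ [enc c₀] (enc c₁)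
    (lenc [enc c₂]) C (item w ++ lenc l₂)
  rw [← e] at h1
  have h3 := Spec.pop_false (O := O) (c₀ := Cmd.skip)
    (c₂ := Cmd.seq (mv 24 21) (takep 2))
    (r := 21) (s := Body_pop_st σ K (false :: (item w ++ lenc l₂)) (lenc l₁).reverse
      (lenc [enc c₀, enc c₁, enc c₂]) C) (w := item w ++ lenc l₂) (by rw [Body_pop_21])
    (by rw [Body_pop_upd]; exact h1)
  have h4 := Spec.pop_true (O := O) (c₀ := Cmd.skip)
    (c₁ := Cmd.seq (Cmd.push 21 false) (Cmd.seq (mv 24 21) (takep 0)))
    (r := 21) (s := Body_pop_st σ K (true :: false :: (item w ++ lenc l₂)) (lenc l₁).reverse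
      (lenc [enc c₀, enc c₁, enc c₂]) C) (w := false :: (item w ++ lenc l₂)) (by rw [Body_pop_21])
    (by rw [Body_pop_upd]; exact h3)
  have h5 := Body_pop_exec c₀ c₁ c₂ C (Body_pop_head hσ _ C h4)
  rw [m, m']
  refine Spec.mono h5 ?_
  have := Body_pop_time (l₁ := l₁) (l₂ := l₂) (w := false :: w) c₀ c₁ c₂
  rw [m] at this
  omega

theorem exec_pop_true (hσ : Clean σ) (c₀ c₁ c₂ : Cmd) (C : Str) :
    Does O exec (Sx σ K (lenc (l₁ ++ (true :: w) :: l₂)) (enc (Cmd.pop l₁.length c₀ c₁ c₂)) C)
      (Sx σ (item (enc c₂) ++ K) (lenc (l₁ ++ w :: l₂)) [] C) True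
      (100 * ((lenc (l₁ ++ (true :: w) :: l₂)).length +
        (enc (Cmd.pop l₁.length c₀ c₁ c₂)).length + 1)) := by
  have e : lenc [enc c₀, enc c₁, enc c₂] =
      lenc [enc c₀, enc c₁] ++ (item (enc c₂) ++ []) := by
    simp [lenc]
  have m : lenc (l₁ ++ (true :: w) :: l₂) = lenc l₁ ++ (true :: true :: (item w ++ lenc l₂)) := by
    rw [lenc_append, lenc_cons, item_cons]
    rfl
  have m' : lenc (l₁ ++ w :: l₂) = lenc l₁ ++ (item w ++ lenc l₂) := by
    rw [lenc_append, lenc_cons]
  have h1 := Body_pop_tail (O := O) (K := K) (l₁ := l₁) hσ [enc c₀, enc c₁] (enc c₂)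
    [] C (item w ++ lenc l₂)
  rw [← e] at h1
  have h3 := Spec.pop_true (O := O) (c₀ := Cmd.skip)
    (c₁ := Cmd.seq (mv 24 21) (takep 1))
    (r := 21) (s := Body_pop_st σ K (true :: (item w ++ lenc l₂)) (lenc l₁).reverse
      (lenc [enc c₀, enc c₁, enc c₂]) C) (w := item w ++ lenc l₂) (by rw [Body_pop_21])
    (by rw [Body_pop_upd]; exact h1)
  have h4 := Spec.pop_true (O := O) (c₀ := Cmd.skip)
    (c₁ := Cmd.seq (Cmd.push 21 false) (Cmd.seq (mv 24 21) (takep 0)))
    (r := 21) (s := Body_pop_st σ K (true :: true :: (item w ++ lenc l₂)) (lenc l₁).reverse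
      (lenc [enc c₀, enc c₁, enc c₂]) C) (w := true :: (item w ++ lenc l₂)) (by rw [Body_pop_21])
    (by rw [Body_pop_upd]; exact h3)
  have h5 := Body_pop_exec c₀ c₁ c₂ C (Body_pop_head hσ _ C h4)
  rw [m, m']
  refine Spec.mono h5 ?_
  have := Body_pop_time (l₁ := l₁) (l₂ := l₂) (w := true :: w) c₀ c₁ c₂
  rw [m] at this
  omega

/-- The store inside `exLoop` after `seek`. -/
private def Body_loop_st (σ : Store) (K μ L V C : Str) : Store :=
  update (update (Sx σ K μ V C) 24 L) 21 μ

private theorem Body_loop_head (hσ : Clean σ) (V C : Str) {X : Cmd} {R : Store → Prop} {T : ℕ}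
    (h : Spec O X (Body_loop_st σ K (item w ++ lenc l₂) (lenc l₁).reverse V C) R T) :
    Spec O (Cmd.seq seek X)
      (Sx σ K (lenc (l₁ ++ w :: l₂)) (List.replicate l₁.length true ++ false :: V) C) R
      (50 * ((lenc l₁).length + 1) + T) := by
  have e21 : lenc (l₁ ++ w :: l₂) = lenc l₁ ++ (item w ++ lenc l₂) := by
    rw [lenc_append, lenc_cons]
  have c24 := hσ 24 (by norm_num)
  have c28 := hσ 28 (by norm_num)
  have c29 := hσ 29 (by norm_num)
  have h1 := seek_does (O := O)
    (s := Sx σ K (lenc (l₁ ++ w :: l₂)) (List.replicate l₁.length true ++ false :: V) C) l₁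
    (v := V) (μ := item w ++ lenc l₂) (by simp [Sx, St, c28]) (by simp [Sx, St, c29])
    (by simp [Sx]) (by simp [Sx, St, e21])
  suffices h4 : Spec O X _ R T from
    Spec.congr (Does.seq_spec h1 (fun _ => h4)) (fun s2 => by simp)
  convert h using 1
  ext q : 1
  unfold Body_loop_st Sx St
  by_cases h20 : q = 20
  · subst h20; simp
  by_cases h21 : q = 21
  · subst h21; simp
  by_cases h22 : q = 22
  · subst h22; simp
  by_cases h24 : q = 24
  · subst h24; simp [c24]
  by_cases h26 : q = 26
  · subst h26; simp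
  simp [h20, h21, h22, h24, h26]

private theorem Body_loop_exec (c : Cmd) (C : Str) {R : Store → Prop} {T : ℕ}
    (h : Spec O exLoop (Sx σ K μ (List.replicate N true ++ false :: lenc [enc c]) C) R T) :
    Spec O exec (Sx σ K μ (enc (Cmd.loop N c)) C) R (T + 3) := by
  unfold exec
  have e1 : ∀ W W' : Str, update (Sx σ K μ W C) 22 W' = Sx σ K μ W' C := by
    intro W W'
    unfold Sx
    rw [update_comm (by norm_num : (26 : ℕ) ≠ 22), update_idem]
  have e2 : ∀ W : Str, Sx σ K μ W C 22 = W := by
    intro W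
    simp [Sx]
  refine Spec.pop_true (w := false :: false :: (List.replicate N true ++
    false :: lenc [enc c])) (by rw [e2]; rfl) ?_
  rw [e1]
  refine Spec.pop_false (w := false :: (List.replicate N true ++
    false :: lenc [enc c])) (by rw [e2]) ?_
  rw [e1]
  refine Spec.pop_false (w := List.replicate N true ++
    false :: lenc [enc c]) (by rw [e2]) ?_
  rw [e1]
  exact h

theorem exec_loop_nil (hσ : Clean σ) (c : Cmd) (C : Str) :
    Does O exec (Sx σ K (lenc (l₁ ++ [] :: l₂)) (enc (Cmd.loop l₁.length c)) C)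
      (Sx σ K (lenc (l₁ ++ [] :: l₂)) [] C) True
      (100 * ((lenc (l₁ ++ [] :: l₂)).length + (enc (Cmd.loop l₁.length c)).length + 1)) := by
  have c24 := hσ 24 (by norm_num)
  set s0 : Store := Body_loop_st σ K (item [] ++ lenc l₂) (lenc l₁).reverse (lenc [enc c]) C
    with hs0
  have e21 : s0 21 = false :: lenc l₂ := by simp [hs0, Body_loop_st, item_nil]
  have h1 := does_push (O := O) (s := update s0 21 (lenc l₂)) 21 false
  rw [update_self, update_idem] at h1
  have h2 := mv_does (O := O) (s := update s0 21 (false :: lenc l₂)) (r := 24) (u := 21)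
    (by norm_num)
  have e24 : update s0 21 (false :: lenc l₂) 24 = (lenc l₁).reverse := by
    simp [hs0, Body_loop_st]
  rw [e24, List.reverse_reverse, List.length_reverse, update_self] at h2
  have h3 := clr_does (O := O) (s := update (update (update s0 21 (false :: lenc l₂)) 24 []) 21
    (lenc l₁ ++ false :: lenc l₂)) 22
  have e22 : update (update (update s0 21 (false :: lenc l₂)) 24 []) 21
    (lenc l₁ ++ false :: lenc l₂) 22 = lenc [enc c] := by
    simp [hs0, Body_loop_st, Sx]
  rw [e22] at h3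
  have h4 : Does O (Cmd.seq (Cmd.push 21 false) (Cmd.seq (mv 24 21) (clr 22)))
      (update s0 21 (lenc l₂)) (Sx σ K (lenc (l₁ ++ [] :: l₂)) [] C) True
      (1 + (3 * (lenc l₁).length + 1 + (3 * (lenc [enc c]).length + 1))) := by
    refine Does.congr (Does.seq h1 fun _ => Does.seq h2 fun _ => h3) (fun _ => ?_) (by simp)
    ext q : 1
    rw [hs0]
    unfold Body_loop_st Sx St
    by_cases h20 : q = 20
    · subst h20; simp
    by_cases h21 : q = 21
    · subst h21; simp [lenc_append, lenc_cons, item_nil]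
    by_cases h22 : q = 22
    · subst h22; simp
    by_cases h24 : q = 24
    · subst h24; simp [c24]
    by_cases h26 : q = 26
    · subst h26; simp
    simp [h20, h21, h22, h24, h26]
  have h5 : Does O (Cmd.pop 21 Cmd.skip
      (Cmd.seq (Cmd.push 21 false) (Cmd.seq (mv 24 21) (clr 22)))
      (Cmd.seq (Cmd.push 21 true) (Cmd.seq (mv 24 21) (Cmd.seq (emt 26 20) (takep 0)))))
      s0 (Sx σ K (lenc (l₁ ++ [] :: l₂)) [] C) True
      (1 + (3 * (lenc l₁).length + 1 + (3 * (lenc [enc c]).length + 1)) + 1) :=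
    Spec.pop_false e21 h4
  refine Spec.mono (Body_loop_exec c C (Body_loop_head hσ _ C h5)) ?_
  have h6 : (lenc (l₁ ++ [] :: l₂)).length =
      (lenc l₁).length + (1 + (lenc l₂).length) := by
    rw [lenc_append, lenc_cons, List.length_append, List.length_append, item_length]
    simp
  have h7 : (enc (Cmd.loop l₁.length c)).length =
      l₁.length + ((lenc [enc c]).length + 1) + 3 := by
    have h8 : enc (Cmd.loop l₁.length c) = true :: false :: false ::
        (List.replicate l₁.length true ++ false :: lenc [enc c]) := rfl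
    rw [h8]
    simp only [List.length_cons, List.length_append, List.length_replicate]
  rw [h6, h7]
  omega

theorem exec_loop_cons (hσ : Clean σ) (c : Cmd) (C : Str) (hw : w ≠ []) :
    Does O exec (Sx σ K (lenc (l₁ ++ w :: l₂)) (enc (Cmd.loop l₁.length c)) C)
      (Sx σ (item (enc c) ++ (item C ++ K)) (lenc (l₁ ++ w :: l₂)) [] []) True
      (100 * ((lenc (l₁ ++ w :: l₂)).length + (enc (Cmd.loop l₁.length c)).length +
        C.length + 1)) := by
  have c23 := hσ 23 (by norm_num)
  have c24 := hσ 24 (by norm_num)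
  have c29 := hσ 29 (by norm_num)
  have c31 := hσ 31 (by norm_num)
  obtain ⟨b, w', rfl⟩ : ∃ b w', w = b :: w' := by
    cases w with
    | nil => exact absurd rfl hw
    | cons b w' => exact ⟨b, w', rfl⟩
  set s0 : Store := Body_loop_st σ K (item (b :: w') ++ lenc l₂) (lenc l₁).reverse
    (lenc [enc c]) C with hs0
  set v : Str := b :: (item w' ++ lenc l₂) with hv
  have e21 : s0 21 = true :: v := by simp [hs0, Body_loop_st, item_cons, hv]
  have h1 := does_push (O := O) (s := update s0 21 v) 21 true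
  rw [update_self, update_idem] at h1
  have h2 := mv_does (O := O) (s := update s0 21 (true :: v)) (r := 24) (u := 21)
    (by norm_num)
  have e24 : update s0 21 (true :: v) 24 = (lenc l₁).reverse := by
    simp [hs0, Body_loop_st]
  rw [e24, List.reverse_reverse, List.length_reverse, update_self] at h2
  set s1 : Store := update (update (update s0 21 (true :: v)) 24 []) 21 (lenc l₁ ++ true :: v)
    with hs1
  have h3 := emt_does (O := O) (s := s1) (r := 26) (u := 20)
    (by simp [hs1, hs0, Body_loop_st, Sx, St, c31]) (by norm_num) (by norm_num) (by norm_num)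
  have e26 : s1 26 = C := by simp [hs1, hs0, Body_loop_st, Sx]
  have e20 : s1 20 = K := by simp [hs1, hs0, Body_loop_st, Sx, St]
  rw [e26, e20] at h3
  set s2 : Store := update (update s1 26 []) 20 (item C ++ K) with hs2
  have e22 : s2 22 = lenc [] ++ (item (enc c) ++ []) := by
    simp [hs2, hs1, hs0, Body_loop_st, Sx, lenc]
  have h4 := takep_does (O := O) (s := s2) [] (w := enc c) (v := [])
    (by simp [hs2, hs1, hs0, Body_loop_st, Sx, St, c23])
    (by simp [hs2, hs1, hs0, Body_loop_st, Sx, St, c29]) e22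
  have e22' : (s2 22).length = (lenc [enc c]).length := by
    rw [e22]
    simp [lenc]
  rw [e22'] at h4
  have h5 : Does O (Cmd.seq (Cmd.push 21 true) (Cmd.seq (mv 24 21)
      (Cmd.seq (emt 26 20) (takep 0)))) (update s0 21 v)
      (Sx σ (item (enc c) ++ (item C ++ K)) (lenc (l₁ ++ (b :: w') :: l₂)) [] []) True
      (1 + (3 * (lenc l₁).length + 1 + (10 * C.length + 10 +
        50 * ((lenc [enc c]).length + 1)))) := by
    refine Does.congr (Does.seq h1 fun _ => Does.seq h2 fun _ => Does.seq h3 fun _ => h4)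
      (fun _ => ?_) (by simp)
    ext q : 1
    rw [hs2, hs1, hs0]
    unfold Body_loop_st Sx St
    by_cases h20 : q = 20
    · subst h20; simp
    by_cases h21 : q = 21
    · subst h21; simp [lenc_append, lenc_cons, item_cons, hv]
    by_cases h22 : q = 22
    · subst h22; simp
    by_cases h24 : q = 24
    · subst h24; simp [c24]
    by_cases h26 : q = 26
    · subst h26; simp
    simp [h20, h21, h22, h24, h26]
  have h6 : Does O (Cmd.pop 21 Cmd.skip
      (Cmd.seq (Cmd.push 21 false) (Cmd.seq (mv 24 21) (clr 22)))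
      (Cmd.seq (Cmd.push 21 true) (Cmd.seq (mv 24 21) (Cmd.seq (emt 26 20) (takep 0)))))
      s0 (Sx σ (item (enc c) ++ (item C ++ K)) (lenc (l₁ ++ (b :: w') :: l₂)) [] []) True
      (1 + (3 * (lenc l₁).length + 1 + (10 * C.length + 10 +
        50 * ((lenc [enc c]).length + 1))) + 1) :=
    Spec.pop_true e21 h5
  refine Spec.mono (Body_loop_exec c C (Body_loop_head hσ _ C h6)) ?_
  have h7 : (lenc (l₁ ++ (b :: w') :: l₂)).length =
      (lenc l₁).length + ((2 * (b :: w').length + 1) + (lenc l₂).length) := by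
    rw [lenc_append, lenc_cons, List.length_append, List.length_append, item_length]
  have h8 : (enc (Cmd.loop l₁.length c)).length =
      l₁.length + ((lenc [enc c]).length + 1) + 3 := by
    have h9 : enc (Cmd.loop l₁.length c) = true :: false :: false ::
        (List.replicate l₁.length true ++ false :: lenc [enc c]) := rfl
    rw [h9]
    simp only [List.length_cons, List.length_append, List.length_replicate]
  rw [h7, h8]
  omega

/-- The store inside `exQuery` after the query string was decoded. -/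
private def Body_query_st (σ : Store) (K μ w L V C : Str) : Store :=
  update (update (update (Sx σ K μ V C) 24 L) 25 w) 21 μ

private theorem Body_query_head (hσ : Clean σ) (V C : Str) {X : Cmd} {R : Store → Prop} {T : ℕ}
    (h : Spec O X (Body_query_st σ K (lenc l₂) w (lenc l₁).reverse V C) R T) :
    Spec O (Cmd.seq seek (Cmd.seq (rd 21 25) X))
      (Sx σ K (lenc (l₁ ++ w :: l₂)) (List.replicate l₁.length true ++ false :: V) C) R
      (50 * ((lenc l₁).length + 1) + (10 * w.length + 10 + T)) := by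
  have e21 : lenc (l₁ ++ w :: l₂) = lenc l₁ ++ (item w ++ lenc l₂) := by
    rw [lenc_append, lenc_cons]
  have c24 := hσ 24 (by norm_num)
  have c25 := hσ 25 (by norm_num)
  have c28 := hσ 28 (by norm_num)
  have c29 := hσ 29 (by norm_num)
  have c31 := hσ 31 (by norm_num)
  have h1 := seek_does (O := O)
    (s := Sx σ K (lenc (l₁ ++ w :: l₂)) (List.replicate l₁.length true ++ false :: V) C) l₁
    (v := V) (μ := item w ++ lenc l₂) (by simp [Sx, St, c28]) (by simp [Sx, St, c29])
    (by simp [Sx]) (by simp [Sx, St, e21])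
  have h2 := rd_does (O := O) (s := update (update (update (Sx σ K (lenc (l₁ ++ w :: l₂))
      (List.replicate l₁.length true ++ false :: V) C) 22 V) 21 (item w ++ lenc l₂)) 24
      ((lenc l₁).reverse ++ (Sx σ K (lenc (l₁ ++ w :: l₂))
      (List.replicate l₁.length true ++ false :: V) C) 24))
    (r := 21) (u := 25) (w := w) (v := lenc l₂) (by simp [Sx, St, c29]) (by simp [Sx, St, c31])
    (by norm_num) (by norm_num) (by norm_num) (by norm_num) (by norm_num) (by simp)
  suffices h4 : Spec O X _ R T from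
    Spec.congr (Does.seq_spec h1 (fun _ => Does.seq_spec h2 (fun _ => h4))) (fun s2 => by simp)

  convert h using 1
  ext q : 1
  unfold Body_query_st Sx St
  by_cases h20 : q = 20
  · subst h20; simp
  by_cases h21 : q = 21
  · subst h21; simp
  by_cases h22 : q = 22
  · subst h22; simp
  by_cases h24 : q = 24
  · subst h24; simp [c24]
  by_cases h25 : q = 25
  · subst h25; simp [c25]
  by_cases h26 : q = 26
  · subst h26; simp
  simp [h20, h21, h22, h24, h25, h26]

private theorem Body_query_tail (hσ : Clean σ) (l : List Str) (w₀ v₀ C : Str) :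
    Does O (Cmd.seq (emt 25 21) (Cmd.seq (mv 24 21) (takep l.length)))
      (Body_query_st σ K (lenc l₂) w (lenc l₁).reverse (lenc l ++ (item w₀ ++ v₀)) C)
      (Sx σ (item w₀ ++ K) (lenc (l₁ ++ w :: l₂)) [] C) True
      (10 * w.length + 10 + (3 * (lenc l₁).length + 1 +
        50 * ((lenc l ++ (item w₀ ++ v₀)).length + 1))) := by
  have c23 := hσ 23 (by norm_num)
  have c24 := hσ 24 (by norm_num)
  have c25 := hσ 25 (by norm_num)
  have c29 := hσ 29 (by norm_num)
  have c31 := hσ 31 (by norm_num)
  set s0 : Store := Body_query_st σ K (lenc l₂) w (lenc l₁).reverse (lenc l ++ (item w₀ ++ v₀)) C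
    with hs0
  have e25 : s0 25 = w := by simp [hs0, Body_query_st]
  have e21 : s0 21 = lenc l₂ := by simp [hs0, Body_query_st]
  have h1 := emt_does (O := O) (s := s0) (r := 25) (u := 21)
    (by simp [hs0, Body_query_st, Sx, St, c31]) (by norm_num) (by norm_num) (by norm_num)
  rw [e25, e21] at h1
  have h2 := mv_does (O := O) (s := update (update s0 25 []) 21 (item w ++ lenc l₂)) (r := 24)
    (u := 21) (by norm_num)
  have e24 : update (update s0 25 []) 21 (item w ++ lenc l₂) 24 = (lenc l₁).reverse := by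
    simp [hs0, Body_query_st]
  rw [e24, List.reverse_reverse, List.length_reverse] at h2
  have h3 := takep_does (O := O) (s := update (update (update (update s0 25 []) 21
    (item w ++ lenc l₂)) 24 []) 21 (lenc l₁ ++ update (update s0 25 []) 21
    (item w ++ lenc l₂) 21)) l (w := w₀) (v := v₀) (by simp [hs0, Body_query_st, Sx, St, c23])
    (by simp [hs0, Body_query_st, Sx, St, c29]) (by simp [hs0, Body_query_st, Sx])
  have e22 : update (update (update (update s0 25 []) 21 (item w ++ lenc l₂)) 24 []) 21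
      (lenc l₁ ++ update (update s0 25 []) 21 (item w ++ lenc l₂) 21) 22 =
      lenc l ++ (item w₀ ++ v₀) := by
    simp [hs0, Body_query_st, Sx]
  rw [e22] at h3
  refine Does.congr (Does.seq h1 fun _ => Does.seq h2 fun _ => h3) (fun _ => ?_) (by simp)
  ext q : 1
  rw [hs0]
  unfold Body_query_st Sx St
  by_cases h20 : q = 20
  · subst h20; simp
  by_cases h21 : q = 21
  · subst h21; simp [lenc_append, lenc_cons]
  by_cases h22 : q = 22
  · subst h22; simp
  by_cases h24 : q = 24
  · subst h24; simp [c24]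
  by_cases h25 : q = 25
  · subst h25; simp [c25]
  by_cases h26 : q = 26
  · subst h26; simp
  simp [h20, h21, h22, h24, h25, h26]

private theorem Body_query_exec (c d : Cmd) (C : Str) {R : Store → Prop} {T : ℕ}
    (h : Spec O exQuery (Sx σ K μ (List.replicate N true ++ false :: lenc [enc c, enc d]) C) R T) :
    Spec O exec (Sx σ K μ (enc (Cmd.query N c d)) C) R (T + 3) := by
  unfold exec
  have e1 : ∀ W W' : Str, update (Sx σ K μ W C) 22 W' = Sx σ K μ W' C := by
    intro W W'
    unfold Sx
    rw [update_comm (by norm_num : (26 : ℕ) ≠ 22), update_idem]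
  have e2 : ∀ W : Str, Sx σ K μ W C 22 = W := by
    intro W
    simp [Sx]
  refine Spec.pop_true (w := false :: true :: (List.replicate N true ++
    false :: lenc [enc c, enc d])) (by rw [e2]; rfl) ?_
  rw [e1]
  refine Spec.pop_false (w := true :: (List.replicate N true ++
    false :: lenc [enc c, enc d])) (by rw [e2]) ?_
  rw [e1]
  refine Spec.pop_true (w := List.replicate N true ++
    false :: lenc [enc c, enc d]) (by rw [e2]) ?_
  rw [e1]
  exact h

private theorem Body_query_time (c d : Cmd) :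
    50 * ((lenc l₁).length + 1) + (10 * w.length + 10 + (10 * w.length + 10 +
      (3 * (lenc l₁).length + 1 + 50 * ((lenc [enc c, enc d]).length + 1)) + 1)) + 3 ≤
    100 * ((lenc (l₁ ++ w :: l₂)).length + (enc (Cmd.query l₁.length c d)).length + 1) := by
  have h1 : (lenc (l₁ ++ w :: l₂)).length =
      (lenc l₁).length + ((2 * w.length + 1) + (lenc l₂).length) := by
    rw [lenc_append, lenc_cons, List.length_append, List.length_append, item_length]
  have h2 : (enc (Cmd.query l₁.length c d)).length =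
      l₁.length + ((lenc [enc c, enc d]).length + 1) + 3 := by
    have h3 : enc (Cmd.query l₁.length c d) = true :: false :: true ::
        (List.replicate l₁.length true ++ false :: lenc [enc c, enc d]) := rfl
    rw [h3]
    simp only [List.length_cons, List.length_append, List.length_replicate]
  rw [h1, h2]
  omega

theorem exec_query_yes (hσ : Clean σ) (c d : Cmd) (C : Str) (hw : w ∈ O) :
    Does O exec (Sx σ K (lenc (l₁ ++ w :: l₂)) (enc (Cmd.query l₁.length c d)) C)
      (Sx σ (item (enc c) ++ K) (lenc (l₁ ++ w :: l₂)) [] C) True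
      (100 * ((lenc (l₁ ++ w :: l₂)).length + (enc (Cmd.query l₁.length c d)).length + 1)) := by
  have e : lenc [enc c, enc d] = lenc [] ++ (item (enc c) ++ lenc [enc d]) := by
    simp [lenc]
  have h1 := Body_query_tail (O := O) (K := K) (w := w) (l₁ := l₁) (l₂ := l₂) hσ []
    (enc c) (lenc [enc d]) C
  rw [← e] at h1
  have h2 := spec_query_yes (d := Cmd.seq (emt 25 21) (Cmd.seq (mv 24 21) (takep 1))) (r := 25)
    (s := Body_query_st σ K (lenc l₂) w (lenc l₁).reverse (lenc [enc c, enc d]) C)
    (by simpa [Body_query_st] using hw) h1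
  exact (Body_query_exec c d C (Body_query_head hσ _ C h2)).mono
    (Body_query_time (l₁ := l₁) (l₂ := l₂) (w := w) c d)

theorem exec_query_no (hσ : Clean σ) (c d : Cmd) (C : Str) (hw : w ∉ O) :
    Does O exec (Sx σ K (lenc (l₁ ++ w :: l₂)) (enc (Cmd.query l₁.length c d)) C)
      (Sx σ (item (enc d) ++ K) (lenc (l₁ ++ w :: l₂)) [] C) True
      (100 * ((lenc (l₁ ++ w :: l₂)).length + (enc (Cmd.query l₁.length c d)).length + 1)) := by
  have e : lenc [enc c, enc d] = lenc [enc c] ++ (item (enc d) ++ []) := by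
    simp [lenc]
  have h1 := Body_query_tail (O := O) (K := K) (w := w) (l₁ := l₁) (l₂ := l₂) hσ [enc c]
    (enc d) [] C
  rw [← e] at h1
  have h2 := spec_query_no (c := Cmd.seq (emt 25 21) (Cmd.seq (mv 24 21) (takep 0))) (r := 25)
    (s := Body_query_st σ K (lenc l₂) w (lenc l₁).reverse (lenc [enc c, enc d]) C)
    (by simpa [Body_query_st] using hw) h1
  exact (Body_query_exec c d C (Body_query_head hσ _ C h2)).mono
    (Body_query_time (l₁ := l₁) (l₂ := l₂) (w := w) c d)

end Pool.Agent.Helper5.AP
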