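import Pool.Agent.Helper5.AP.Sim
import Pool.Agent.Helper5.AP.Eqf
import Pool.Agent.Helper5.AP.Tab

/-!
# The program of the set
-/

namespace Pool.Agent.Helper5.AP

open Pool.Agent.Helper5.SX Function

variable {O : Set Str}

private theorem Cc1_lenc (m : ℕ) : lenc (List.replicate m ([] : Str)) = List.replicate m false := by
  induction m with
  | zero => rfl
  | succ m ih =>
    rw [List.replicate_succ, lenc_cons, ih, item_nil, List.replicate_succ]
    rfl

private theorem Cc1_map (m : ℕ) (y : Str) :
    (List.range (m + 1)).map (start y []) = y :: List.replicate m [] := by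
  rw [List.range_succ_eq_map, List.map_cons, List.map_map]
  congr 1
  rw [List.eq_replicate_iff]
  refine ⟨by simp, fun w hw => ?_⟩
  obtain ⟨j, -, rfl⟩ := List.mem_map.1 hw
  simp only [comp_apply, start]
  rw [if_neg (Nat.succ_ne_zero j)]
  split_ifs <;> rfl

theorem mem_start (m : ℕ) (y : Str) :
    mem (m + 1) (start y []) = item y ++ List.replicate m false := by
  unfold mem
  rw [Cc1_map, lenc_cons, Cc1_lenc]

private theorem Cc1_loop (v : Str) : ∀ (m : ℕ) (s : Store), s 28 = [true] →
    s 0 = List.replicate m true ++ false :: v →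
    Does O (Cmd.loop 28 (Cmd.pop 0 (unf 28) (unf 28) (Cmd.push 21 false))) s
      (update (update (update s 28 []) 0 v) 21 (List.replicate m false ++ s 21)) True
      (3 * m + 5) := by
  intro m
  induction m with
  | zero =>
    intro s h28 hs
    have h1 : Does O (Cmd.pop 0 (unf 28) (unf 28) (Cmd.push 21 false)) s
        (update (update s 0 v) 28 []) True 3 := by
      refine Spec.pop_false (w := v) hs ?_
      exact Spec.pop_true (w := []) (by rw [update_of_ne (by omega)]; exact h28) does_skip
    have h2 := Does.loop_cons (by rw [h28]; simp) h1 (fun _ => does_loop_nil (by rw [update_self]))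
    refine (Does.congr h2 (fun _ => ?_) (by simp)).mono (by omega)
    ext q : 1
    by_cases h1 : q = 21
    · subst h1
      simp
    · by_cases h2 : q = 0
      · subst h2
        simp
      · by_cases h3 : q = 28
        · subst h3
          simp
        · simp [h1, h2, h3]
  | succ m ih =>
    intro s h28 hs
    rw [List.replicate_succ, List.cons_append] at hs
    have h1 : Does O (Cmd.pop 0 (unf 28) (unf 28) (Cmd.push 21 false)) s
        (update (update s 0 (List.replicate m true ++ false :: v)) 21 (false :: s 21)) True 2 := by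
      refine Spec.pop_true hs ?_
      have := does_push (O := O) (s := update s 0 (List.replicate m true ++ false :: v)) 21 false
      rwa [update_of_ne (show (21 : ℕ) ≠ 0 by omega)] at this
    have h2 := Does.loop_cons (by rw [h28]; simp) h1
      (fun _ => ih (update (update s 0 (List.replicate m true ++ false :: v)) 21 (false :: s 21))
        (by rw [update_of_ne (by omega), update_of_ne (by omega)]; exact h28)
        (by rw [update_of_ne (by omega), update_self]))
    refine (Does.congr h2 (fun _ => ?_) (by simp)).mono (by omega)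
    have e : List.replicate m false ++ false :: s 21 =
        List.replicate (m + 1) false ++ s 21 := by
      rw [List.replicate_succ', List.append_assoc]
      rfl
    ext q : 1
    by_cases h1 : q = 21
    · subst h1
      rw [update_self, update_self, update_self, e]
    · by_cases h2 : q = 0
      · subst h2
        simp
      · by_cases h3 : q = 28
        · subst h3
          simp
        · simp [h1, h2, h3]

/-- The store with `x` on stack 0 and `y` nowhere. -/
theorem prep_does (m : ℕ) (c : Cmd) (x : Str) :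
    Does O prep (start (Y m c x) []) (St (start x []) (item (enc c)) (mem (m + 1) (start (Y m c x) [])))
      True (1000 * ((Y m c x).length + 1)) := by
  have h0 : ∀ y : Str, ∀ q, q ≠ 0 → start y [] q = [] := by
    intro y q hq
    unfold start
    rw [if_neg hq]
    split_ifs <;> rfl
  have h00 : ∀ y : Str, start y [] 0 = y := fun y => rfl
  have hlen : (Y m c x).length = m + 1 + (2 * (enc c).length + 1) + x.length := by
    unfold Y
    rw [List.length_append, List.length_replicate, List.length_cons, List.length_append,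
      item_length]
    omega
  rw [mem_start]
  obtain ⟨y, hy⟩ : ∃ y, y = Y m c x := ⟨_, rfl⟩
  rw [← hy] at hlen ⊢
  have hy' : y = List.replicate m true ++ false :: (item (enc c) ++ x) := hy
  have d1 := cpg_does (O := O) (s := start y []) id (r := 0) (u := 1) (h0 y 31 (by omega))
    (by omega) (by omega) (by omega)
  rw [h00, h0 y 1 (by omega), List.map_id, List.append_nil] at d1
  obtain ⟨s₁, hs₁⟩ : ∃ s₁, s₁ = update (start y []) 1 y := ⟨_, rfl⟩
  rw [← hs₁] at d1
  have g1 : ∀ q, q ≠ 0 → q ≠ 1 → s₁ q = [] := fun q h h' => by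
    rw [hs₁, update_of_ne h', h0 y q h]
  have d2 := does_push (O := O) (s := s₁) 28 true
  rw [g1 28 (by omega) (by omega)] at d2
  have d3 := Cc1_loop (O := O) (item (enc c) ++ x) m (update s₁ 28 [true]) (update_self ..)
    (by rw [update_of_ne (by omega), hs₁, update_of_ne (by omega), h00, hy'])
  rw [update_idem, update_of_ne (show (21 : ℕ) ≠ 28 by omega), g1 21 (by omega) (by omega),
    List.append_nil] at d3
  obtain ⟨s₃, hs₃⟩ : ∃ s₃, s₃ = update (update (update s₁ 28 []) 0 (item (enc c) ++ x)) 21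
    (List.replicate m false) := ⟨_, rfl⟩
  rw [← hs₃] at d3
  have g3 : ∀ q, q ≠ 0 → q ≠ 1 → q ≠ 21 → s₃ q = [] := fun q h h' h'' => by
    by_cases h3 : q = 28
    · rw [h3, hs₃, update_of_ne (by omega), update_of_ne (by omega), update_self]
    · rw [hs₃, update_of_ne h'', update_of_ne h, update_of_ne h3, g1 q h h']
  have g30 : s₃ 0 = item (enc c) ++ x := by rw [hs₃, update_of_ne (by omega), update_self]
  have g31 : s₃ 1 = y := by
    rw [hs₃, update_of_ne (by omega), update_of_ne (by omega), update_of_ne (by omega), hs₁,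
      update_self]
  have g321 : s₃ 21 = List.replicate m false := by rw [hs₃, update_self]
  have d4 := rd_does (O := O) (s := s₃) (r := 0) (u := 22) (g3 29 (by omega) (by omega) (by omega))
    (g3 31 (by omega) (by omega) (by omega)) (by omega) (by omega) (by omega) (by omega)
    (by omega) g30
  rw [g3 22 (by omega) (by omega) (by omega), List.append_nil] at d4
  obtain ⟨s₄, hs₄⟩ : ∃ s₄, s₄ = update (update s₃ 0 x) 22 (enc c) := ⟨_, rfl⟩
  rw [← hs₄] at d4
  have g4 : ∀ q, q ≠ 0 → q ≠ 22 → s₄ q = s₃ q := fun q h h' => by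
    rw [hs₄, update_of_ne h', update_of_ne h]
  have d5 := emt_does (O := O) (s := s₄) (r := 22) (u := 20)
    (by rw [g4 31 (by omega) (by omega)]; exact g3 31 (by omega) (by omega) (by omega))
    (by omega) (by omega) (by omega)
  have g422 : s₄ 22 = enc c := by rw [hs₄, update_self]
  rw [g422, g4 20 (by omega) (by omega), g3 20 (by omega) (by omega) (by omega),
    List.append_nil] at d5
  obtain ⟨s₅, hs₅⟩ : ∃ s₅, s₅ = update (update s₄ 22 []) 20 (item (enc c)) := ⟨_, rfl⟩
  rw [← hs₅] at d5
  have g5 : ∀ q, q ≠ 22 → q ≠ 20 → s₅ q = s₄ q := fun q h h' => by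
    rw [hs₅, update_of_ne h', update_of_ne h]
  have d6 := emt_does (O := O) (s := s₅) (r := 1) (u := 21)
    (by rw [g5 31 (by omega) (by omega), g4 31 (by omega) (by omega)]
        exact g3 31 (by omega) (by omega) (by omega))
    (by omega) (by omega) (by omega)
  rw [g5 1 (by omega) (by omega), g4 1 (by omega) (by omega), g31, g5 21 (by omega) (by omega),
    g4 21 (by omega) (by omega), g321] at d6
  unfold prep
  refine (Does.congr (Does.seq d1 (fun _ => Does.seq d2 (fun _ => Does.seq d3 (fun _ =>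
    Does.seq d4 (fun _ => Does.seq d5 (fun _ => d6)))))) (fun _ => ?_) (by simp)).mono ?_
  · unfold St
    ext q : 1
    by_cases h21 : q = 21
    · rw [h21, update_self, update_self]
    · rw [update_of_ne h21, update_of_ne h21]
      by_cases h1 : q = 1
      · rw [h1, update_self, update_of_ne (by omega), h0 x 1 (by omega)]
      · rw [update_of_ne h1]
        by_cases h20 : q = 20
        · rw [h20, update_self, hs₅, update_self]
        · rw [update_of_ne h20]
          by_cases h22 : q = 22
          · rw [h22, hs₅, update_of_ne (by omega), update_self, h0 x 22 (by omega)]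
          · rw [g5 q h22 h20]
            by_cases hq : q = 0
            · rw [hq, hs₄, update_of_ne (by omega), update_self, h00]
            · rw [g4 q hq h22, g3 q hq h1 h21, h0 x q hq]
  · omega

private theorem Cc2_time (a b c n : ℕ) :
    10 * a + 10 + (50 * (a + c + 1) + (3 * a + 1 + 200 * (n + 1) * (b + c + 1))) ≤
      200 * (n + 1 + 1) * (2 * a + 1 + b + c + 1) := by
  have h1 : 200 * (n + 1 + 1) * (2 * a + 1 + b + c + 1) =
      200 * (n + 1) * (b + c + 1) + 200 * (n + 1) * (2 * a + 1) +
        200 * (2 * a + 1 + b + c + 1) := by ring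
  rw [h1]
  omega

/-- Induction on `n`; `rd_does`, `eqf_does`, `clr_does`. -/
theorem cmps_does (l : List Str) (v : Str) (s : Store) (h5 : s 5 = []) (h27 : s 27 = [])
    (h28 : s 28 = []) (h29 : s 29 = []) (h31 : s 31 = []) (hs : s 21 = lenc l ++ v) :
    Does O (cmps l.length) s
      (update (update s 21 v) 6 ((l.map (fun q => decide (q = s 0))).reverse ++ s 6)) True
      (200 * (l.length + 1) * ((lenc l).length + (s 0).length + 1)) := by
  induction l generalizing s with
  | nil =>
    refine Does.mono (Does.congr does_skip (fun _ => ?_) Iff.rfl) (by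
      simp only [List.length_nil]
      omega)
    rw [lenc_nil, List.nil_append] at hs
    rw [← hs]
    simp
  | cons q l ih =>
    rw [lenc_cons, List.append_assoc] at hs
    have d1 := rd_does (O := O) (s := s) (r := 21) (u := 5) h29 h31 (by omega) (by omega)
      (by omega) (by omega) (by omega) hs
    rw [h5, List.append_nil] at d1
    obtain ⟨s₁, hs₁⟩ : ∃ s₁, s₁ = update (update s 21 (lenc l ++ v)) 5 q := ⟨_, rfl⟩
    rw [← hs₁] at d1
    have g1 : ∀ p, p ≠ 21 → p ≠ 5 → s₁ p = s p := fun p hp hp' => by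
      rw [hs₁, update_of_ne hp', update_of_ne hp]
    have g15 : s₁ 5 = q := by rw [hs₁, update_self]
    have g121 : s₁ 21 = lenc l ++ v := by rw [hs₁, update_of_ne (by omega), update_self]
    have d2 := eqf_does (O := O) (s := s₁) (r := 5) (u := 0) (f := 6)
      (by rw [g1 27 (by omega) (by omega), h27]) (by rw [g1 28 (by omega) (by omega), h28])
      (by rw [g1 29 (by omega) (by omega), h29]) (by rw [g1 31 (by omega) (by omega), h31])
      (by omega) (by omega) (by omega) (by omega) (by omega) (by omega) (by omega) (by omega)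
      (by omega) (by omega) (by omega) (by omega)
    rw [g15, g1 0 (by omega) (by omega), g1 6 (by omega) (by omega)] at d2
    obtain ⟨s₂, hs₂⟩ : ∃ s₂, s₂ = update s₁ 6 (decide (q = s 0) :: s 6) := ⟨_, rfl⟩
    rw [← hs₂] at d2
    have g2 : ∀ p, p ≠ 6 → s₂ p = s₁ p := fun p hp => by rw [hs₂, update_of_ne hp]
    have d3 := clr_does (O := O) (s := s₂) 5
    rw [g2 5 (by omega), g15] at d3
    obtain ⟨s₃, hs₃⟩ : ∃ s₃, s₃ = update s₂ 5 [] := ⟨_, rfl⟩
    rw [← hs₃] at d3
    have g3 : ∀ p, p ≠ 5 → s₃ p = s₂ p := fun p hp => by rw [hs₃, update_of_ne hp]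
    have g35 : s₃ 5 = [] := by rw [hs₃, update_self]
    have g30 : s₃ 0 = s 0 := by
      rw [g3 0 (by omega), g2 0 (by omega), g1 0 (by omega) (by omega)]
    have g36 : s₃ 6 = decide (q = s 0) :: s 6 := by
      rw [g3 6 (by omega), hs₂, update_self]
    have d4 := ih s₃ g35
      (by rw [g3 27 (by omega), g2 27 (by omega), g1 27 (by omega) (by omega), h27])
      (by rw [g3 28 (by omega), g2 28 (by omega), g1 28 (by omega) (by omega), h28])
      (by rw [g3 29 (by omega), g2 29 (by omega), g1 29 (by omega) (by omega), h29])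
      (by rw [g3 31 (by omega), g2 31 (by omega), g1 31 (by omega) (by omega), h31])
      (by rw [g3 21 (by omega), g2 21 (by omega), g121])
    rw [g30, g36] at d4
    refine (Does.congr (Does.seq d1 (fun _ => Does.seq d2 (fun _ => Does.seq d3 (fun _ => d4))))
      (fun _ => ?_) (by simp)).mono ?_
    · ext p : 1
      by_cases hp6 : p = 6
      · subst hp6
        simp
      · by_cases hp21 : p = 21
        · subst hp21
          simp
        · rw [update_of_ne hp6, update_of_ne hp21, update_of_ne hp6, update_of_ne hp21]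
          by_cases hp5 : p = 5
          · subst hp5
            rw [g35, h5]
          · rw [g3 p hp5, g2 p hp6, g1 p hp21 hp5]
    · have h1 := Cc2_time q.length (lenc l).length (s 0).length l.length
      rw [lenc_cons, List.length_append, item_length, List.length_cons]
      exact h1

/-- The last part, started with `x` on stack 0: the final store has `[true]` or `[]` on
stack 2. -/
theorem fin_spec (cA : Cmd) (kA : ℕ) : ∃ K : ℕ, ∀ (g : Bool × Bool) (s : Store), Low s →
    s 2 = [] → ∃ (s₁ : Store) (φ : Prop), Does O (fin cA kA g) s s₁ φ (2 ^ ((s 0).length ^ K + K)) ∧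
      (φ ∧ s₁ 2 ≠ [] ↔ Dc g (Acc O cA (s 0) [] (2 ^ ((s 0).length ^ kA + kA)))) := by
  obtain ⟨K, hK⟩ := call_does cA kA
  refine ⟨K + 2, fun g s hs h2 => ?_⟩
  have hn : 2 ^ ((s 0).length ^ K + K) + 1 ≤ 2 ^ ((s 0).length ^ (K + 2) + (K + 2)) := by
    have h3 : (s 0).length ^ K ≤ (s 0).length ^ (K + 2) + 1 := by
      rcases Nat.eq_zero_or_pos (s 0).length with h | h
      · rw [h]
        have : (0 : ℕ) ^ K ≤ 1 := by
          rcases Nat.eq_zero_or_pos K with h' | h'
          · rw [h', pow_zero]
          · rw [zero_pow (by omega)]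
            exact Nat.zero_le _
        exact this.trans (Nat.le_add_left 1 _)
      · have := Nat.pow_le_pow_right h (show K ≤ K + 2 by omega)
        omega
    have h4 : 2 ^ ((s 0).length ^ K + K + 1) ≤ 2 ^ ((s 0).length ^ (K + 2) + (K + 2)) :=
      Nat.pow_le_pow_right (by omega) (by omega)
    have h5 : 1 ≤ 2 ^ ((s 0).length ^ K + K) := Nat.one_le_two_pow
    rw [pow_succ] at h4
    omega
  have h1 : 1 ≤ 2 ^ ((s 0).length ^ (K + 2) + (K + 2)) := Nat.one_le_two_pow
  by_cases hg1 : g.1 = true
  · refine ⟨update s 2 (true :: s 2), True, ?_, ?_⟩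
    · unfold fin
      rw [if_pos hg1]
      exact Does.mono (does_push 2 true) h1
    · rw [update_self]
      simp [Dc, hg1]
  · by_cases hg2 : g.2 = true
    · have d1 := hK O s 0 30 (by omega) (by omega) hs
      rw [hs 30 le_rfl, List.length_nil, Nat.add_zero] at d1
      refine ⟨update s 2 (true :: s 2), Acc O cA (s 0) [] (2 ^ ((s 0).length ^ kA + kA)), ?_, ?_⟩
      · unfold fin
        rw [if_neg hg1, if_pos hg2]
        exact (Does.congr (Does.seq d1 (fun _ => does_push 2 true)) (fun _ => rfl)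
          (by simp)).mono hn
      · rw [update_self]
        simp [Dc, hg1, hg2]
    · refine ⟨s, True, ?_, ?_⟩
      · unfold fin
        rw [if_neg hg1, if_neg hg2]
        exact Does.mono does_skip h1
      · rw [h2]
        simp [Dc, hg1, hg2]

theorem cC_pow (n K : ℕ) (hK : 2 ≤ K) : 2 * n ≤ n ^ K + 1 := by
  rcases Nat.lt_or_ge n 2 with h | h
  · interval_cases n
    · simp
    · simp
  · have h1 : n ^ 2 ≤ n ^ K := Nat.pow_le_pow_right (by omega) hK
    have h2 : 2 * n ≤ n ^ 2 := by nlinarith
    omega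

theorem cC_powb (n K K' : ℕ) (hK : K ≤ K') : n ^ K ≤ n ^ K' + 1 := by
  rcases Nat.eq_zero_or_pos n with rfl | h
  · have : (0 : ℕ) ^ K ≤ 1 := by
      rcases Nat.eq_zero_or_pos K with rfl | h
      · simp
      · rw [zero_pow (by omega)]
        omega
    exact this.trans (Nat.le_add_left _ _)
  · have := Nat.pow_le_pow_right h hK
    omega

theorem cC_time (k K₁ n t B : ℕ) (ht : t ≤ 2 ^ n) (hB : B ≤ 3 * n + 1 + 2 * t) :
    1000 * (n + 1) + (2 * t * (bT (n + (3 * n + 1) + 2 * t) + 1) + ((10 * B + 10) +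
      (200 * (k + 1) * (B + n + 1) + (2 ^ (n ^ K₁ + K₁) + k + 2 ^ k)))) ≤
    2 ^ (n ^ (K₁ + k + 30) + (K₁ + k + 30)) := by
  have hnE : n ≤ 2 ^ n := Nat.lt_two_pow_self.le
  have hk1 : k + 1 ≤ 2 ^ k := Nat.lt_two_pow_self
  have h1E : 1 ≤ 2 ^ n := Nat.one_le_two_pow
  have key : 1000 * (n + 1) + (2 * t * (bT (n + (3 * n + 1) + 2 * t) + 1) + ((10 * B + 10) +
      200 * (k + 1) * (B + n + 1))) ≤ 20000 * (k + 1) * (2 ^ n * 2 ^ n) := by
    unfold bT
    generalize 2 ^ n = E at *
    have e1 : 1000 * (n + 1) ≤ 2000 * (E * E) := by nlinarith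
    have e2 : 2 * t * (1000 * (n + (3 * n + 1) + 2 * t + 1) + 1) ≤ 2 * E * (8001 * E) :=
      Nat.mul_le_mul (by omega) (by omega)
    have e3 : 10 * B + 10 ≤ 70 * (E * E) := by nlinarith
    have e4 : 200 * (k + 1) * (B + n + 1) ≤ 200 * (k + 1) * (8 * E) :=
      Nat.mul_le_mul_left _ (by omega)
    have e5 : E ≤ E * E := by nlinarith
    have e6 : 200 * (k + 1) * (8 * E) ≤ 1600 * (k + 1) * (E * E) := by nlinarith
    have e7 : 2 * E * (8001 * E) = 16002 * (E * E) := by ring
    have e8 : 0 ≤ k * (E * E) := Nat.zero_le _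
    nlinarith
  have h2 : 20000 * (k + 1) * (2 ^ n * 2 ^ n) ≤ 2 ^ (15 + k + 2 * n) := by
    have e : 2 ^ (15 + k + 2 * n) = 32768 * 2 ^ k * (2 ^ n * 2 ^ n) := by
      rw [pow_add, pow_add, two_mul, pow_add]
      norm_num
    rw [e]
    exact Nat.mul_le_mul_right _ (Nat.mul_le_mul (by norm_num) hk1)
  have h3 : k + 2 ^ k ≤ 2 ^ (15 + k + 2 * n) := by
    have e1 : 2 ^ (k + 1) ≤ 2 ^ (15 + k + 2 * n) := Nat.pow_le_pow_right (by omega) (by omega)
    rw [pow_succ] at e1
    omega
  have h4 := cC_pow n (K₁ + k + 30) (by omega)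
  have h5 := cC_powb n K₁ (K₁ + k + 30) (by omega)
  have h6 : 2 ^ (16 + k + 2 * n) ≤ 2 ^ (n ^ (K₁ + k + 30) + (K₁ + k + 29)) :=
    Nat.pow_le_pow_right (by omega) (by omega)
  have h7 : 2 ^ (n ^ K₁ + K₁) ≤ 2 ^ (n ^ (K₁ + k + 30) + (K₁ + k + 29)) :=
    Nat.pow_le_pow_right (by omega) (by omega)
  have h8 : 2 ^ (16 + k + 2 * n) = 2 * 2 ^ (15 + k + 2 * n) := by
    rw [show 16 + k + 2 * n = (15 + k + 2 * n) + 1 by ring, pow_succ]
    ring
  have h9 : 2 ^ (n ^ (K₁ + k + 30) + (K₁ + k + 30)) =
      2 * 2 ^ (n ^ (K₁ + k + 30) + (K₁ + k + 29)) := by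
    rw [show n ^ (K₁ + k + 30) + (K₁ + k + 30) = (n ^ (K₁ + k + 30) + (K₁ + k + 29)) + 1 by ring,
      pow_succ]
    ring
  rw [h9]
  omega

theorem loop_body_det : (Cmd.loop 20 body).Det := by
  simp [Cmd.Det, body, rd, cpg, exec, exPush, exSeq, exPop, exLoop, exQuery, seek, mvi, unf, mv,
    emt, takep, iterc, dri, clr]

theorem start_clean (x : Str) : Clean (start x []) := by
  intro r hr
  unfold start
  rw [if_neg (by omega), if_neg (by omega)]

theorem mem_start_length (m : ℕ) (y : Str) :
    (mem (m + 1) (start y [])).length = 2 * y.length + 1 + m := by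
  rw [mem_start, List.length_append, item_length, List.length_replicate]

/-- The memory is the table, the `k` queries, and the rest. -/
theorem mem_parts (k m : ℕ) (hk : k ≤ m) (s : Store) : ∃ v : Str,
    mem (m + 1) s = item (s 0) ++ (lenc ((List.range k).map (fun j => s (j + 1))) ++ v) := by
  refine ⟨lenc ((List.range (m - k)).map (fun j => s (k + j + 1))), ?_⟩
  have h1 : List.range (m + 1) = 0 :: (List.range m).map Nat.succ := List.range_succ_eq_map
  have h2 : List.range m = List.range k ++ (List.range (m - k)).map (fun j => k + j) := by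
    conv_lhs => rw [show m = k + (m - k) by omega]
    exact List.range_add
  unfold mem
  rw [h1, List.map_cons, lenc_cons, h2, List.map_append, List.map_append, lenc_append]
  simp only [List.map_map]
  rfl

/-- The program of the set on the strings `Y m c x` for reductions `c`. -/
theorem cC_spec (k : ℕ) (cA : Cmd) (kA : ℕ) : ∃ K : ℕ, ∀ (c : Cmd) (m : ℕ) (x : Str) (t : ℕ)
    (s' : Store), c.Det → c.bd ≤ m → k + 1 ≤ m → cb c ≤ m →
    Run O c (start (Y m c x) []) t s' → t ≤ 2 ^ (Y m c x).length →
    (Acc O (cC k cA kA) (Y m c x) [] (2 ^ ((Y m c x).length ^ K + K)) ↔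
      Dc (gch k (s' 0) (fun j => s' (j + 1) = x)) (Acc O cA x [] (2 ^ (x.length ^ kA + kA)))) := by
  obtain ⟨K₁, hfin⟩ := fin_spec (O := O) cA kA
  refine ⟨K₁ + k + 30, fun c m x t s' hdet hbd hk hcb hrun ht => ?_⟩
  obtain ⟨y, hy⟩ : ∃ y, y = Y m c x := ⟨_, rfl⟩
  have hmy : m ≤ y.length := by rw [hy]; simp [Y]
  have hxy : x.length ≤ y.length := by
    rw [hy]
    simp only [Y, List.length_append, List.length_cons]
    omega
  have d1 := prep_does (O := O) m c x
  have hcl := start_clean x
  have d2 := does_of_fwd loop_body_det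
    (interp hrun hdet (R := m + 1) (by omega) hcl)
  rw [← hy] at d1 d2 hrun ht ⊢
  have hml := mem_start_length m y
  have hmr := mem_length_run (R := m + 1) hrun
  obtain ⟨v, hv⟩ := mem_parts k m (by omega) s'
  have hmem' : (mem (m + 1) s').length ≤ 3 * y.length + 1 + 2 * t := by omega
  obtain ⟨l, hl⟩ : ∃ l, l = (List.range k).map (fun j => s' (j + 1)) := ⟨_, rfl⟩
  have hll : l.length = k := by rw [hl]; simp
  rw [← hl] at hv
  obtain ⟨S₂, hS₂⟩ : ∃ S₂, S₂ = St (start x []) [] (mem (m + 1) s') := ⟨_, rfl⟩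
  rw [← hS₂] at d2
  have g2 : ∀ q, q ≠ 0 → q ≠ 21 → S₂ q = [] := by
    intro q hq hq'
    rw [hS₂]
    unfold St
    rw [update_of_ne hq']
    by_cases h20 : q = 20
    · subst h20
      rw [update_self]
    · rw [update_of_ne h20]
      unfold start
      rw [if_neg hq]
      split_ifs <;> rfl
  have g20 : S₂ 0 = x := by
    rw [hS₂]
    unfold St
    rw [update_of_ne (by omega), update_of_ne (by omega)]
    rfl
  have g21 : S₂ 21 = item (s' 0) ++ (lenc l ++ v) := by
    rw [hS₂]
    unfold St
    rw [update_self, hv]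
  have d3 := rd_does (O := O) (s := S₂) (r := 21) (u := 4) (g2 29 (by omega) (by omega))
    (g2 31 (by omega) (by omega)) (by omega) (by omega) (by omega) (by omega) (by omega) g21
  rw [g2 4 (by omega) (by omega), List.append_nil] at d3
  obtain ⟨S₃, hS₃⟩ : ∃ S₃, S₃ = update (update S₂ 21 (lenc l ++ v)) 4 (s' 0) := ⟨_, rfl⟩
  rw [← hS₃] at d3
  have g3 : ∀ q, q ≠ 4 → q ≠ 21 → S₃ q = S₂ q := by
    intro q hq hq'
    rw [hS₃, update_of_ne hq, update_of_ne hq']
  have d4 := cmps_does (O := O) l v S₃
    (by rw [g3 _ (by omega) (by omega), g2 _ (by omega) (by omega)])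
    (by rw [g3 _ (by omega) (by omega), g2 _ (by omega) (by omega)])
    (by rw [g3 _ (by omega) (by omega), g2 _ (by omega) (by omega)])
    (by rw [g3 _ (by omega) (by omega), g2 _ (by omega) (by omega)])
    (by rw [g3 _ (by omega) (by omega), g2 _ (by omega) (by omega)])
    (by rw [hS₃, update_of_ne (by omega), update_self])
  rw [g3 6 (by omega) (by omega), g2 6 (by omega) (by omega), List.append_nil,
    g3 0 (by omega) (by omega), g20, hll] at d4
  obtain ⟨Jr, hJr⟩ : ∃ Jr, Jr = (l.map (fun q => decide (q = x))).reverse := ⟨_, rfl⟩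
  have hJl : Jr.length = k := by
    rw [hJr, List.length_reverse, List.length_map, hll]
  rw [← hJr] at d4
  obtain ⟨S₄, hS₄⟩ : ∃ S₄, S₄ = update (update S₃ 21 v) 6 Jr := ⟨_, rfl⟩
  rw [← hS₄] at d4
  have g4 : ∀ q, q ≠ 6 → q ≠ 21 → S₄ q = S₃ q := by
    intro q hq hq'
    rw [hS₄, update_of_ne hq, update_of_ne hq']
  have g44 : S₄ 4 = s' 0 := by
    rw [g4 4 (by omega) (by omega), hS₃, update_self]
  have g46 : S₄ 6 = Jr := by rw [hS₄, update_self]
  -- the last part
  obtain ⟨S₅, hS₅⟩ : ∃ S₅, S₅ = update S₄ 4 ((s' 0).drop (2 ^ k)) := ⟨_, rfl⟩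
  obtain ⟨S₆, hS₆⟩ : ∃ S₆, S₆ = update S₅ 6 (Jr.drop k) := ⟨_, rfl⟩
  have g5 : ∀ q, q ≠ 4 → S₅ q = S₄ q := by
    intro q hq
    rw [hS₅, update_of_ne hq]
  have g6 : ∀ q, q ≠ 6 → S₆ q = S₅ q := by
    intro q hq
    rw [hS₆, update_of_ne hq]
  have hlow : Low S₆ := by
    intro q hq
    rw [g6 q (by omega), g5 q (by omega), g4 q (by omega) (by omega), g3 q (by omega) (by omega),
      g2 q (by omega) (by omega)]
  have h60 : S₆ 0 = x := by
    rw [g6 0 (by omega), g5 0 (by omega), g4 0 (by omega) (by omega), g3 0 (by omega) (by omega),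
      g20]
  have h62 : S₆ 2 = [] := by
    rw [g6 2 (by omega), g5 2 (by omega), g4 2 (by omega) (by omega), g3 2 (by omega) (by omega),
      g2 2 (by omega) (by omega)]
  obtain ⟨w, hw⟩ : ∃ w, w = padw (2 ^ k) (s' 0) := ⟨_, rfl⟩
  obtain ⟨s₁, φ, d5, hφ⟩ := hfin (gch k w (plc (padw k Jr))) S₆ hlow h62
  have d6 : Spec O (dt 6 k (fun Jr => fin cA kA (gch k w (plc Jr)))) S₅
      (fun s' => s' = s₁ ∧ φ) (2 ^ ((S₆ 0).length ^ K₁ + K₁) + k) := by
    refine dt_spec k (fun Jr => fin cA kA (gch k w (plc Jr))) S₅ ?_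
    rw [g5 6 (by omega), g46, ← hS₆]
    exact d5
  have d7 : Spec O (dt 4 (2 ^ k) (fun w => dt 6 k (fun Jr => fin cA kA (gch k w (plc Jr))))) S₄
      (fun s' => s' = s₁ ∧ φ) (2 ^ ((S₆ 0).length ^ K₁ + K₁) + k + 2 ^ k) := by
    refine dt_spec (2 ^ k) (fun w => dt 6 k (fun Jr => fin cA kA (gch k w (plc Jr)))) S₄ ?_
    rw [g44, ← hS₅, ← hw]
    exact d6
  have hall : Does O (cC k cA kA) (start y []) s₁ (True ∧ True ∧ True ∧ True ∧ φ) _ :=
    Does.seq d1 fun _ => Does.seq d2 fun _ => Does.seq d3 fun _ => Does.seq d4 fun _ => d7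
  have hall' : Does O (cC k cA kA) (start y []) s₁ φ
      (2 ^ (y.length ^ (K₁ + k + 30) + (K₁ + k + 30))) := by
    refine (Does.congr hall (fun _ => rfl) (by simp)).mono ?_
    refine le_trans ?_ (cC_time k K₁ y.length t (mem (m + 1) s').length ht hmem')
    rw [h60]
    have e1 : (s' 0).length ≤ (mem (m + 1) s').length ∧
        (lenc l).length ≤ (mem (m + 1) s').length := by
      rw [hv]
      simp only [List.length_append, item_length]
      omega
    have e2 : 2 ^ (x.length ^ K₁ + K₁) ≤ 2 ^ (y.length ^ K₁ + K₁) :=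
      Nat.pow_le_pow_right (by omega) (Nat.add_le_add_right (Nat.pow_le_pow_left hxy _) _)
    have e3 : 200 * (k + 1) * ((lenc l).length + x.length + 1) ≤
        200 * (k + 1) * ((mem (m + 1) s').length + y.length + 1) :=
      Nat.mul_le_mul_left _ (by omega)
    have e4 : 2 * t * (bT (cb c + (mem (m + 1) (start y [])).length + 2 * t) + 1) ≤
        2 * t * (bT (y.length + (3 * y.length + 1) + 2 * t) + 1) := by
      refine Nat.mul_le_mul_left _ ?_
      unfold bT
      omega
    omega
  have hg : gch k w (plc (padw k Jr)) = gch k (s' 0) (fun j => s' (j + 1) = x) := by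
    rw [hw, gch_padw]
    refine gch_congr fun j hj => ?_
    have e1 : padw k Jr = Jr := by
      conv_lhs => rw [← hJl]
      exact padw_self Jr
    have e2 : Jr = ((List.range k).map (fun j => decide (s' (j + 1) = x))).reverse := by
      rw [hJr, hl, List.map_map]
      rfl
    rw [e1, e2, plc_spec (fun j => decide (s' (j + 1) = x)) k j hj]
    simp
  rw [hg, h60] at hφ
  rw [← hφ]
  constructor
  · rintro ⟨t', ht', s'', hr'', hs''⟩
    obtain ⟨rfl, h1⟩ := hall'.1 _ _ hr''
    exact ⟨h1, hs''⟩
  · rintro ⟨h1, h2⟩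
    obtain ⟨t', ht', hr'⟩ := hall'.2 s₁ ⟨rfl, h1⟩
    exact ⟨t', ht', s₁, hr', h2⟩

end Pool.Agent.Helper5.AP
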