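import Pool.Agent.Helper5.SY.Call
import Pool.Agent.Helper5.AN.Det

/-!
# Good truth tables, and an interpreter for deterministic programs

Project AP (MP_4a5e7e_lc): sets that are complete for NEXP under truth table reductions with
`k` queries and good tables are autoreducible.
-/

namespace Pool.Agent.Helper5.AP

open Pool.Agent.Helper5.SX Function

/-! ### reductions and tables -/

open Classical in
/-- The value of the truth table `w` (a string of bits, read as `0` beyond its end) at the answers
`a 0, …, a (k - 1)`: the bit of `w` whose number has the answers as binary digits. -/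
noncomputable def tab (k : ℕ) (w : Str) (a : ℕ → Prop) : Bool :=
  w.getD (∑ j ∈ Finset.range k, if a j then 2 ^ j else 0) false

/-- The answers `a`, with `b` at the places `J`. -/
def sub (J : ℕ → Prop) (b : Prop) (a : ℕ → Prop) : ℕ → Prop := fun j => (J j ∧ b) ∨ (¬ J j ∧ a j)

/-- The table has, at the places `J`, a restriction with the values `u`, `v` at `0`, `1`. -/
def Has (k : ℕ) (w : Str) (J : ℕ → Prop) (u v : Bool) : Prop :=
  ∃ a : ℕ → Prop, tab k w (sub J False a) = u ∧ tab k w (sub J True a) = v

/-- Good tables: for no set `J` of places, the answers at the places `J` being equal to one bit and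
the other answers being fixed, the table is constantly `0` for some answers at the other places,
equal to the bit for some, and constantly `1` for some. -/
def Good (k : ℕ) (w : Str) : Prop :=
  ∀ J : ℕ → Prop, ¬ (Has k w J false false ∧ Has k w J false true ∧ Has k w J true true)

/-- `B` is reducible to `A` in polynomial time relative to `O` with `k` queries and with truth
tables in `Γ`: a deterministic program with the oracle `O` writes a truth table on stack `0` and
`k` queries on the stacks `1, …, k` within `n ^ r + r` steps, and the table applied to the answers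
of `A` decides `B`. -/
def KttR (O : Set Str) (k : ℕ) (Γ : Set Str) (B A : Set Str) : Prop :=
  ∃ g : Cmd, g.Det ∧ ∃ r : ℕ, ∀ x : Str, ∃ t ≤ x.length ^ r + r, ∃ s' : Store,
    Run O g (start x []) t s' ∧ s' 0 ∈ Γ ∧
      (x ∈ B ↔ tab k (s' 0) (fun j => s' (j + 1) ∈ A) = true)

/-- `A` is `k`-truth-table autoreducible: reducible to itself by a reduction with `k` queries that
never asks its own input. -/
def AutoKtt (O : Set Str) (k : ℕ) (A : Set Str) : Prop :=
  ∃ g : Cmd, g.Det ∧ ∃ r : ℕ, ∀ x : Str, ∃ t ≤ x.length ^ r + r, ∃ s' : Store,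
    Run O g (start x []) t s' ∧ (∀ j < k, s' (j + 1) ≠ x) ∧
      (x ∈ A ↔ tab k (s' 0) (fun j => s' (j + 1) ∈ A) = true)

/-! ### the choice for a table and the places of the input -/

open Classical in
/-- A pair of bits that is not a restriction. -/
noncomputable def gch (k : ℕ) (w : Str) (J : ℕ → Prop) : Bool × Bool :=
  if ¬ Has k w J false true then (false, true)
  else if ¬ Has k w J false false then (false, false) else (true, true)

/-- What the set does. -/
def Dc (g : Bool × Bool) (φ : Prop) : Prop := (g.1 = true) ∨ (g.2 = true ∧ φ)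

/-- The new table. -/
noncomputable def newtab (k : ℕ) (w : Str) (J : ℕ → Prop) : Str :=
  (List.range (2 ^ k)).map
    (fun i => tab k w (sub J True (fun j => i.testBit j = true)) == (gch k w J).2)

/-- The first `n` bits, with `0` beyond the end. -/
def padw : ℕ → Str → Str
  | 0, _ => []
  | n + 1, w => w.headD false :: padw n w.tail

/-- The places given by a string of bits, last place first. -/
def plc (Jr : Str) : ℕ → Prop := fun j => Jr.reverse.getD j false = true

/-! ### items -/

/-- The code of a string in a list. -/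
def item (w : Str) : Str := w.flatMap (fun b => [true, b]) ++ [false]

/-- The code of a list of strings. -/
def lenc (l : List Str) : Str := l.flatMap item

/-- Move stack `r` on stack `u` (reversed). -/
def mv (r u : ℕ) : Cmd := Cmd.loop r (Cmd.pop r Cmd.skip (Cmd.push u false) (Cmd.push u true))

/-- Put the item of stack `r`, reversed, on stack `u`, and empty `r`. -/
def emt (r u : ℕ) : Cmd :=
  Cmd.seq (mv r 31) (Cmd.seq (Cmd.push u false) (Cmd.loop 31 (Cmd.pop 31 Cmd.skip
    (Cmd.seq (Cmd.push u false) (Cmd.push u true)) (Cmd.seq (Cmd.push u true) (Cmd.push u true)))))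

/-- Remove the only symbol of stack `f`. -/
def unf (f : ℕ) : Cmd := Cmd.pop f Cmd.skip Cmd.skip Cmd.skip

/-- Decode the item on the top of stack `r` on stack `u`. -/
def rd (r u : ℕ) : Cmd :=
  Cmd.seq (Cmd.push 29 true) (Cmd.seq
    (Cmd.loop 29 (Cmd.pop r (unf 29) (unf 29) (Cmd.pop r Cmd.skip (Cmd.push 31 false)
      (Cmd.push 31 true)))) (mv 31 u))

/-- Move the item on the top of stack `r` to stack `u` (reversed). -/
def mvi (r u : ℕ) : Cmd :=
  Cmd.seq (Cmd.push 29 true)
    (Cmd.loop 29 (Cmd.pop r (unf 29) (Cmd.seq (unf 29) (Cmd.push u false))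
      (Cmd.seq (Cmd.push u true) (Cmd.pop r Cmd.skip (Cmd.push u false) (Cmd.push u true)))))

/-- Remove the item on the top of stack `r`. -/
def dri (r : ℕ) : Cmd :=
  Cmd.seq (Cmd.push 29 true)
    (Cmd.loop 29 (Cmd.pop r (unf 29) (unf 29) (Cmd.pop r Cmd.skip Cmd.skip Cmd.skip)))

/-- Put the string `w` on top of stack `u`. -/
def pushs : Str → ℕ → Cmd
  | [], _ => Cmd.skip
  | b :: w, u => Cmd.seq (pushs w u) (Cmd.push u b)

/-- Push the bit `s r = s u` on stack `f` (through stacks 27, 28, 29, 31). -/
def eqf (r u f : ℕ) : Cmd :=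
  Cmd.seq (cpg id r 27) (Cmd.seq (cpg id u 28) (Cmd.seq (Cmd.push 29 true)
    (Cmd.seq (Cmd.loop 27 (Cmd.pop 27 Cmd.skip
        (Cmd.pop 28 (clr 29) Cmd.skip (clr 29))
        (Cmd.pop 28 (clr 29) (clr 29) Cmd.skip)))
      (Cmd.seq (Cmd.pop 28 Cmd.skip (clr 29) (clr 29))
        (Cmd.seq (clr 28) (Cmd.pop 29 (Cmd.push f false) Cmd.skip (Cmd.push f true)))))))

/-- Read `n` bits from stack `r` (`0` if it is empty) and go on with `F` of these bits. -/
def dt (r : ℕ) : ℕ → (Str → Cmd) → Cmd
  | 0, F => F []
  | n + 1, F => Cmd.pop r (dt r n (fun w => F (false :: w))) (dt r n (fun w => F (false :: w)))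
      (dt r n (fun w => F (true :: w)))

/-! ### the interpreter: continuation on stack 20, memory on stack 21 -/

/-- Codes of deterministic programs. -/
def enc : Cmd → Str
  | Cmd.skip => [false, false, false]
  | Cmd.push r b => false :: false :: true :: b :: (List.replicate r true ++ [false])
  | Cmd.seq c d => false :: true :: false :: lenc [enc c, enc d]
  | Cmd.pop r c₀ c₁ c₂ =>
    false :: true :: true :: (List.replicate r true ++ false :: lenc [enc c₀, enc c₁, enc c₂])
  | Cmd.loop r c => true :: false :: false :: (List.replicate r true ++ false :: lenc [enc c])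
  | Cmd.query r c d =>
    true :: false :: true :: (List.replicate r true ++ false :: lenc [enc c, enc d])
  | Cmd.choose _ _ => [true, true, false]

/-- From `1^n 0` on top of stack 22: move `n` items from stack 21 to stack 24. -/
def seek : Cmd :=
  Cmd.seq (Cmd.push 28 true) (Cmd.loop 28 (Cmd.pop 22 (unf 28) (unf 28) (mvi 21 24)))

/-- Put the item number `i` of the list on stack 22 on top of stack 20, and empty stack 22. -/
def takep (i : ℕ) : Cmd :=
  Cmd.seq (iterc (dri 22) i) (Cmd.seq (mvi 22 23) (Cmd.seq (clr 22) (mv 23 20)))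

def exPush : Cmd :=
  Cmd.pop 22 Cmd.skip
    (Cmd.seq seek (Cmd.seq (Cmd.push 21 false) (Cmd.seq (Cmd.push 21 true) (mv 24 21))))
    (Cmd.seq seek (Cmd.seq (Cmd.push 21 true) (Cmd.seq (Cmd.push 21 true) (mv 24 21))))

def exSeq : Cmd := Cmd.seq (mv 22 23) (mv 23 20)

def exPop : Cmd :=
  Cmd.seq seek (Cmd.pop 21 Cmd.skip
    (Cmd.seq (Cmd.push 21 false) (Cmd.seq (mv 24 21) (takep 0)))
    (Cmd.pop 21 Cmd.skip (Cmd.seq (mv 24 21) (takep 1)) (Cmd.seq (mv 24 21) (takep 2))))

def exLoop : Cmd :=
  Cmd.seq seek (Cmd.pop 21 Cmd.skip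
    (Cmd.seq (Cmd.push 21 false) (Cmd.seq (mv 24 21) (clr 22)))
    (Cmd.seq (Cmd.push 21 true) (Cmd.seq (mv 24 21) (Cmd.seq (emt 26 20) (takep 0)))))

def exQuery : Cmd :=
  Cmd.seq seek (Cmd.seq (rd 21 25) (Cmd.query 25
    (Cmd.seq (emt 25 21) (Cmd.seq (mv 24 21) (takep 0)))
    (Cmd.seq (emt 25 21) (Cmd.seq (mv 24 21) (takep 1)))))

/-- Execute the command on stack 22 (a copy is on stack 26). -/
def exec : Cmd :=
  Cmd.pop 22 Cmd.skip
    (Cmd.pop 22 Cmd.skip
      (Cmd.pop 22 Cmd.skip Cmd.skip exPush)
      (Cmd.pop 22 Cmd.skip exSeq exPop))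
    (Cmd.pop 22 Cmd.skip
      (Cmd.pop 22 Cmd.skip exLoop exQuery)
      Cmd.skip)

/-- One step of the interpreter. -/
def body : Cmd := Cmd.seq (rd 20 22) (Cmd.seq (cpg id 22 26) (Cmd.seq exec (clr 26)))

/-- The memory. -/
def mem (R : ℕ) (s : Store) : Str := lenc ((List.range R).map s)

/-- The stores of the interpreter. -/
def St (σ : Store) (K μ : Str) : Store := update (update σ 20 K) 21 μ

def Clean (σ : Store) : Prop := ∀ r, 22 ≤ r → σ r = []

/-- Bound for the continuation. -/
def cb : Cmd → ℕ
  | Cmd.skip => (item (enc Cmd.skip)).length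
  | Cmd.push r b => (item (enc (Cmd.push r b))).length
  | Cmd.seq c d => (item (enc (Cmd.seq c d))).length + cb c + cb d
  | Cmd.pop r c₀ c₁ c₂ => (item (enc (Cmd.pop r c₀ c₁ c₂))).length + cb c₀ + cb c₁ + cb c₂
  | Cmd.loop r c => (item (enc (Cmd.loop r c))).length + cb c
  | Cmd.query r c d => (item (enc (Cmd.query r c d))).length + cb c + cb d
  | Cmd.choose c d => (item (enc (Cmd.choose c d))).length + cb c + cb d

/-- Bound for the time of `body`. -/
def bT (N : ℕ) : ℕ := 1000 * (N + 1)

/-! ### the program of the set -/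

/-- The string for the program `c` and the input `x`. -/
def Y (m : ℕ) (c : Cmd) (x : Str) : Str :=
  List.replicate m true ++ false :: (item (enc c) ++ x)

/-- Prepare the interpreter. -/
def prep : Cmd :=
  Cmd.seq (cpg id 0 1) (Cmd.seq (Cmd.push 28 true) (Cmd.seq
    (Cmd.loop 28 (Cmd.pop 0 (unf 28) (unf 28) (Cmd.push 21 false)))
    (Cmd.seq (rd 0 22) (Cmd.seq (emt 22 20) (emt 1 21)))))

/-- Decode `n` items from stack 21 and push the results of the comparison with stack 0 on stack
6. -/
def cmps : ℕ → Cmd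
  | 0 => Cmd.skip
  | n + 1 => Cmd.seq (rd 21 5) (Cmd.seq (eqf 5 0 6) (Cmd.seq (clr 5) (cmps n)))

/-- The last part. -/
noncomputable def fin (cA : Cmd) (kA : ℕ) (g : Bool × Bool) : Cmd :=
  if g.1 then Cmd.push 2 true else if g.2 then Cmd.seq (call cA kA 0 30) (Cmd.push 2 true)
  else Cmd.skip

/-- The program of the set. -/
noncomputable def cC (k : ℕ) (cA : Cmd) (kA : ℕ) : Cmd :=
  Cmd.seq prep (Cmd.seq (Cmd.loop 20 body) (Cmd.seq (rd 21 4) (Cmd.seq (cmps k)
    (dt 4 (2 ^ k) (fun w => dt 6 k (fun Jr => fin cA kA (gch k w (plc Jr))))))))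

/-! ### the program of the autoreduction -/

/-- The query number `j`: compare it with `x` (stack 0), push the result on stack 6, put the query
or, if it is `x`, the string `0x` on stack `2j+36`. -/
def arq (j : ℕ) : Cmd :=
  Cmd.seq (eqf (2 * j + 35) 0 6) (Cmd.pop 6 Cmd.skip
    (Cmd.seq (Cmd.push 6 false) (Cmd.seq (mv (2 * j + 35) 31) (mv 31 (2 * j + 36))))
    (Cmd.seq (Cmd.push 6 true) (Cmd.seq (cpg id 0 (2 * j + 36)) (Cmd.push (2 * j + 36) false))))

/-- The queries with numbers below `n`. -/
def arqs : ℕ → Cmd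
  | 0 => Cmd.skip
  | n + 1 => Cmd.seq (arqs n) (arq n)

/-- Move the stacks `34, 36, …` to the stacks `0, 1, …, n-1` (through stack `X`). -/
def outp (X : ℕ) : ℕ → Cmd
  | 0 => Cmd.skip
  | n + 1 => Cmd.seq (outp X n) (Cmd.seq (clr n) (Cmd.seq (mv (2 * n + 34) X) (mv X n)))

/-- The program of the autoreduction. -/
noncomputable def ar (k m : ℕ) (c : Cmd) : Cmd :=
  Cmd.seq (cpg id 0 33) (Cmd.seq (pushs (List.replicate m true ++ false :: item (enc c)) 33)
    (Cmd.seq (ren c) (Cmd.seq (arqs k)
      (Cmd.seq (dt 33 (2 ^ k) (fun w => dt 6 k (fun Jr => pushs (newtab k w (plc Jr)) 34)))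
        (outp (2 * k + 36) (k + 1))))))

end Pool.Agent.Helper5.AP
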