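import Pool.Agent.Helper5.AP.Defs

/-!
# Deterministic programs, forward runs
-/

namespace Pool.Agent.Helper5.AP

open Pool.Agent.Helper5.SX Function

variable {O : Set Str} {c d c₀ c₁ c₂ : Cmd} {s s₁ s₂ : Store} {T T' : ℕ} {r : ℕ} {w : Str}
  {R : Store → Prop}

/-- The program leads from `s` to `s₁` within `T` steps. -/
def Fwd (O : Set Str) (c : Cmd) (s s₁ : Store) (T : ℕ) : Prop := ∃ t ≤ T, Run O c s t s₁

theorem Fwd.mono (h : Fwd O c s s₁ T) (hT : T ≤ T') : Fwd O c s s₁ T' := by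
  obtain ⟨t, ht, hr⟩ := h
  exact ⟨t, ht.trans hT, hr⟩

theorem Fwd.seq (h : Fwd O c s s₁ T) (h' : Fwd O d s₁ s₂ T') :
    Fwd O (Cmd.seq c d) s s₂ (T + T') := by
  obtain ⟨t, ht, hr⟩ := h
  obtain ⟨t', ht', hr'⟩ := h'
  exact ⟨t + t', by omega, Run.seq hr hr'⟩

theorem fwd_of_does (h : Does O c s s₁ True T) : Fwd O c s s₁ T := h.2 s₁ ⟨rfl, trivial⟩

theorem does_of_fwd (hc : c.Det) (h : Fwd O c s s₁ T) : Does O c s s₁ True T := by
  obtain ⟨t, ht, hr⟩ := h
  constructor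
  · intro t' s' hr'
    exact ⟨(AN.run_det hc hr hr').1.symm, trivial⟩
  · rintro s' ⟨rfl, -⟩
    exact ⟨t, ht, hr⟩

theorem spec_query_yes (hs : s r ∈ O) (h : Spec O c s R T) :
    Spec O (Cmd.query r c d) s R (T + 1) := by
  constructor
  · intro t s' hr
    cases hr with
    | query_yes h1 h2 => exact h.1 _ _ h2
    | query_no h1 h2 => exact absurd hs h1
  · intro s' h1
    obtain ⟨t, ht, hr⟩ := h.2 s' h1
    exact ⟨t + 1, by omega, Run.query_yes hs hr⟩

theorem spec_query_no (hs : s r ∉ O) (h : Spec O d s R T) :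
    Spec O (Cmd.query r c d) s R (T + 1) := by
  constructor
  · intro t s' hr
    cases hr with
    | query_yes h1 h2 => exact absurd h1 hs
    | query_no h1 h2 => exact h.1 _ _ h2
  · intro s' h1
    obtain ⟨t, ht, hr⟩ := h.2 s' h1
    exact ⟨t + 1, by omega, Run.query_no hs hr⟩

end Pool.Agent.Helper5.AP
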