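import Pool.Agent.Helper5.AP.CC
import Pool.Agent.Helper5.AP.AR

/-!
# Sets that are complete under reductions with good tables are autoreducible
-/

namespace Pool.Agent.Helper5.AP

open Pool.Agent.Helper5.SX Function

variable {O : Set Str}

theorem exists_pad (r : ℕ) (B : ℕ) : ∃ m : ℕ, B ≤ m ∧ ∀ n, m ≤ n → n ^ r + r ≤ 2 ^ n := by
  have h1 : ∀ᶠ n : ℕ in Filter.atTop, n ^ (r + 1) < 2 ^ n := by
    have h := tendsto_pow_const_div_const_pow_of_one_lt (r + 1) (show (1 : ℝ) < 2 by norm_num)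
    have h2 := h.eventually (gt_mem_nhds (show (0 : ℝ) < 1 by norm_num))
    filter_upwards [h2] with n hn
    have h3 : (0 : ℝ) < 2 ^ n := by positivity
    rw [div_lt_one h3] at hn
    exact_mod_cast hn
  obtain ⟨m₀, hm₀⟩ := Filter.eventually_atTop.1 h1
  refine ⟨max B (max m₀ (r + 2)), le_max_left _ _, fun n hn => ?_⟩
  have h2 : m₀ ≤ n := (le_max_left _ _).trans ((le_max_right _ _).trans hn)
  have h3 : r + 2 ≤ n := (le_max_right _ _).trans ((le_max_right _ _).trans hn)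
  refine le_trans ?_ (hm₀ n h2).le
  have h4 : n ^ (r + 1) = n ^ r * n := pow_succ n r
  have h5 : 1 ≤ n ^ r := Nat.one_le_pow _ _ (by omega)
  rw [h4]
  nlinarith

theorem Y_length (m : ℕ) (c : Cmd) (x : Str) : m ≤ (Y m c x).length := by
  simp [Y]

/-- The main theorem. -/
theorem main (O : Set Str) (k : ℕ) (A : Set Str) (hA : A ∈ NEXP O)
    (h : ∀ B ∈ NEXP O, KttR O k {w | Good k w} B A) : AutoKtt O k A := by
  obtain ⟨kA, cA, hcA⟩ := hA
  obtain ⟨K, hK⟩ := cC_spec (O := O) k cA kA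
  obtain ⟨g, hg, r, hgr⟩ := h {y | Acc O (cC k cA kA) y [] (2 ^ (y.length ^ K + K))}
    ⟨K, cC k cA kA, fun y => Iff.rfl⟩
  obtain ⟨m, hm, hm'⟩ := exists_pad r (max g.bd (max (k + 1) (cb g)))
  obtain ⟨r', hr'⟩ := ar_spec (O := O) k m g r (fun x => by
    obtain ⟨t, ht, s', hs', -⟩ := hgr x
    exact ⟨t, ht, s', hs'⟩)
  refine ⟨ar k m g, ar_det k m hg, r', fun x => ?_⟩
  obtain ⟨t, ht, s'', hs'', hout⟩ := hr' x
  refine ⟨t, ht, s'', hs'', ?_⟩
  obtain ⟨t', ht', s', hs', hgood, hred⟩ := hgr (Y m g x)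
  obtain ⟨h0, hj⟩ := hout t' s' hs' hg
  have hne : ∀ j < k, s'' (j + 1) ≠ x := by
    intro j hjk
    rw [hj j hjk]
    split_ifs with hx
    · intro h1
      have := congrArg List.length h1
      simp at this
    · exact hx
  refine ⟨hne, ?_⟩
  have hspec := hK g m x t' s' hg (by omega) (by omega) (by omega) hs'
    (ht'.trans (hm' _ (Y_length m g x)))
  rw [h0]
  refine last_step (φ := x ∈ A) (a := fun j => s' (j + 1) ∈ A) hgood ?_ ?_ ?_
  · intro j _ hjx
    have hjx' : s' (j + 1) = x := hjx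
    simp only [hjx']
  · intro j hjk hjx
    have hjx' : ¬ s' (j + 1) = x := hjx
    rw [hj j hjk, if_neg hjx']
  · have h1 : (Y m g x ∈ {y | Acc O (cC k cA kA) y [] (2 ^ (y.length ^ K + K))}) ↔
        Acc O (cC k cA kA) (Y m g x) [] (2 ^ ((Y m g x).length ^ K + K)) := Iff.rfl
    rw [← hred, h1, hspec, ← hcA x]

end Pool.Agent.Helper5.AP
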