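import Pool.Agent.Helper5.AP.DetP

/-!
# Moving, coding and decoding
-/

namespace Pool.Agent.Helper5.AP

open Pool.Agent.Helper5.SX Function

variable {O : Set Str} {s : Store} {r u : ℕ} {w v : Str}

theorem item_length (w : Str) : (item w).length = 2 * w.length + 1 := by
  unfold item
  rw [List.length_append, List.length_flatMap]
  simp
  omega

theorem item_nil : item [] = [false] := rfl

theorem item_cons (b : Bool) (w : Str) : item (b :: w) = true :: b :: item w := by
  simp [item]

theorem lenc_nil : lenc [] = [] := rfl

theorem lenc_cons (w : Str) (l : List Str) : lenc (w :: l) = item w ++ lenc l := by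
  simp [lenc]

theorem lenc_append (l l' : List Str) : lenc (l ++ l') = lenc l ++ lenc l' := by
  simp [lenc]

/-- As `cpg_aux1`. -/
theorem mv_does (h : r ≠ u) : Does O (mv r u) s
    (update (update s r []) u ((s r).reverse ++ s u)) True (3 * (s r).length + 1) := by
  unfold mv
  induction hw : s r generalizing s with
  | nil =>
    refine Does.congr (does_loop_nil hw) (fun _ => ?_) Iff.rfl
    rw [← hw, update_eq_self, hw, List.reverse_nil, List.nil_append, update_eq_self]
  | cons b w ih =>
    have h1 : Does O (Cmd.pop r Cmd.skip (Cmd.push u false) (Cmd.push u true)) s
        (update (update s r w) u (b :: s u)) True 2 := by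
      have e : (update s r w) u = s u := update_of_ne h.symm _ _
      cases b with
      | false =>
        refine Spec.pop_false hw ?_
        have := does_push (O := O) (s := update s r w) u false
        rwa [e] at this
      | true =>
        refine Spec.pop_true hw ?_
        have := does_push (O := O) (s := update s r w) u true
        rwa [e] at this
    have h2 := Does.loop_cons (by rw [hw]; simp) h1
      (fun _ => ih (s := update (update s r w) u (b :: s u)) (by simp [h]))
    refine (Does.congr h2 (fun _ => ?_) (by simp)).mono ?_
    · ext q : 1
      by_cases hq : q = u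
      · subst hq
        simp
      · by_cases hq' : q = r
        · subst hq'
          simp [hq]
        · simp [hq, hq']
    · simp only [List.length_cons]
      omega

private theorem Mv_eml (hu : u ≠ 31) : ∀ (w : Str) (s : Store), s 31 = w →
    Does O (Cmd.loop 31 (Cmd.pop 31 Cmd.skip
      (Cmd.seq (Cmd.push u false) (Cmd.push u true)) (Cmd.seq (Cmd.push u true)
        (Cmd.push u true)))) s
      (update (update s 31 []) u (w.reverse.flatMap (fun b => [true, b]) ++ s u)) True
      (4 * w.length + 1) := by
  intro w
  induction w with
  | nil =>
    intro s hw
    refine Does.congr (does_loop_nil hw) (fun _ => ?_) Iff.rfl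
    rw [← hw, update_eq_self, hw, List.reverse_nil, List.flatMap_nil, List.nil_append,
      update_eq_self]
  | cons b w ih =>
    intro s hw
    have h1 : Does O (Cmd.pop 31 Cmd.skip
        (Cmd.seq (Cmd.push u false) (Cmd.push u true)) (Cmd.seq (Cmd.push u true)
          (Cmd.push u true))) s
        (update (update s 31 w) u (true :: b :: s u)) True 3 := by
      have e : (update s 31 w) u = s u := update_of_ne hu _ _
      cases b with
      | false =>
        refine Spec.pop_false hw ?_
        have d1 := does_push (O := O) (s := update s 31 w) u false
        rw [e] at d1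
        have d2 := does_push (O := O) (s := update (update s 31 w) u (false :: s u)) u true
        rw [update_self, update_idem] at d2
        exact Does.congr (Does.seq d1 (fun _ => d2)) (fun _ => rfl) (by simp)
      | true =>
        refine Spec.pop_true hw ?_
        have d1 := does_push (O := O) (s := update s 31 w) u true
        rw [e] at d1
        have d2 := does_push (O := O) (s := update (update s 31 w) u (true :: s u)) u true
        rw [update_self, update_idem] at d2
        exact Does.congr (Does.seq d1 (fun _ => d2)) (fun _ => rfl) (by simp)
    have h2 := Does.loop_cons (by rw [hw]; simp) h1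
      (fun _ => ih (update (update s 31 w) u (true :: b :: s u))
        (by rw [update_of_ne hu.symm, update_self]))
    refine (Does.congr h2 (fun _ => ?_) (by simp)).mono ?_
    · ext q : 1
      by_cases hq : q = u
      · subst hq
        simp
      · by_cases hq' : q = 31
        · subst hq'
          simp [hq]
        · simp [hq, hq']
    · simp only [List.length_cons]
      omega

theorem emt_does (h31 : s 31 = []) (hr : r ≠ 31) (hu : u ≠ 31) (hru : r ≠ u) :
    Does O (emt r u) s (update (update s r []) u (item (s r) ++ s u)) True
      (10 * (s r).length + 10) := by
  have d1 := mv_does (O := O) (s := s) (r := r) (u := 31) hr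
  rw [h31, List.append_nil] at d1
  have d2 := does_push (O := O) (s := update (update s r []) 31 (s r).reverse) u false
  rw [update_of_ne hu, update_of_ne hru.symm] at d2
  have d3 := Mv_eml (O := O) hu (s r).reverse
    (update (update (update s r []) 31 (s r).reverse) u (false :: s u))
    (by rw [update_of_ne hu.symm, update_self])
  rw [List.reverse_reverse, List.length_reverse] at d3
  unfold emt
  refine (Does.congr (Does.seq d1 (fun _ => Does.seq d2 (fun _ => d3))) (fun _ => ?_)
    (by simp)).mono (by omega)
  ext q : 1
  by_cases hq : q = u
  · subst hq
    simp [item]
  · by_cases h1 : q = 31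
    · subst h1
      simp [hq, hr.symm, h31]
    · by_cases h2 : q = r
      · subst h2
        simp [hq, h1]
      · simp [hq, h1, h2]

private theorem Mv2_unf {f : ℕ} (h : s f = [true]) :
    Does O (unf f) s (update s f []) True 2 :=
  Spec.pop_true h does_skip

private theorem Mv2_rdl (hr : r ≠ 29) (hr' : r ≠ 31) : ∀ (w : Str) (s : Store),
    s 29 = [true] → s r = item w ++ v →
    Does O (Cmd.loop 29 (Cmd.pop r (unf 29) (unf 29) (Cmd.pop r Cmd.skip (Cmd.push 31 false)
      (Cmd.push 31 true)))) s
      (update (update (update s 29 []) r v) 31 (w.reverse ++ s 31)) True
      (4 * w.length + 5) := by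
  intro w
  induction w with
  | nil =>
    intro s h29 hs
    have h1 : Does O (Cmd.pop r (unf 29) (unf 29) (Cmd.pop r Cmd.skip (Cmd.push 31 false)
        (Cmd.push 31 true))) s (update (update s r v) 29 []) True 3 := by
      refine Spec.pop_false (w := v) (by rw [hs, item_nil]; rfl) ?_
      exact Mv2_unf (by rw [update_of_ne hr.symm]; exact h29)
    have h2 := Does.loop_cons (by rw [h29]; simp) h1 (fun _ => does_loop_nil (by rw [update_self]))
    refine (Does.congr h2 (fun _ => ?_) (by simp)).mono (by simp)
    ext q : 1
    by_cases hq : q = 31
    · subst hq
      simp [hr'.symm]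
    · by_cases hq' : q = r
      · subst hq'
        simp [hq, hr]
      · by_cases hq2 : q = 29
        · subst hq2
          simp [hq']
        · simp [hq, hq', hq2]
  | cons b w ih =>
    intro s h29 hs
    rw [item_cons] at hs
    have h1 : Does O (Cmd.pop r (unf 29) (unf 29) (Cmd.pop r Cmd.skip (Cmd.push 31 false)
        (Cmd.push 31 true))) s (update (update s r (item w ++ v)) 31 (b :: s 31)) True 3 := by
      refine Spec.pop_true (w := b :: (item w ++ v)) hs ?_
      have e0 : update s r (b :: (item w ++ v)) r = b :: (item w ++ v) := update_self ..
      cases b with
      | false =>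
        refine Spec.pop_false e0 ?_
        rw [update_idem]
        have := does_push (O := O) (s := update s r (item w ++ v)) 31 false
        rwa [update_of_ne hr'.symm] at this
      | true =>
        refine Spec.pop_true e0 ?_
        rw [update_idem]
        have := does_push (O := O) (s := update s r (item w ++ v)) 31 true
        rwa [update_of_ne hr'.symm] at this
    have h2 := Does.loop_cons (by rw [h29]; simp) h1
      (fun _ => ih (update (update s r (item w ++ v)) 31 (b :: s 31))
        (by rw [update_of_ne (by omega), update_of_ne hr.symm]; exact h29)
        (by rw [update_of_ne hr', update_self]))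
    refine (Does.congr h2 (fun _ => ?_) (by simp)).mono ?_
    · ext q : 1
      by_cases hq : q = 31
      · subst hq
        simp
      · by_cases hq' : q = r
        · subst hq'
          simp [hq]
        · by_cases hq2 : q = 29
          · subst hq2
            simp [hq']
          · simp [hq, hq', hq2]
    · simp only [List.length_cons]
      omega

theorem rd_does (h29 : s 29 = []) (h31 : s 31 = []) (hr : r ≠ 29) (hr' : r ≠ 31) (hu : u ≠ 29)
    (hu' : u ≠ 31) (hru : r ≠ u) (hs : s r = item w ++ v) :
    Does O (rd r u) s (update (update s r v) u (w ++ s u)) True (10 * w.length + 10) := by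
  have d1 := does_push (O := O) (s := s) 29 true
  rw [h29] at d1
  have d2 := Mv2_rdl (O := O) (v := v) hr hr' w (update s 29 [true]) (update_self ..)
    (by rw [update_of_ne hr]; exact hs)
  rw [update_idem, update_of_ne (show 31 ≠ 29 by omega), h31, List.append_nil] at d2
  have d3 := mv_does (O := O) (s := update (update (update s 29 []) r v) 31 w.reverse)
    (r := 31) (u := u) hu'.symm
  rw [update_self, List.reverse_reverse, update_idem, update_of_ne hu', update_of_ne hru.symm,
    update_of_ne hu, List.length_reverse] at d3
  unfold rd
  refine (Does.congr (Does.seq d1 (fun _ => Does.seq d2 (fun _ => d3))) (fun _ => ?_)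
    (by simp)).mono (by omega)
  ext q : 1
  by_cases hq : q = u
  · subst hq
    simp
  · by_cases h1 : q = 31
    · subst h1
      simp [hq, hr'.symm, h31]
    · by_cases h2 : q = r
      · subst h2
        simp [hq, h1]
      · by_cases h3 : q = 29
        · subst h3
          simp [hq, h2, h29]
        · simp [hq, h1, h2, h3]

private theorem Mv2_mvl (hr : r ≠ 29) (hu : u ≠ 29) (hru : r ≠ u) : ∀ (w : Str) (s : Store),
    s 29 = [true] → s r = item w ++ v →
    Does O (Cmd.loop 29 (Cmd.pop r (unf 29) (Cmd.seq (unf 29) (Cmd.push u false))
      (Cmd.seq (Cmd.push u true) (Cmd.pop r Cmd.skip (Cmd.push u false) (Cmd.push u true))))) s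
      (update (update (update s 29 []) r v) u ((item w).reverse ++ s u)) True
      (5 * w.length + 6) := by
  intro w
  induction w with
  | nil =>
    intro s h29 hs
    have h1 : Does O (Cmd.pop r (unf 29) (Cmd.seq (unf 29) (Cmd.push u false))
        (Cmd.seq (Cmd.push u true) (Cmd.pop r Cmd.skip (Cmd.push u false) (Cmd.push u true)))) s
        (update (update (update s r v) 29 []) u (false :: s u)) True 4 := by
      refine Spec.pop_false (w := v) (by rw [hs, item_nil]; rfl) ?_
      have h3 := Does.seq (Mv2_unf (O := O) (s := update s r v) (f := 29)
        (by rw [update_of_ne hr.symm]; exact h29)) (fun _ => does_push u false)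
      refine Does.congr h3 (fun _ => ?_) (by simp)
      rw [update_of_ne hu, update_of_ne hru.symm]
    have h2 := Does.loop_cons (by rw [h29]; simp) h1
      (fun _ => does_loop_nil (by rw [update_of_ne hu.symm, update_self]))
    refine (Does.congr h2 (fun _ => ?_) (by simp)).mono (by simp)
    rw [item_nil, List.reverse_singleton, List.singleton_append]
    ext q : 1
    by_cases hq : q = u
    · subst hq
      simp
    · by_cases hq' : q = r
      · subst hq'
        simp [hq, hr]
      · by_cases hq2 : q = 29
        · subst hq2
          simp [hq, hq']
        · simp [hq, hq', hq2]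
  | cons b w ih =>
    intro s h29 hs
    rw [item_cons] at hs
    have h1 : Does O (Cmd.pop r (unf 29) (Cmd.seq (unf 29) (Cmd.push u false))
        (Cmd.seq (Cmd.push u true) (Cmd.pop r Cmd.skip (Cmd.push u false) (Cmd.push u true)))) s
        (update (update s r (item w ++ v)) u (b :: true :: s u)) True 4 := by
      refine Spec.pop_true (w := b :: (item w ++ v)) hs ?_
      have d1 := does_push (O := O) (s := update s r (b :: (item w ++ v))) u true
      rw [update_of_ne hru.symm] at d1
      have e0 : update (update s r (b :: (item w ++ v))) u (true :: s u) r =
          b :: (item w ++ v) := by rw [update_of_ne hru, update_self]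
      have d2 : Does O (Cmd.pop r Cmd.skip (Cmd.push u false) (Cmd.push u true))
          (update (update s r (b :: (item w ++ v))) u (true :: s u))
          (update (update (update (update s r (b :: (item w ++ v))) u (true :: s u)) r
            (item w ++ v)) u (b :: true :: s u)) True 2 := by
        cases b with
        | false =>
          refine Spec.pop_false e0 ?_
          have := does_push (O := O) (s := update (update (update s r
            (false :: (item w ++ v))) u (true :: s u)) r (item w ++ v)) u false
          rwa [update_of_ne hru.symm, update_self] at this
        | true =>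
          refine Spec.pop_true e0 ?_
          have := does_push (O := O) (s := update (update (update s r
            (true :: (item w ++ v))) u (true :: s u)) r (item w ++ v)) u true
          rwa [update_of_ne hru.symm, update_self] at this
      refine Does.congr (Does.seq d1 (fun _ => d2)) (fun _ => ?_) (by simp)
      ext q : 1
      by_cases hq : q = u
      · subst hq
        simp
      · by_cases hq' : q = r
        · subst hq'
          simp [hq]
        · simp [hq, hq']
    have h2 := Does.loop_cons (by rw [h29]; simp) h1
      (fun _ => ih (update (update s r (item w ++ v)) u (b :: true :: s u))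
        (by rw [update_of_ne hu.symm, update_of_ne hr.symm]; exact h29)
        (by rw [update_of_ne hru, update_self]))
    refine (Does.congr h2 (fun _ => ?_) (by simp)).mono ?_
    · rw [item_cons]
      ext q : 1
      by_cases hq : q = u
      · subst hq
        simp
      · by_cases hq' : q = r
        · subst hq'
          simp [hq]
        · by_cases hq2 : q = 29
          · subst hq2
            simp [hq, hq']
          · simp [hq, hq', hq2]
    · simp only [List.length_cons]
      omega

theorem mvi_does (h29 : s 29 = []) (hr : r ≠ 29) (hu : u ≠ 29) (hru : r ≠ u)
    (hs : s r = item w ++ v) :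
    Does O (mvi r u) s (update (update s r v) u ((item w).reverse ++ s u)) True
      (10 * w.length + 10) := by
  have d1 := does_push (O := O) (s := s) 29 true
  rw [h29] at d1
  have d2 := Mv2_mvl (O := O) (v := v) hr hu hru w (update s 29 [true]) (update_self ..)
    (by rw [update_of_ne hr]; exact hs)
  rw [update_idem, update_of_ne hu] at d2
  unfold mvi
  refine (Does.congr (Does.seq d1 (fun _ => d2)) (fun _ => ?_) (by simp)).mono (by omega)
  ext q : 1
  by_cases hq : q = u
  · subst hq
    simp
  · by_cases h2 : q = r
    · subst h2
      simp [hq]
    · by_cases h3 : q = 29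
      · subst h3
        simp [hq, h2, h29]
      · simp [hq, h2, h3]

private theorem Mv2_drl (hr : r ≠ 29) : ∀ (w : Str) (s : Store),
    s 29 = [true] → s r = item w ++ v →
    Does O (Cmd.loop 29 (Cmd.pop r (unf 29) (unf 29) (Cmd.pop r Cmd.skip Cmd.skip Cmd.skip))) s
      (update (update s 29 []) r v) True (4 * w.length + 5) := by
  intro w
  induction w with
  | nil =>
    intro s h29 hs
    have h1 : Does O (Cmd.pop r (unf 29) (unf 29) (Cmd.pop r Cmd.skip Cmd.skip Cmd.skip)) s
        (update (update s r v) 29 []) True 3 := by
      refine Spec.pop_false (w := v) (by rw [hs, item_nil]; rfl) ?_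
      exact Mv2_unf (by rw [update_of_ne hr.symm]; exact h29)
    have h2 := Does.loop_cons (by rw [h29]; simp) h1 (fun _ => does_loop_nil (by rw [update_self]))
    refine (Does.congr h2 (fun _ => ?_) (by simp)).mono (by simp)
    exact update_comm hr _ _ _
  | cons b w ih =>
    intro s h29 hs
    rw [item_cons] at hs
    have h1 : Does O (Cmd.pop r (unf 29) (unf 29) (Cmd.pop r Cmd.skip Cmd.skip Cmd.skip)) s
        (update s r (item w ++ v)) True 3 := by
      refine Spec.pop_true (w := b :: (item w ++ v)) hs ?_
      have e0 : update s r (b :: (item w ++ v)) r = b :: (item w ++ v) := update_self ..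
      cases b with
      | false =>
        refine Spec.pop_false e0 ?_
        rw [update_idem]
        exact does_skip
      | true =>
        refine Spec.pop_true e0 ?_
        rw [update_idem]
        exact does_skip
    have h2 := Does.loop_cons (by rw [h29]; simp) h1
      (fun _ => ih (update s r (item w ++ v))
        (by rw [update_of_ne hr.symm]; exact h29) (by rw [update_self]))
    refine (Does.congr h2 (fun _ => ?_) (by simp)).mono ?_
    · ext q : 1
      by_cases hq' : q = r
      · subst hq'
        simp
      · by_cases hq2 : q = 29
        · subst hq2
          simp [hq']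
        · simp [hq', hq2]
    · simp only [List.length_cons]
      omega

theorem dri_does (h29 : s 29 = []) (hr : r ≠ 29) (hs : s r = item w ++ v) :
    Does O (dri r) s (update s r v) True (10 * w.length + 10) := by
  have d1 := does_push (O := O) (s := s) 29 true
  rw [h29] at d1
  have d2 := Mv2_drl (O := O) (v := v) hr w (update s 29 [true]) (update_self ..)
    (by rw [update_of_ne hr]; exact hs)
  rw [update_idem] at d2
  unfold dri
  refine (Does.congr (Does.seq d1 (fun _ => d2)) (fun _ => ?_) (by simp)).mono (by omega)
  rw [← h29, update_eq_self]

theorem pushs_does (w : Str) (u : ℕ) :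
    Does O (pushs w u) s (update s u (w ++ s u)) True (w.length + 1) := by
  induction w with
  | nil =>
    refine Does.congr does_skip (fun _ => ?_) Iff.rfl
    rw [List.nil_append, update_eq_self]
  | cons b w ih =>
    have d2 := does_push (O := O) (s := update s u (w ++ s u)) u b
    rw [update_self, update_idem] at d2
    unfold pushs
    exact (Does.congr (Does.seq ih (fun _ => d2)) (fun _ => rfl) (by simp)).mono
      (by simp only [List.length_cons]; omega)

end Pool.Agent.Helper5.AP
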