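import Pool.Agent.Helper5.AP.Mv

/-!
# Going to a stack of the memory, taking an item
-/

namespace Pool.Agent.Helper5.AP

open Pool.Agent.Helper5.SX Function

variable {O : Set Str} {s : Store}

private theorem seek_unf {s : Store} {f : ℕ} {b : Bool} (h : s f = [b]) :
    Does O (unf f) s (update s f []) True 2 := by
  unfold unf
  cases b with
  | false => exact Spec.pop_false h does_skip
  | true => exact Spec.pop_true h does_skip

private theorem seek_loop (l : List Str) {v μ : Str} {s : Store} (h28 : s 28 = [true])
    (h29 : s 29 = []) (h22 : s 22 = List.replicate l.length true ++ false :: v)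
    (h21 : s 21 = lenc l ++ μ) :
    Does O (Cmd.loop 28 (Cmd.pop 22 (unf 28) (unf 28) (mvi 21 24))) s
      (update (update (update (update s 28 []) 22 v) 21 μ) 24 ((lenc l).reverse ++ s 24)) True
      (12 * (lenc l).length + 5) := by
  induction l generalizing s with
  | nil =>
    have h1 : Does O (Cmd.pop 22 (unf 28) (unf 28) (mvi 21 24)) s
        (update (update s 22 v) 28 []) True 3 :=
      Spec.pop_false (by simpa using h22) (seek_unf (b := true) (by simp [h28]))
    have h2 := Does.loop_cons (by rw [h28]; simp) h1 (fun _ => does_loop_nil (by simp))
    refine (Does.congr h2 (fun _ => ?_) (by simp)).mono (by omega)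
    have h21' : s 21 = μ := by simpa [lenc_nil] using h21
    ext q : 1
    by_cases g1 : q = 24
    · subst g1
      simp [lenc_nil]
    · by_cases g2 : q = 21
      · subst g2
        simp [h21']
      · by_cases g3 : q = 22
        · subst g3
          simp
        · by_cases g4 : q = 28
          · subst g4
            simp
          · simp [g1, g2, g3, g4]
  | cons w l ih =>
    have h1 : Does O (Cmd.pop 22 (unf 28) (unf 28) (mvi 21 24)) s
        (update (update (update s 22 (List.replicate l.length true ++ false :: v)) 21
          (lenc l ++ μ)) 24 ((item w).reverse ++ s 24)) True (10 * w.length + 10 + 1) := by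
      refine Spec.pop_true (w := List.replicate l.length true ++ false :: v)
        (by rw [h22]; simp [List.replicate_succ]) ?_
      have := mvi_does (O := O) (s := update s 22 (List.replicate l.length true ++ false :: v))
        (r := 21) (u := 24) (w := w) (v := lenc l ++ μ) (by simp [h29]) (by decide) (by decide)
        (by decide) (by simp [h21, lenc_cons])
      have e : (update s 22 (List.replicate l.length true ++ false :: v)) 24 = s 24 :=
        update_of_ne (by decide) _ _
      rwa [e] at this
    have h2 := Does.loop_cons (by rw [h28]; simp) h1 (fun _ =>
      ih (s := update (update (update s 22 (List.replicate l.length true ++ false :: v)) 21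
          (lenc l ++ μ)) 24 ((item w).reverse ++ s 24)) (by simp [h28]) (by simp [h29]) (by simp)
        (by simp))
    refine (Does.congr h2 (fun _ => ?_) (by simp)).mono ?_
    · ext q : 1
      by_cases g1 : q = 24
      · subst g1
        simp [lenc_cons]
      · by_cases g2 : q = 21
        · subst g2
          simp
        · by_cases g3 : q = 22
          · subst g3
            simp
          · by_cases g4 : q = 28
            · subst g4
              simp
            · simp [g1, g2, g3, g4]
    · rw [lenc_cons, List.length_append, item_length]
      omega

/-- Induction on `l` for the loop. -/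
theorem seek_does (l : List Str) {v μ : Str} (h28 : s 28 = []) (h29 : s 29 = [])
    (h22 : s 22 = List.replicate l.length true ++ false :: v) (h21 : s 21 = lenc l ++ μ) :
    Does O seek s (update (update (update s 22 v) 21 μ) 24 ((lenc l).reverse ++ s 24)) True
      (50 * ((lenc l).length + 1)) := by
  unfold seek
  have h1 : Does O (Cmd.push 28 true) s (update s 28 [true]) True 1 := by
    have := does_push (O := O) (s := s) 28 true
    rwa [h28] at this
  have h2 := Does.seq h1 (fun _ => seek_loop (O := O) l (s := update s 28 [true]) (v := v)
    (μ := μ) (by simp) (by simp [h29]) (by simp [h22]) (by simp [h21]))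
  refine (Does.congr h2 (fun _ => ?_) (by simp)).mono (by omega)
  ext q : 1
  by_cases g1 : q = 24
  · subst g1
    simp
  · by_cases g2 : q = 21
    · subst g2
      simp
    · by_cases g3 : q = 22
      · subst g3
        simp
      · by_cases g4 : q = 28
        · subst g4
          simp [h28]
        · simp [g1, g2, g3, g4]

private theorem takep_iter (l : List Str) {v : Str} {s : Store} (h29 : s 29 = [])
    (h22 : s 22 = lenc l ++ v) :
    Does O (iterc (dri 22) l.length) s (update s 22 v) True (10 * (lenc l).length + 1) := by
  induction l generalizing s with
  | nil =>
    refine (Does.congr does_skip (fun _ => ?_) Iff.rfl).mono (by omega)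
    have h : v = s 22 := by simpa [lenc_nil] using h22.symm
    rw [h, update_eq_self]
  | cons w l ih =>
    have h1 := dri_does (O := O) (s := s) (r := 22) (w := w) (v := lenc l ++ v) h29 (by decide)
      (by rw [h22, lenc_cons, List.append_assoc])
    have h2 := Does.seq h1 (fun _ => ih (s := update s 22 (lenc l ++ v)) (by simp [h29])
      (by simp))
    refine (Does.congr h2 (fun _ => ?_) (by simp)).mono ?_
    · simp
    · rw [lenc_cons, List.length_append, item_length]
      omega

/-- `dri_does` (`i` times), `mvi_does`, `clr_does`, `mv_does`. -/
theorem takep_does (l : List Str) {w v : Str} (h23 : s 23 = []) (h29 : s 29 = [])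
    (h22 : s 22 = lenc l ++ (item w ++ v)) :
    Does O (takep l.length) s (update (update s 22 []) 20 (item w ++ s 20)) True
      (50 * ((s 22).length + 1)) := by
  unfold takep
  set s1 : Store := update s 22 (item w ++ v) with hs1
  set s2 : Store := update (update s1 22 v) 23 ((item w).reverse ++ s1 23) with hs2
  have h1 := takep_iter (O := O) l (s := s) h29 h22
  have h2 := mvi_does (O := O) (s := s1) (r := 22) (u := 23) (w := w) (v := v)
    (by simp [hs1, h29]) (by decide) (by decide) (by decide) (by simp [hs1])
  have h3 := clr_does (O := O) (s := s2) 22
  have h4 := mv_does (O := O) (s := update s2 22 []) (r := 23) (u := 20) (by decide)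
  have h5 := Does.seq h1 (fun _ => Does.seq h2 (fun _ => Does.seq h3 (fun _ => h4)))
  refine (Does.congr h5 (fun _ => ?_) (by simp)).mono ?_
  · ext q : 1
    by_cases g1 : q = 20
    · subst g1
      simp [hs2, hs1, h23]
    · by_cases g2 : q = 22
      · subst g2
        simp
      · by_cases g3 : q = 23
        · subst g3
          simp [h23]
        · simp [hs2, hs1, g1, g2, g3]
  · have e1 : (s2 22).length = v.length := by simp [hs2]
    have e2 : ((update s2 22 []) 23 : Str).length = 2 * w.length + 1 := by
      simp [hs2, hs1, h23, item_length]
    rw [e1, e2, h22]
    simp only [List.length_append, item_length]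
    omega

end Pool.Agent.Helper5.AP
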