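import Pool.Agent.Helper5.AP.Body

/-!
# The interpreter
-/

namespace Pool.Agent.Helper5.AP

open Pool.Agent.Helper5.SX Function

variable {O : Set Str}

theorem item_len_le_cb (c : Cmd) : (item (enc c)).length ≤ cb c := by
  cases c <;> simp only [cb] <;> omega

/-- The memory at a stack `r < R`. -/
theorem mem_split {R r : ℕ} (hr : r < R) (s : Store) : ∃ l₁ l₂ : List Str, l₁.length = r ∧
    mem R s = lenc (l₁ ++ s r :: l₂) ∧ ∀ w, mem R (update s r w) = lenc (l₁ ++ w :: l₂) := by
  obtain ⟨k, rfl⟩ : ∃ k, R = r + (k + 1) := ⟨R - r - 1, by omega⟩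
  have key : ∀ f : ℕ → Str, (List.range (r + (k + 1))).map f =
      (List.range r).map f ++ f r :: (List.range k).map (fun i => f (r + 1 + i)) := by
    intro f
    rw [List.range_add, List.map_append, List.map_map, List.range_succ_eq_map, List.map_cons,
      List.map_map]
    congr 2
    refine List.map_congr_left fun i _ => ?_
    have e : r + (i + 1) = r + 1 + i := by omega
    show f (r + (i + 1)) = f (r + 1 + i)
    rw [e]
  refine ⟨(List.range r).map s, (List.range k).map (fun i => s (r + 1 + i)), by simp, ?_, ?_⟩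
  · unfold mem
    rw [key]
  · intro w
    unfold mem
    rw [key, update_self]
    congr 2
    · refine List.map_congr_left fun i hi => ?_
      rw [List.mem_range] at hi
      exact update_of_ne (by omega) _ _
    · congr 1
      refine List.map_congr_left fun i _ => ?_
      exact update_of_ne (by omega) _ _

private theorem mem_split_upd {R r d : ℕ} {s : Store} {w : Str}
    (h : w.length ≤ (s r).length + d) :
    (mem R (update s r w)).length ≤ (mem R s).length + 2 * d := by
  rcases Nat.lt_or_ge r R with hr | hr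
  · obtain ⟨l₁, l₂, -, h1, h2⟩ := mem_split hr s
    rw [h1, h2 w]
    simp only [lenc_append, lenc_cons, List.length_append, item_length]
    omega
  · have h1 : mem R (update s r w) = mem R s := by
      unfold mem
      congr 1
      refine List.map_congr_left fun i hi => ?_
      rw [List.mem_range] at hi
      exact update_of_ne (by omega) _ _
    rw [h1]
    omega

/-- The memory grows by at most two symbols per step. -/
theorem mem_length_run {c : Cmd} {s s' : Store} {t R : ℕ} (h : Run O c s t s') :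
    (mem R s').length ≤ (mem R s).length + 2 * t := by
  induction h with
  | skip s => omega
  | push r b s =>
    have h1 := mem_split_upd (R := R) (r := r) (d := 1) (s := s) (w := b :: s r) (by simp)
    omega
  | seq _ _ ih1 ih2 => omega
  | pop_nil _ _ ih => omega
  | @pop_false r c₀ c₁ c₂ s₀ s₁ t w hs h1 ih =>
    have h2 := mem_split_upd (R := R) (r := r) (d := 0) (s := s₀) (w := w) (by
      rw [hs, List.length_cons]
      omega)
    omega
  | @pop_true r c₀ c₁ c₂ s₀ s₁ t w hs h1 ih =>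
    have h2 := mem_split_upd (R := R) (r := r) (d := 0) (s := s₀) (w := w) (by
      rw [hs, List.length_cons]
      omega)
    omega
  | loop_nil _ => omega
  | loop_cons _ _ _ ih1 ih2 => omega
  | query_yes _ _ ih => omega
  | query_no _ _ ih => omega
  | choose_left _ ih => omega
  | choose_right _ ih => omega

/-- From `s` one gets to `s'` in `T` steps of the loop of the interpreter. -/
def Iter (O : Set Str) (T : ℕ) (s s' : Store) : Prop :=
  ∀ T' s'', Run O (Cmd.loop 20 body) s' T' s'' → Run O (Cmd.loop 20 body) s (T + T') s''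

theorem Iter.trans {T T' : ℕ} {s s' s'' : Store} (h : Iter O T s s') (h' : Iter O T' s' s'') :
    Iter O (T + T') s s'' := by
  intro T₁ s₁ h1
  have := h _ _ (h' _ _ h1)
  rwa [← add_assoc] at this

theorem Iter.step {T : ℕ} {s s' : Store} (hs : s 20 ≠ []) (h : Fwd O body s s' T) :
    ∃ t ≤ T + 1, Iter O t s s' := by
  obtain ⟨t, ht, hr⟩ := h
  refine ⟨t + 1, by omega, fun T₁ s₁ h1 => ?_⟩
  have := Run.loop_cons hs hr h1
  rwa [show t + T₁ + 1 = t + 1 + T₁ by ring] at this

private theorem step_item_length (w : Str) : (item w).length = 2 * w.length + 1 := by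
  unfold item
  rw [List.length_append, List.length_singleton]
  congr 1
  induction w with
  | nil => rfl
  | cons b w ih =>
    rw [List.flatMap_cons, List.length_append, ih, List.length_cons]
    simp only [List.length_cons, List.length_nil]
    ring

private theorem step_gen {σ : Store} {K K' μ μ' C C' : Str} {T N : ℕ} (hσ : Clean σ)
    (h : Does O exec (Sx σ K μ C C) (Sx σ K' μ' [] C') True T)
    (hT : T + 20 * (C.length + C'.length + 1) ≤ bT N) :
    ∃ t ≤ bT N + 1, Iter O t (St σ (item C ++ K) μ) (St σ K' μ') := by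
  have h1 := body_of_exec hσ h
  have h2 : Fwd O body (St σ (item C ++ K) μ) (St σ K' μ') (bT N) := by
    obtain ⟨t, ht, hr⟩ := h1.2 _ ⟨rfl, trivial⟩
    exact ⟨t, ht.trans hT, hr⟩
  refine Iter.step ?_ h2
  have h3 : St σ (item C ++ K) μ 20 = item C ++ K := by
    unfold St
    rw [update_of_ne (by decide), update_self]
  rw [h3]
  intro h4
  have h5 := congrArg List.length h4
  rw [List.length_append, step_item_length, List.length_nil] at h5
  omega

private theorem step_len {c : Cmd} {a b N : ℕ} (h : cb c + a + b ≤ N) :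
    2 * (enc c).length + 1 + a + b ≤ N := by
  have h1 := item_len_le_cb c
  rw [step_item_length] at h1
  omega

theorem step_skip {σ : Store} {K μ : Str} {N : ℕ} (hσ : Clean σ)
    (hN : cb Cmd.skip + K.length + μ.length ≤ N) :
    ∃ t ≤ bT N + 1, Iter O t (St σ (item (enc Cmd.skip) ++ K) μ) (St σ K μ) := by
  have h1 := step_len hN
  refine step_gen hσ (exec_skip hσ _) ?_
  unfold bT
  omega

theorem step_push {σ s : Store} {K : Str} {N R r : ℕ} {b : Bool} (hσ : Clean σ) (hr : r < R)
    (hN : cb (Cmd.push r b) + K.length + (mem R s).length ≤ N) :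
    ∃ t ≤ bT N + 1, Iter O t (St σ (item (enc (Cmd.push r b)) ++ K) (mem R s))
      (St σ K (mem R (update s r (b :: s r)))) := by
  obtain ⟨l₁, l₂, hl, h1, h2⟩ := mem_split hr s
  have h3 := step_len hN
  subst hl
  rw [h2]
  rw [h1] at h3 ⊢
  refine step_gen hσ (exec_push hσ b _) ?_
  unfold bT
  omega

theorem step_seq {σ : Store} {K μ : Str} {N : ℕ} {c d : Cmd} (hσ : Clean σ)
    (hN : cb (Cmd.seq c d) + K.length + μ.length ≤ N) :
    ∃ t ≤ bT N + 1, Iter O t (St σ (item (enc (Cmd.seq c d)) ++ K) μ)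
      (St σ (item (enc c) ++ (item (enc d) ++ K)) μ) := by
  have h3 := step_len hN
  refine step_gen hσ (exec_seq hσ c d _) ?_
  unfold bT
  omega

theorem step_pop_nil {σ s : Store} {K : Str} {N R r : ℕ} {c₀ c₁ c₂ : Cmd} (hσ : Clean σ)
    (hr : r < R) (hN : cb (Cmd.pop r c₀ c₁ c₂) + K.length + (mem R s).length ≤ N)
    (hs : s r = []) :
    ∃ t ≤ bT N + 1, Iter O t (St σ (item (enc (Cmd.pop r c₀ c₁ c₂)) ++ K) (mem R s))
      (St σ (item (enc c₀) ++ K) (mem R s)) := by
  obtain ⟨l₁, l₂, hl, h1, -⟩ := mem_split hr s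
  have h3 := step_len hN
  subst hl
  rw [h1, hs] at h3 ⊢
  refine step_gen hσ (exec_pop_nil hσ c₀ c₁ c₂ _) ?_
  unfold bT
  omega

theorem step_pop_false {σ s : Store} {K w : Str} {N R r : ℕ} {c₀ c₁ c₂ : Cmd} (hσ : Clean σ)
    (hr : r < R) (hN : cb (Cmd.pop r c₀ c₁ c₂) + K.length + (mem R s).length ≤ N)
    (hs : s r = false :: w) :
    ∃ t ≤ bT N + 1, Iter O t (St σ (item (enc (Cmd.pop r c₀ c₁ c₂)) ++ K) (mem R s))
      (St σ (item (enc c₁) ++ K) (mem R (update s r w))) := by
  obtain ⟨l₁, l₂, hl, h1, h2⟩ := mem_split hr s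
  have h3 := step_len hN
  subst hl
  rw [h2]
  rw [h1, hs] at h3 ⊢
  refine step_gen hσ (exec_pop_false hσ c₀ c₁ c₂ _) ?_
  unfold bT
  omega

theorem step_pop_true {σ s : Store} {K w : Str} {N R r : ℕ} {c₀ c₁ c₂ : Cmd} (hσ : Clean σ)
    (hr : r < R) (hN : cb (Cmd.pop r c₀ c₁ c₂) + K.length + (mem R s).length ≤ N)
    (hs : s r = true :: w) :
    ∃ t ≤ bT N + 1, Iter O t (St σ (item (enc (Cmd.pop r c₀ c₁ c₂)) ++ K) (mem R s))
      (St σ (item (enc c₂) ++ K) (mem R (update s r w))) := by
  obtain ⟨l₁, l₂, hl, h1, h2⟩ := mem_split hr s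
  have h3 := step_len hN
  subst hl
  rw [h2]
  rw [h1, hs] at h3 ⊢
  refine step_gen hσ (exec_pop_true hσ c₀ c₁ c₂ _) ?_
  unfold bT
  omega

theorem step_loop_nil {σ s : Store} {K : Str} {N R r : ℕ} {c : Cmd} (hσ : Clean σ)
    (hr : r < R) (hN : cb (Cmd.loop r c) + K.length + (mem R s).length ≤ N) (hs : s r = []) :
    ∃ t ≤ bT N + 1, Iter O t (St σ (item (enc (Cmd.loop r c)) ++ K) (mem R s))
      (St σ K (mem R s)) := by
  obtain ⟨l₁, l₂, hl, h1, -⟩ := mem_split hr s
  have h3 := step_len hN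
  subst hl
  rw [h1, hs] at h3 ⊢
  refine step_gen hσ (exec_loop_nil hσ c _) ?_
  unfold bT
  omega

theorem step_loop_cons {σ s : Store} {K : Str} {N R r : ℕ} {c : Cmd} (hσ : Clean σ)
    (hr : r < R) (hN : cb (Cmd.loop r c) + K.length + (mem R s).length ≤ N) (hs : s r ≠ []) :
    ∃ t ≤ bT N + 1, Iter O t (St σ (item (enc (Cmd.loop r c)) ++ K) (mem R s))
      (St σ (item (enc c) ++ (item (enc (Cmd.loop r c)) ++ K)) (mem R s)) := by
  obtain ⟨l₁, l₂, hl, h1, -⟩ := mem_split hr s
  have h3 := step_len hN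
  subst hl
  rw [h1] at h3 ⊢
  refine step_gen hσ (exec_loop_cons hσ c _ hs) ?_
  unfold bT
  rw [List.length_nil]
  omega

theorem step_query_yes {σ s : Store} {K : Str} {N R r : ℕ} {c d : Cmd} (hσ : Clean σ)
    (hr : r < R) (hN : cb (Cmd.query r c d) + K.length + (mem R s).length ≤ N) (hs : s r ∈ O) :
    ∃ t ≤ bT N + 1, Iter O t (St σ (item (enc (Cmd.query r c d)) ++ K) (mem R s))
      (St σ (item (enc c) ++ K) (mem R s)) := by
  obtain ⟨l₁, l₂, hl, h1, -⟩ := mem_split hr s
  have h3 := step_len hN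
  subst hl
  rw [h1] at h3 ⊢
  refine step_gen hσ (exec_query_yes hσ c d _ hs) ?_
  unfold bT
  omega

theorem step_query_no {σ s : Store} {K : Str} {N R r : ℕ} {c d : Cmd} (hσ : Clean σ)
    (hr : r < R) (hN : cb (Cmd.query r c d) + K.length + (mem R s).length ≤ N) (hs : s r ∉ O) :
    ∃ t ≤ bT N + 1, Iter O t (St σ (item (enc (Cmd.query r c d)) ++ K) (mem R s))
      (St σ (item (enc d) ++ K) (mem R s)) := by
  obtain ⟨l₁, l₂, hl, h1, -⟩ := mem_split hr s
  have h3 := step_len hN
  subst hl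
  rw [h1] at h3 ⊢
  refine step_gen hσ (exec_query_no hσ c d _ hs) ?_
  unfold bT
  omega

/-- Removing the top of a stack makes the memory shorter. -/
theorem mem_pop_length {R r : ℕ} (hr : r < R) {s : Store} {b : Bool} {w : Str}
    (hs : s r = b :: w) : (mem R (update s r w)).length + 2 = (mem R s).length := by
  obtain ⟨l₁, l₂, -, h1, h2⟩ := mem_split hr s
  rw [h1, h2 w, hs]
  simp only [lenc_append, lenc_cons, List.length_append, item_length, List.length_cons]
  omega

/-- The simulation: induction on the run. -/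
theorem sim {c : Cmd} {s s' : Store} {t : ℕ} (h : Run O c s t s') (hdet : c.Det) {R : ℕ}
    (hR : c.bd ≤ R) {σ : Store} (hσ : Clean σ) : ∀ (K : Str) (N : ℕ),
    cb c + K.length + (mem R s).length + 2 * t ≤ N →
    ∃ T, T + (bT N + 1) ≤ 2 * t * (bT N + 1) ∧
      Iter O T (St σ (item (enc c) ++ K) (mem R s)) (St σ K (mem R s')) := by
  induction h with
  | skip s =>
    intro K N hN
    obtain ⟨T, hT, hi⟩ := step_skip (O := O) hσ (K := K) (μ := mem R s) (N := N) (by omega)
    exact ⟨T, by omega, hi⟩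
  | push r b s =>
    intro K N hN
    simp only [Cmd.bd] at hR
    obtain ⟨T, hT, hi⟩ := step_push (O := O) hσ (K := K) (s := s) (R := R) (r := r) (b := b)
      (N := N) (by omega) (by omega)
    exact ⟨T, by omega, hi⟩
  | @seq c d s₀ s₁ s₂ t t' h1 h2 ih1 ih2 =>
    intro K N hN
    simp only [Cmd.bd] at hR
    have hcb : cb (Cmd.seq c d) = (item (enc (Cmd.seq c d))).length + cb c + cb d := by
      simp only [cb]
    have hd := item_len_le_cb d
    have hm := mem_length_run (R := R) h1
    obtain ⟨T, hT, hi⟩ := step_seq (O := O) hσ (K := K) (μ := mem R s₀) (N := N) (c := c) (d := d)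
      (by omega)
    obtain ⟨T₁, hT₁, hi₁⟩ := ih1 hdet.1 (by omega) (item (enc d) ++ K) N (by
      rw [List.length_append]
      omega)
    obtain ⟨T₂, hT₂, hi₂⟩ := ih2 hdet.2 (by omega) K N (by omega)
    refine ⟨T + (T₁ + T₂), ?_, hi.trans (hi₁.trans hi₂)⟩
    generalize bT N + 1 = P at *
    have e : 2 * (t + t') * P = 2 * t * P + 2 * t' * P := by ring
    omega
  | @pop_nil r c₀ c₁ c₂ s₀ s₁ t hs h1 ih =>
    intro K N hN
    simp only [Cmd.bd] at hR
    have hcb : cb (Cmd.pop r c₀ c₁ c₂) =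
        (item (enc (Cmd.pop r c₀ c₁ c₂))).length + cb c₀ + cb c₁ + cb c₂ := by
      simp only [cb]
    obtain ⟨T, hT, hi⟩ := step_pop_nil (O := O) hσ (K := K) (s := s₀) (R := R) (r := r) (c₀ := c₀)
      (c₁ := c₁) (c₂ := c₂) (N := N) (by omega) (by omega) hs
    obtain ⟨T₁, hT₁, hi₁⟩ := ih hdet.1 (by omega) K N (by omega)
    refine ⟨T + T₁, ?_, hi.trans hi₁⟩
    generalize bT N + 1 = P at *
    have e : 2 * (t + 1) * P = 2 * t * P + 2 * P := by ring
    omega
  | @pop_false r c₀ c₁ c₂ s₀ s₁ t w hs h1 ih =>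
    intro K N hN
    simp only [Cmd.bd] at hR
    have hcb : cb (Cmd.pop r c₀ c₁ c₂) =
        (item (enc (Cmd.pop r c₀ c₁ c₂))).length + cb c₀ + cb c₁ + cb c₂ := by
      simp only [cb]
    have hm := mem_pop_length (R := R) (r := r) (by omega) hs
    obtain ⟨T, hT, hi⟩ := step_pop_false (O := O) hσ (K := K) (s := s₀) (R := R) (r := r)
      (c₀ := c₀) (c₁ := c₁) (c₂ := c₂) (N := N) (by omega) (by omega) hs
    obtain ⟨T₁, hT₁, hi₁⟩ := ih hdet.2.1 (by omega) K N (by omega)
    refine ⟨T + T₁, ?_, hi.trans hi₁⟩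
    generalize bT N + 1 = P at *
    have e : 2 * (t + 1) * P = 2 * t * P + 2 * P := by ring
    omega
  | @pop_true r c₀ c₁ c₂ s₀ s₁ t w hs h1 ih =>
    intro K N hN
    simp only [Cmd.bd] at hR
    have hcb : cb (Cmd.pop r c₀ c₁ c₂) =
        (item (enc (Cmd.pop r c₀ c₁ c₂))).length + cb c₀ + cb c₁ + cb c₂ := by
      simp only [cb]
    have hm := mem_pop_length (R := R) (r := r) (by omega) hs
    obtain ⟨T, hT, hi⟩ := step_pop_true (O := O) hσ (K := K) (s := s₀) (R := R) (r := r)
      (c₀ := c₀) (c₁ := c₁) (c₂ := c₂) (N := N) (by omega) (by omega) hs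
    obtain ⟨T₁, hT₁, hi₁⟩ := ih hdet.2.2 (by omega) K N (by omega)
    refine ⟨T + T₁, ?_, hi.trans hi₁⟩
    generalize bT N + 1 = P at *
    have e : 2 * (t + 1) * P = 2 * t * P + 2 * P := by ring
    omega
  | @loop_nil r c s₀ hs =>
    intro K N hN
    simp only [Cmd.bd] at hR
    obtain ⟨T, hT, hi⟩ := step_loop_nil (O := O) hσ (K := K) (s := s₀) (R := R) (r := r) (c := c)
      (N := N) (by omega) (by omega) hs
    exact ⟨T, by omega, hi⟩
  | @loop_cons r c s₀ s₁ s₂ t t' hs h1 h2 ih1 ih2 =>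
    intro K N hN
    have hR' := hR
    simp only [Cmd.bd] at hR
    have hcb : cb (Cmd.loop r c) = (item (enc (Cmd.loop r c))).length + cb c := by
      simp only [cb]
    have hm := mem_length_run (R := R) h1
    obtain ⟨T, hT, hi⟩ := step_loop_cons (O := O) hσ (K := K) (s := s₀) (R := R) (r := r) (c := c)
      (N := N) (by omega) (by omega) hs
    obtain ⟨T₁, hT₁, hi₁⟩ := ih1 hdet (by omega) (item (enc (Cmd.loop r c)) ++ K) N (by
      rw [List.length_append]
      omega)
    obtain ⟨T₂, hT₂, hi₂⟩ := ih2 hdet hR' K N (by omega)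
    refine ⟨T + (T₁ + T₂), ?_, hi.trans (hi₁.trans hi₂)⟩
    generalize bT N + 1 = P at *
    have e : 2 * (t + t' + 1) * P = 2 * t * P + 2 * t' * P + 2 * P := by ring
    omega
  | @query_yes r c d s₀ s₁ t hs h1 ih =>
    intro K N hN
    simp only [Cmd.bd] at hR
    have hcb : cb (Cmd.query r c d) = (item (enc (Cmd.query r c d))).length + cb c + cb d := by
      simp only [cb]
    obtain ⟨T, hT, hi⟩ := step_query_yes (O := O) hσ (K := K) (s := s₀) (R := R) (r := r)
      (c := c) (d := d) (N := N) (by omega) (by omega) hs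
    obtain ⟨T₁, hT₁, hi₁⟩ := ih hdet.1 (by omega) K N (by omega)
    refine ⟨T + T₁, ?_, hi.trans hi₁⟩
    generalize bT N + 1 = P at *
    have e : 2 * (t + 1) * P = 2 * t * P + 2 * P := by ring
    omega
  | @query_no r c d s₀ s₁ t hs h1 ih =>
    intro K N hN
    simp only [Cmd.bd] at hR
    have hcb : cb (Cmd.query r c d) = (item (enc (Cmd.query r c d))).length + cb c + cb d := by
      simp only [cb]
    obtain ⟨T, hT, hi⟩ := step_query_no (O := O) hσ (K := K) (s := s₀) (R := R) (r := r)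
      (c := c) (d := d) (N := N) (by omega) (by omega) hs
    obtain ⟨T₁, hT₁, hi₁⟩ := ih hdet.2 (by omega) K N (by omega)
    refine ⟨T + T₁, ?_, hi.trans hi₁⟩
    generalize bT N + 1 = P at *
    have e : 2 * (t + 1) * P = 2 * t * P + 2 * P := by ring
    omega
  | choose_left _ _ => exact hdet.elim
  | choose_right _ _ => exact hdet.elim

/-- The interpreter, started on one program. -/
theorem interp {c : Cmd} {s s' : Store} {t : ℕ} (h : Run O c s t s') (hdet : c.Det) {R : ℕ}
    (hR : c.bd ≤ R) {σ : Store} (hσ : Clean σ) :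
    Fwd O (Cmd.loop 20 body) (St σ (item (enc c)) (mem R s)) (St σ [] (mem R s'))
      (2 * t * (bT (cb c + (mem R s).length + 2 * t) + 1)) := by
  obtain ⟨T, hT, hi⟩ := sim h hdet hR hσ [] (cb c + (mem R s).length + 2 * t) (by simp)
  rw [List.append_nil] at hi
  have h1 : Run O (Cmd.loop 20 body) (St σ [] (mem R s')) 1 (St σ [] (mem R s')) :=
    Run.loop_nil (by simp [St])
  exact ⟨T + 1, by omega, hi _ _ h1⟩

end Pool.Agent.Helper5.AP
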